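import Pool.Agent.V1141.WT.U1

/-!
# Tate classes with values in a representation: the theorem
-/

set_option autoImplicit false
set_option linter.unusedSectionVars false
set_option linter.unusedVariables false

namespace Pool.Agent.V1141.WT

open Module Pool.Agent.H204R3.SP Pool.Agent.H204R3.GP Pool.Agent.V1141.OF
open Pool.Agent.Y137.MV (IsEqv)

noncomputable section

/-- A product of Tate forms is a Tate form. -/
theorem product_tate {k H Γ : Type} [Field k] [CharZero k] [AddCommGroup H] [Module k H] [Group Γ]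
    (ρ : Representation k Γ H) (χ : Γ →* k) {N : ℕ}
    (φ : MultilinearMap k (fun _ : Fin N => H) k) {A : Type} [Fintype A] {I : A → Type}
    (p : (Σ a, I a) ≃ Fin N) (c : A → ℤ) (ψ : ∀ a, MultilinearMap k (fun _ : I a => H) k)
    (hψ : ∀ a, IsTateForm ρ χ (c a) (ψ a)) (hφ : ∀ x, φ x = ∏ a, ψ a (fun i => x (p ⟨a, i⟩))) :
    IsTateForm ρ χ (∑ a, c a) φ := by
  choose Δ hΔ h using hψ
  refine ⟨⨅ a, Δ a, Subgroup.finiteIndex_iInf hΔ, fun g hg x => ?_⟩
  rw [hφ, hφ, ← coe_prod_zpow (chi_ne χ g), ← Finset.prod_mul_distrib]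
  exact Finset.prod_congr rfl fun a _ => h a g (Subgroup.mem_iInf.1 hg a) _

variable {k : Type} [Field k] [CharZero k] {Γ : Type} [Group Γ] {χ : Γ →* k}
  {J : Type} [Fintype J] [DecidableEq J] {V V' : J → Type}
  [∀ j, AddCommGroup (V j)] [∀ j, Module k (V j)] [∀ j, AddCommGroup (V' j)]
  [∀ j, Module k (V' j)]
  (ρ : ∀ j, Representation k Γ (V j)) (ρ' : ∀ j, Representation k Γ (V' j))
  (B : ∀ j, V j →ₗ[k] V' j →ₗ[k] k) (hB : ∀ j, Function.Bijective (B j).flip)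
  {w : J → ℤ} (hBρ : ∀ j g v v', B j (ρ j g v) (ρ' j g v') = χ g ^ w j * B j v v')
  {r : J → ℕ} (b : ∀ j, Basis (Fin (r j)) k (V j))
  {T : Set J} {e : J → ℤ} {Δ₀ : Subgroup Γ} (hΔ₀ : Δ₀.FiniteIndex)
  (hdet : ∀ g ∈ Δ₀, ∀ j ∈ T, LinearMap.det (ρ j g) = χ g ^ e j)
  {γ : Γ} {α : ∀ j, Fin (r j) → k} (hb : ∀ j i, ρ j γ (b j i) = α j i • b j i)
  (hα0 : ∀ j i, α j i ≠ 0) (hr : ∀ j, 0 < r j)
  (hrat : ∀ m : (Σ j, Fin (r j)) → ℤ,
    (∀ j, ∑ i : Σ j, Fin (r j), (if i.1 = j then m i else 0) = 0) →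
      ∏ i : Σ j, Fin (r j), α i.1 i.2 ^ m i = 1 → m = 0)
  {M : Type} [AddCommGroup M] [Module k M]
  (τ : Representation k Γ M)
  (hindM : ∀ (m : ∀ j, Fin (r j) → ℤ) (c : ℤ) (n : ℕ) (β : k), 0 < n →
    Module.End.HasEigenvalue (τ γ) β → ∏ j, ∏ i, α j i ^ m j i = β ^ n * χ γ ^ c →
      ∃ d : J → ℤ, (∀ j i, m j i = d j) ∧ ∀ j, j ∉ T → d j = 0)

include hb hα0 hrat in
theorem big_van' {C : ((∀ j, V j) × Module.Dual k (∀ j, V j)) →ₗ[k]
    ((∀ j, V j) × Module.Dual k (∀ j, V j)) →ₗ[k] k} (hC : IsTate2 (rp (totRep ρ)) 1 C)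
    {x y : (Σ j, Fin (r j)) ⊕ (Σ j, Fin (r j))} (h : kd y ≠ Sum.swap (kd x)) :
    C (eb (Pi.basis b) x) (eb (Pi.basis b) y) = 0 :=
  two_van (totRep ρ) (α := fun i : Σ j, Fin (r j) => α i.1 i.2) (Pi.basis b)
    (tot_gamma ρ b hb) (fun _ => hα0 _ _) Sigma.fst (tau k Γ) (tot_tau ρ b)
    hrat hC (fun h' => h (by rw [h']; rcases x with i | i <;> rfl))

include hBρ hb hα0 hrat hdet hΔ₀ in
theorem Lm_mmG' {m N : ℕ} (κ : Fin N → J ⊕ J) {d : J → ℤ} (hd0 : ∀ j, j ∉ T → d j = 0)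
    (E : Fin m × Fin 2 ≃ Fin N ⊕ (Σ a : (Σ κ, Fin (mu d κ)), Fin (rk r a.1)))
    (σ : Equiv.Perm (Fin m × Fin 2)) (C : Fin m → (((∀ j, V j) × Module.Dual k (∀ j, V j)) →ₗ[k]
      ((∀ j, V j) × Module.Dual k (∀ j, V j)) →ₗ[k] k))
    (hC : ∀ s, IsTate2 (rp (totRep ρ)) 1 (C s)) :
    ∃ θ : MultilinearMap k (fun _ : Fin N => (∀ j, V j × V' j)) k,
      θ ∈ Submodule.span k {ψ | IsProductOfTateForms (sumRep ρ ρ') χ ({2} ∪ r '' T) ψ ∧
        IsTateForm (sumRep ρ ρ') χ (∑ l, tw w (κ l) -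
          ∑ a : (Σ κ, Fin (mu d κ)), ek e a.1) ψ} ∧
        ∀ x, Lm B b κ d E (mmG σ C) x = θ x := by
  classical
  have hvan : ∀ C', IsTate2 (rp (totRep ρ)) 1 C' → ∀ (a : (Σ κ, Fin (mu d κ)))
      (p : Fin (rk r a.1)) (a' : (Σ κ, Fin (mu d κ))) (p' : Fin (rk r a'.1)),
      C' (eb (Pi.basis b) (iy a.1 p)) (eb (Pi.basis b) (iy a'.1 p')) = 0 := by
    intro C' hC' a p a' p'
    refine big_van' ρ b hb hα0 hrat hC' ?_
    rw [kd_iy, kd_iy]
    exact mu_swap a a'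
  have key := recover (σ.trans E) (fun l => ow B (κ l))
    (fun (a : (Σ κ, Fin (mu d κ))) p => eb (Pi.basis b) (iy a.1 p))
    (fun C' => IsTate2 (rp (totRep ρ)) 1 C') (fun C' h => isTate2_flip ρ h) hvan C hC
  have hval : ∀ (x : Fin N → (∀ j, V j × V' j)), Lm B b κ d E (mmG σ C) x =
      ∑ π : ∀ a : (Σ κ, Fin (mu d κ)), Equiv.Perm (Fin (rk r a.1)),
        (∏ a, ((Equiv.Perm.sign (π a) : ℤ) : k)) * ∏ s, C s
          (vl (σ.trans E) (fun l => ow B (κ l)) (fun a p => eb (Pi.basis b) (iy a.1 p)) x π (s, 0))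
          (vl (σ.trans E) (fun l => ow B (κ l)) (fun a p => eb (Pi.basis b) (iy a.1 p)) x π (s, 1)) :=
    fun x => rfl
  rcases key with h0 | ⟨S, hS, p2, pX, C2, CX, hbij, hC2, hCX, hx⟩
  · refine ⟨0, Submodule.zero_mem _, fun x => ?_⟩
    rw [hval, h0 x]
    rfl
  · let I : S ⊕ (Σ κ, Fin (mu d κ)) → Type := Sum.elim (fun _ => Fin 2) (fun a => Fin (rk r a.1))
    have hI : ∀ t, Fintype (I t) := by
      rintro (s | a)
      · exact (inferInstance : Fintype (Fin 2))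
      · exact (inferInstance : Fintype (Fin (rk r a.1)))
    let pp : (Σ t, I t) ≃ Fin N := (Equiv.sumSigmaDistrib I).trans
      ((Equiv.sumCongr (Equiv.sigmaEquivProd S (Fin 2)) (Equiv.refl _)).trans
        (Equiv.ofBijective (Sum.elim p2 pX) hbij))
    let ψ : ∀ t, MultilinearMap k (fun _ : I t => (∀ j, V j × V' j)) k := fun t =>
      match t with
      | Sum.inl s => f2 B (C2 s) (κ (p2 (s, 0))) (κ (p2 (s, 1)))
      | Sum.inr a => fD B b a.1 (fun y => CX ⟨a, y⟩) (fun y => κ (pX ⟨a, y⟩))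
    let cc : S ⊕ (Σ κ, Fin (mu d κ)) → ℤ := Sum.elim
      (fun s => tw w (κ (p2 (s, 0))) + tw w (κ (p2 (s, 1))))
      (fun a => ∑ y, tw w (κ (pX ⟨a, y⟩)) - ek e a.1)
    have htate : ∀ t, IsTateForm (sumRep ρ ρ') χ (cc t) (ψ t) := by
      rintro (s | a)
      · exact f2_tate ρ ρ' B hBρ (hC2 s) _ _
      · exact fD_tate ρ ρ' B hBρ b hΔ₀ hdet (mu_T hd0 a) (fun y => hCX ⟨a, y⟩) _
    have hcc : ∑ t, cc t = ∑ l, tw w (κ l) - ∑ a : (Σ κ, Fin (mu d κ)), ek e a.1 := by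
      rw [Fintype.sum_sum_type]
      change ∑ s, (tw w (κ (p2 (s, 0))) + tw w (κ (p2 (s, 1)))) +
        ∑ a : (Σ κ, Fin (mu d κ)), (∑ y, tw w (κ (pX ⟨a, y⟩)) - ek e a.1) = _
      have h1 : ∑ l, tw w (κ l) = ∑ s, (tw w (κ (p2 (s, 0))) + tw w (κ (p2 (s, 1)))) +
          ∑ a : (Σ κ, Fin (mu d κ)), ∑ y, tw w (κ (pX ⟨a, y⟩)) := by
        rw [← hbij.sum_comp (fun l => tw w (κ l)), Fintype.sum_sum_type, Fintype.sum_prod_type,
          Fintype.sum_sigma]
        congr 1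
        exact Finset.sum_congr rfl fun s _ => Fin.sum_univ_two _
      rw [h1, Finset.sum_sub_distrib]
      ring
    refine ⟨(sigmaProd ψ).domDomCongr pp, Submodule.subset_span
      ⟨⟨S ⊕ (Σ κ, Fin (mu d κ)), inferInstance, I, hI, pp, cc, ψ, ?_, fun x => rfl⟩, ?_⟩,
        fun x => ?_⟩
    · rintro (s | a)
      · refine ⟨Or.inl ?_, htate _⟩
        rw [Set.mem_singleton_iff]
        exact (@Fintype.card_congr (I (Sum.inl s)) (Fin 2) (hI (Sum.inl s)) _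
          (Equiv.refl (Fin 2))).trans (Fintype.card_fin 2)
      · refine ⟨Or.inr ⟨jk a.1, mu_T hd0 a, ?_⟩, htate _⟩
        have h1 : Fintype.card (Fin (rk r a.1)) = r (jk a.1) := by
          rw [Fintype.card_fin]
          rcases a.1 with j | j <;> rfl
        refine h1.symm.trans ?_
        exact (@Fintype.card_congr (Fin (rk r a.1)) (I (Sum.inr a)) _ (hI (Sum.inr a))
          (Equiv.refl (Fin (rk r a.1))))
    · rw [← hcc]
      exact product_tate (sumRep ρ ρ') χ _ pp cc ψ htate (fun x => rfl)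
    · rw [hval, hx x, MultilinearMap.domDomCongr_apply, sigmaProd_apply, Fintype.prod_sum_type]
      congr 1
      refine Finset.prod_congr rfl fun a _ => ?_
      exact (fD_apply B b a.1 (fun y => CX ⟨a, y⟩) (fun y => κ (pX ⟨a, y⟩))
        (fun y => x (pX ⟨a, y⟩))).symm

/-- the big form with values in `M` -/
def bgM {N : ℕ} (κ : Fin N → J ⊕ J) (d : J → ℤ)
    (f : MultilinearMap k (fun _ : Fin N => (∀ j, V j × V' j)) M) :
    MultilinearMap k (fun _ : Fin N ⊕ (Σ a : (Σ κ, Fin (mu d κ)), Fin (rk r a.1)) =>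
      ((∀ j, V j) × Module.Dual k (∀ j, V j))) M :=
  (TensorProduct.rid k M).toLinearMap.compMultilinearMap (MultilinearMap.domCoprod
    (f.compLinearMap (fun l => em B hB (κ l)))
    (sigmaProd (fun a : (Σ κ, Fin (mu d κ)) => dt b a.1)))

theorem bgM_apply {N : ℕ} (κ : Fin N → J ⊕ J) (d : J → ℤ)
    (f : MultilinearMap k (fun _ : Fin N => (∀ j, V j × V' j)) M)
    (v : Fin N ⊕ (Σ a : (Σ κ, Fin (mu d κ)), Fin (rk r a.1)) →
      ((∀ j, V j) × Module.Dual k (∀ j, V j))) :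
    bgM B hB b κ d f v = (∏ a : (Σ κ, Fin (mu d κ)), dt b a.1 (fun p => v (Sum.inr ⟨a, p⟩))) •
      f (fun l => em B hB (κ l) (v (Sum.inl l))) :=
  TensorProduct.rid_tmul _ _

theorem comp_bgM {N : ℕ} (κ : Fin N → J ⊕ J) (d : J → ℤ)
    (f : MultilinearMap k (fun _ : Fin N => (∀ j, V j × V' j)) M) (l : M →ₗ[k] k)
    (v : Fin N ⊕ (Σ a : (Σ κ, Fin (mu d κ)), Fin (rk r a.1)) →
      ((∀ j, V j) × Module.Dual k (∀ j, V j))) :
    l (bgM B hB b κ d f v) = bg B hB b κ d (l.compMultilinearMap f) v := by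
  rw [bgM_apply, bg_apply, map_smul, smul_eq_mul, mul_comm]
  rfl

theorem comp_bgM' {m N : ℕ} (κ : Fin N → J ⊕ J) (d : J → ℤ)
    (E : Fin m × Fin 2 ≃ Fin N ⊕ (Σ a : (Σ κ, Fin (mu d κ)), Fin (rk r a.1)))
    (f : MultilinearMap k (fun _ : Fin N => (∀ j, V j × V' j)) M) (l : M →ₗ[k] k) :
    l.compMultilinearMap ((bgM B hB b κ d f).domDomCongr E.symm) =
      (bg B hB b κ d (l.compMultilinearMap f)).domDomCongr E.symm := by
  refine MultilinearMap.ext fun v => ?_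
  rw [LinearMap.compMultilinearMap_apply, MultilinearMap.domDomCongr_apply,
    MultilinearMap.domDomCongr_apply, comp_bgM]

include hBρ hdet in
theorem bgM_eqv {N : ℕ} {κ : Fin N → J ⊕ J} {d : J → ℤ}
    {f : MultilinearMap k (fun _ : Fin N => (∀ j, V j × V' j)) M} {Δ : Subgroup Γ}
    (hf : ∀ g ∈ Δ, ∀ x, f (fun i => sumRep ρ ρ' g (x i)) = τ g (f x))
    (hd0 : ∀ j, j ∉ T → d j = 0)
    (hd2 : ∀ j, ∑ l, (if jk (κ l) = j then sk (κ l) else 0) = r j * d j)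
    {g : Γ} (hg : g ∈ Δ) (hg0 : g ∈ Δ₀) (t : J → kˣ) (u : kˣ)
    (v : Fin N ⊕ (Σ a : (Σ κ, Fin (mu d κ)), Fin (rk r a.1)) →
      ((∀ j, V j) × Module.Dual k (∀ j, V j))) :
    bgM B hB b κ d f (fun i => rp (totRep ρ) ((g, t), u) (v i)) =
      sig τ χ J (-∑ l, tw w (κ l) + ∑ a : (Σ κ, Fin (mu d κ)), ek e a.1) ((g, t), u)
        (bgM B hB b κ d f v) := by
  classical
  rw [bgM_apply, bgM_apply, sig_apply]
  have h1 : f (fun l => em B hB (κ l) (rp (totRep ρ) ((g, t), u) (v (Sum.inl l)))) =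
      (∏ l, ((((t (jk (κ l)) * u) ^ sk (κ l) : kˣ) : k) * χ g ^ (-tw w (κ l)))) •
        (τ g (f (fun l => em B hB (κ l) (v (Sum.inl l))))) := by
    rw [← hf g hg, ← MultilinearMap.map_smul_univ]
    congr 1
    funext l
    rw [em_rep ρ ρ' B hB hBρ]
  have h2 : ∏ a : (Σ κ, Fin (mu d κ)),
      dt b a.1 (fun p => rp (totRep ρ) ((g, t), u) (v (Sum.inr ⟨a, p⟩))) =
      (∏ a : (Σ κ, Fin (mu d κ)), ((((t (jk a.1) * u) ^ (sk a.1 * rk r a.1) : kˣ) : k) *
        χ g ^ ek e a.1)) * ∏ a : (Σ κ, Fin (mu d κ)), dt b a.1 (fun p => v (Sum.inr ⟨a, p⟩)) := by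
    rw [← Finset.prod_mul_distrib]
    refine Finset.prod_congr rfl fun a _ => ?_
    rw [dt_rep ρ b a.1 (g, t) u, det_mt ρ b hdet (mu_T hd0 a) hg0]
    ring
  rw [h1, h2, Finset.prod_mul_distrib, Finset.prod_mul_distrib, coe_prod_zpow (chi_ne χ g),
    coe_prod_zpow (chi_ne χ g), Finset.sum_neg_distrib]
  have h3 : (∏ l, (((t (jk (κ l)) * u) ^ sk (κ l) : kˣ) : k)) *
      ∏ a : (Σ κ, Fin (mu d κ)), (((t (jk a.1) * u) ^ (sk a.1 * rk r a.1) : kˣ) : k) = 1 := by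
    rw [← Units.coe_prod, ← Units.coe_prod, ← Units.val_mul,
      prod_by_block κ (fun j => t j * u) (fun l => sk (κ l)),
      prod_by_block (fun a : (Σ κ, Fin (mu d κ)) => a.1) (fun j => t j * u)
        (fun a => sk a.1 * rk r a.1), ← Finset.prod_mul_distrib]
    have h4 : ∀ j, (t j * u) ^ (∑ l, (if jk (κ l) = j then sk (κ l) else 0)) *
        (t j * u) ^ (∑ a : (Σ κ, Fin (mu d κ)),
          (if jk a.1 = j then sk a.1 * (rk r a.1 : ℤ) else 0)) = 1 := by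
      intro j
      rw [← zpow_add, hd2 j, sum_skrk, add_neg_cancel, zpow_zero]
    rw [Finset.prod_congr rfl fun j _ => h4 j, Finset.prod_const_one, Units.val_one]
  rw [map_smul, smul_smul, smul_smul, zpow_add₀ (chi_ne χ g)]
  congr 1
  linear_combination ((∏ a : (Σ κ, Fin (mu d κ)), dt b a.1 (fun p => v (Sum.inr ⟨a, p⟩))) *
    (χ g ^ (-∑ l, tw w (κ l)) * χ g ^ (∑ a : (Σ κ, Fin (mu d κ)), ek e a.1))) * h3

theorem pr_rep (κ : J ⊕ J) (g : Γ) (x : ∀ j, V j × V' j) :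
    pr B hB κ (sumRep ρ ρ' g x) = sumRep ρ ρ' g (pr B hB κ x) := by
  rcases κ with j | j
  · rw [pr_inl, pr_inl, sumRep_single, sumRep_apply]
    simp
  · rw [pr_inr, pr_inr, sumRep_single, sumRep_apply]
    simp

include hBρ hb hα0 hr hrat hdet hΔ₀ hindM in
/-- one component -/
theorem compM_mem [IsAlgClosed k] [FiniteDimensional k M] [∀ j, FiniteDimensional k (V j)]
    [∀ j, FiniteDimensional k (V' j)] {N : ℕ} (κ : Fin N → J ⊕ J)
    {f : MultilinearMap k (fun _ : Fin N => (∀ j, V j × V' j)) M}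
    (hf : IsTateMap (sumRep ρ ρ') τ f) :
    f.compLinearMap (fun l => pr B hB (κ l)) ∈
      Submodule.span k {h | IsProductClass (sumRep ρ ρ') τ χ ({2} ∪ r '' T) h} := by
  classical
  by_cases hne : f.compLinearMap (fun l => em B hB (κ l)) = 0
  · have h1 : f.compLinearMap (fun l => pr B hB (κ l)) = 0 := by
      refine MultilinearMap.ext fun x => ?_
      have h2 := congrArg (fun f => f (fun l => ow B (κ l) (x l))) hne
      exact h2
    rw [h1]
    exact Submodule.zero_mem _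
  · obtain ⟨d, hd0, hd2⟩ := exists_dM ρ ρ' B hB hBρ b hb hα0 hr τ hindM hf hne
    obtain ⟨m, hm⟩ := exists_m (r := r) hd2
    obtain ⟨E⟩ : Nonempty (Fin m × Fin 2 ≃
        Fin N ⊕ (Σ a : (Σ κ, Fin (mu d κ)), Fin (rk r a.1))) := by
      refine ⟨Fintype.equivOfCardEq ?_⟩
      rw [hm, Fintype.card_prod, Fintype.card_fin, Fintype.card_fin]
    obtain ⟨Δ, hΔ, hf'⟩ := hf
    have hT : IsEqv (rp (totRep ρ))
        (sig τ χ J (-∑ l, tw w (κ l) + ∑ a : (Σ κ, Fin (mu d κ)), ek e a.1))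
        ((bgM B hB b κ d f).domDomCongr E.symm) := by
      have := hΔ
      have := hΔ₀
      have hfi : ((Δ ⊓ Δ₀).comap ((MonoidHom.fst Γ (J → kˣ)).comp
          (MonoidHom.fst (Γ × (J → kˣ)) kˣ))).FiniteIndex := by
        refine ⟨?_⟩
        rw [Subgroup.index_comap]
        exact (inferInstance : ((Δ ⊓ Δ₀).subgroupOf ((MonoidHom.fst Γ (J → kˣ)).comp
          (MonoidHom.fst (Γ × (J → kˣ)) kˣ)).range).FiniteIndex).index_ne_zero
      refine ⟨_, hfi, ?_⟩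
      rintro ⟨⟨g, t⟩, u⟩ hg v
      have hg' : g ∈ Δ ⊓ Δ₀ := hg
      obtain ⟨hg1, hg2⟩ := Subgroup.mem_inf.1 hg'
      rw [MultilinearMap.domDomCongr_apply, MultilinearMap.domDomCongr_apply]
      exact bgM_eqv ρ ρ' B hB hBρ b hdet τ hf' hd0 hd2 hg1 hg2 t u (fun i => v (E.symm i))
    let P' : Set (MultilinearMap k (fun _ : Fin N => (∀ j, V j × V' j)) k) :=
      {ψ | IsProductOfTateForms (sumRep ρ ρ') χ ({2} ∪ r '' T) ψ ∧
        IsTateForm (sumRep ρ ρ') χ (∑ l, tw w (κ l) - ∑ a : (Σ κ, Fin (mu d κ)), ek e a.1) ψ}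
    have hspan : ∀ ψ ∈ Submodule.span k (PT (rp (totRep ρ)) 1 m),
        ∃ θ : MultilinearMap k (fun _ : Fin N => (∀ j, V j × V' j)) k,
          θ ∈ Submodule.span k P' ∧ ∀ x, Lm B b κ d E ψ x = θ x := by
      intro ψ hψ
      induction hψ using Submodule.span_induction with
      | mem ψ hψ =>
        obtain ⟨σ, C, hC, rfl⟩ := hψ
        exact Lm_mmG' ρ ρ' B hBρ b hΔ₀ hdet hb hα0 hrat κ hd0 E σ C hC
      | zero => exact ⟨0, Submodule.zero_mem _, fun x => by rw [map_zero]; rfl⟩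
      | add ψ ψ' _ _ h h' =>
        obtain ⟨θ, h1, h2⟩ := h
        obtain ⟨θ', h3, h4⟩ := h'
        refine ⟨θ + θ', Submodule.add_mem _ h1 h3, fun x => ?_⟩
        rw [map_add, Pi.add_apply, h2, h4]
        rfl
      | smul a ψ _ h =>
        obtain ⟨θ, h1, h2⟩ := h
        refine ⟨a • θ, Submodule.smul_mem _ a h1, fun x => ?_⟩
        rw [map_smul, Pi.smul_apply, h2]
        rfl
    have hcard : (Fintype.card (∀ a : (Σ κ, Fin (mu d κ)), Equiv.Perm (Fin (rk r a.1))) : k) ≠ 0 :=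
      Nat.cast_ne_zero.2 Fintype.card_ne_zero
    have hl : ∀ l : M →ₗ[k] k, l.compMultilinearMap (f.compLinearMap (fun l => pr B hB (κ l))) ∈
        Submodule.span k P' := by
      intro l
      have hmem := comp_memN (rp (totRep ρ)) 1
        (sig τ χ J (-∑ l, tw w (κ l) + ∑ a : (Σ κ, Fin (mu d κ)), ek e a.1))
        (eb (Pi.basis b)) swap_swap' swap_ne jb_swap jb_ne om (om_eb (Pi.basis b))
        (fun g u v => om_rp (totRep ρ) g u v)
        (balanced_double (totRep ρ) (α := fun i : Σ j, Fin (r j) => α i.1 i.2) (Pi.basis b)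
          (tot_gamma ρ b hb) (fun _ => hα0 _ _) Sigma.fst (tau k Γ) (tot_tau ρ b) hrat)
        (fun κ' _ _ φ hφ I hI y => balM ρ b hb hα0 hr τ hindM _ φ hφ I hI y) hT l
      obtain ⟨θ, h1, h2⟩ := hspan _ hmem
      rw [comp_bgM' B hB b κ d E f l] at h2
      have h3 : l.compMultilinearMap (f.compLinearMap (fun l => pr B hB (κ l))) =
          (Fintype.card (∀ a : (Σ κ, Fin (mu d κ)), Equiv.Perm (Fin (rk r a.1))) : k)⁻¹ • θ := by
        refine MultilinearMap.ext fun x => ?_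
        rw [MultilinearMap.smul_apply, ← h2 x, Lm_bg B hB, smul_eq_mul,
          inv_mul_cancel_left₀ hcard]
        rfl
      rw [h3]
      exact Submodule.smul_mem _ _ h1
    have hfin := final_abs τ (fun _ : Fin N => sumRep ρ ρ')
      (fun s => χ s ^ (∑ l, tw w (κ l) - ∑ a : (Σ κ, Fin (mu d κ)), ek e a.1)) P'
      (fun g hg => hg.2) (f.compLinearMap (fun l => pr B hB (κ l)))
      ⟨Δ, hΔ, fun s hs v => by
        rw [MultilinearMap.compLinearMap_apply, MultilinearMap.compLinearMap_apply, ← hf' s hs]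
        congr 1
        funext l
        exact pr_rep ρ ρ' B hB (κ l) s (v l)⟩ hl
    refine Submodule.span_mono ?_ hfin
    rintro h ⟨g, hg, u, hu, hh⟩
    exact ⟨g, u, _, hg.1, hg.2, hu, hh⟩

include hBρ hb hα0 hr hrat hdet hΔ₀ hindM hB in
theorem splitM [IsAlgClosed k] [FiniteDimensional k M] [∀ j, FiniteDimensional k (V j)]
    [∀ j, FiniteDimensional k (V' j)] :
    TateClassesSplitIn (sumRep ρ ρ') τ χ ({2} ∪ r '' T) := by
  classical
  intro N f hf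
  have h1 : f = ∑ κ : Fin N → J ⊕ J, f.compLinearMap (fun l => pr B hB (κ l)) := by
    refine MultilinearMap.ext fun x => ?_
    have h2 : (fun l => x l) = fun l => ∑ κ, pr B hB κ (x l) := by
      funext l
      have h3 := congrArg (fun f => f (x l)) (sum_pr B hB)
      simp only [LinearMap.sum_apply, LinearMap.id_apply] at h3
      exact h3.symm
    have h4 := f.map_sum (fun (l : Fin N) (κ : J ⊕ J) => pr B hB κ (x l))
    rw [← h2] at h4
    rw [h4, MultilinearMap.sum_apply]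
    rfl
  rw [h1]
  exact Submodule.sum_mem _ fun κ _ => compM_mem ρ ρ' B hB hBρ b hΔ₀ hdet hb hα0 hr hrat τ hindM κ hf

end

end Pool.Agent.V1141.WT
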