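import Pool.Agent.V1141.WT.PiecesU
import Pool.Agent.V1141.WT.U2

/-!
# Tate classes, Weil classes and arbitrary varieties, from one element: the main theorem
-/

set_option autoImplicit false
set_option linter.unusedSectionVars false

namespace Pool.Agent.V1141.WT

open Module Polynomial Pool.Agent.V1141.OF

theorem split_of {k H M Γ : Type} [Field k] [AddCommGroup H] [Module k H] [AddCommGroup M]
    [Module k M] [Group Γ] {ρ : Representation k Γ H} {τ : Representation k Γ M} {χ : Γ →* k}
    {R : Set ℕ} (h : TateClassesSplitIn ρ τ χ R) : SplitIn (fun g => ρ g) τ χ R := by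
  intro N f hf
  have h1 := h N f hf
  refine Submodule.span_mono ?_ h1
  rintro f' ⟨ψ, u, c, h2, h3, h4, h5⟩
  exact ⟨ψ, u, c, h2, h3, h4, h5⟩

theorem umain {k : Type} [Field k] [CharZero k] [IsAlgClosed k] {Γ : Type} [Group Γ]
    {χ : Γ →* k} {J : Type} [Fintype J] (P : J → Piece k χ) (T : Set J) (e : J → ℤ)
    (hT : WeilClassesAreTate P T e) {M : Type} [AddCommGroup M] [Module k M]
    [FiniteDimensional k M] (τ : Representation k Γ M) (γ : Γ) (α : ∀ j, Fin (dm P j) → k)
    (hα : AreEigenvalues P γ α)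
    (hind : ∀ β, β = 1 ∨ Module.End.HasEigenvalue (τ γ) β →
      OnlyConstantRelations T (χ γ) β α) :
    SplitIn (action P) τ χ ({2} ∪ {n | ∃ j ∈ T, n = dm P j}) := by
  classical
  obtain ⟨Δ₀, hΔ₀, hdet⟩ := hT
  have h0 : ∀ j i, α j i ≠ 0 := by
    intro j i h
    have h1 : Module.End.HasEigenvalue ((P j).ρ γ) 0 := by
      rw [Module.End.hasEigenvalue_iff_isRoot_charpoly, hα j, Polynomial.IsRoot,
        Polynomial.eval_prod]
      refine Finset.prod_eq_zero (Finset.mem_univ i) ?_
      simp [h]
    obtain ⟨v, hv⟩ := h1.exists_hasEigenvector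
    apply hv.2
    have h2 : (P j).ρ γ⁻¹ ((P j).ρ γ v) = v := by
      rw [← Module.End.mul_apply, ← map_mul, inv_mul_cancel, map_one, Module.End.one_apply]
    rw [← h2, hv.apply_eq_smul, zero_smul, map_zero]
  have hinj : ∀ j, Function.Injective (α j) := by
    intro j i i' hii
    by_contra hne
    let m : ∀ j, Fin (dm P j) → ℤ := Pi.single j (Pi.single i 1 - Pi.single i' 1)
    have h1 : ∏ j', ∏ x, α j' x ^ m j' x = 1 ^ 1 * χ γ ^ (0 : ℤ) := by
      rw [zpow_zero, one_pow, mul_one, Finset.prod_eq_single j]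
      · have h2 : ∀ x, α j x ^ m j x =
            α j x ^ ((Pi.single i 1 : Fin (dm P j) → ℤ) x) /
              α j x ^ ((Pi.single i' 1 : Fin (dm P j) → ℤ) x) := by
          intro x
          simp only [m]
          rw [Pi.single_eq_same, Pi.sub_apply, zpow_sub₀ (h0 j x)]
        have h3 : ∀ i : Fin (dm P j),
            ∏ x, α j x ^ ((Pi.single i 1 : Fin (dm P j) → ℤ) x) = α j i := by
          intro i
          rw [Finset.prod_eq_single i]
          · rw [Pi.single_eq_same, zpow_one]
          · intro x _ hx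
            rw [Pi.single_eq_of_ne hx, zpow_zero]
          · intro h
            exact absurd (Finset.mem_univ _) h
        rw [Finset.prod_congr rfl fun x _ => h2 x, Finset.prod_div_distrib, h3, h3, hii,
          div_self (h0 j i')]
      · intro j' _ hj'
        refine Finset.prod_eq_one fun x _ => ?_
        simp only [m]
        rw [Pi.single_eq_of_ne hj', Pi.zero_apply, zpow_zero]
      · intro h
        exact absurd (Finset.mem_univ _) h
    obtain ⟨d, h4, -⟩ := hind 1 (Or.inl rfl) m 0 1 one_pos h1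
    have h5 := (h4 j i).trans (h4 j i').symm
    simp only [m] at h5
    rw [Pi.single_eq_same, Pi.sub_apply, Pi.sub_apply, Pi.single_eq_same, Pi.single_eq_same,
      Pi.single_eq_of_ne hne, Pi.single_eq_of_ne (Ne.symm hne)] at h5
    norm_num at h5
  have hr : ∀ j, 0 < dm P j := fun j => Module.finrank_pos
  have hrat : ∀ m : (Σ j, Fin (dm P j)) → ℤ,
      (∀ j, ∑ i : Σ j, Fin (dm P j), (if i.1 = j then m i else 0) = 0) →
        ∏ i : Σ j, Fin (dm P j), α i.1 i.2 ^ m i = 1 → m = 0 := by
    intro m hm hprod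
    obtain ⟨d, h1, -⟩ := hind 1 (Or.inl rfl) (fun j i => m ⟨j, i⟩) 0 1 one_pos (by
      rw [zpow_zero, one_pow, mul_one, ← hprod, Fintype.prod_sigma])
    have h2 : ∀ j, d j = 0 := by
      intro j
      have h3 := hm j
      rw [sum_block, Finset.sum_congr rfl fun p _ => h1 j p, Finset.sum_const, Finset.card_univ,
        Fintype.card_fin, nsmul_eq_mul] at h3
      rcases mul_eq_zero.1 h3 with h4 | h4
      · exact absurd (by exact_mod_cast h4) (hr j).ne'
      · exact h4
    funext i
    obtain ⟨j, p⟩ := i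
    exact (h1 j p).trans (h2 j)
  choose b hb using fun j => exists_eigen ((P j).ρ γ) (hinj j) (hα j)
  have hfin' : ∀ j, FiniteDimensional k (P j).V' := fun j =>
    (LinearEquiv.ofBijective (P j).B.flip (P j).pairing.1).symm.finiteDimensional
  have key := splitM (χ := χ) (fun j => (P j).ρ) (fun j => (P j).ρ') (fun j => (P j).B)
    (fun j => (P j).pairing.1) (fun j => (P j).pairing.2) b hΔ₀
    (fun g hg j hj => hdet j hj g hg) hb h0 hr hrat τ
    (fun m c n β hn hβ h => hind β (Or.inr hβ) m c n hn h)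
  have hR : ((fun j => dm P j) '' T) = {n | ∃ j ∈ T, n = dm P j} := by
    ext n
    constructor
    · rintro ⟨j, hj, rfl⟩
      exact ⟨j, hj, rfl⟩
    · rintro ⟨j, hj, rfl⟩
      exact ⟨j, hj, rfl⟩
  rw [← hR]
  exact split_of key

end Pool.Agent.V1141.WT
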