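import Pool.Agent.V1141.WT.D5

/-!
# Sums of representations with pairings: the conclusion
-/

set_option autoImplicit false
set_option linter.unusedSectionVars false
set_option linter.unusedVariables false

namespace Pool.Agent.V1141.WT

open Module Pool.Agent.H204R3.SP Pool.Agent.H204R3.GP Pool.Agent.V1141.OF

noncomputable section

variable {k : Type} [Field k] [CharZero k] {Γ : Type} [Group Γ] {χ : Γ →* k}
  {J : Type} [Fintype J] [DecidableEq J] {V V' : J → Type}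
  [∀ j, AddCommGroup (V j)] [∀ j, Module k (V j)] [∀ j, AddCommGroup (V' j)]
  [∀ j, Module k (V' j)]
  (ρ : ∀ j, Representation k Γ (V j)) (ρ' : ∀ j, Representation k Γ (V' j))
  (B : ∀ j, V j →ₗ[k] V' j →ₗ[k] k) (hB : ∀ j, Function.Bijective (B j).flip)
  {w : J → ℤ} (hBρ : ∀ j g v v', B j (ρ j g v) (ρ' j g v') = χ g ^ w j * B j v v')
  {r : J → ℕ} (b : ∀ j, Basis (Fin (r j)) k (V j))
  {T : Set J} {e : J → ℤ} {Δ₀ : Subgroup Γ} (hΔ₀ : Δ₀.FiniteIndex)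
  (hdet : ∀ g ∈ Δ₀, ∀ j ∈ T, LinearMap.det (ρ j g) = χ g ^ e j)
  {γ : Γ} {α : ∀ j, Fin (r j) → k} (hb : ∀ j i, ρ j γ (b j i) = α j i • b j i)
  (hα0 : ∀ j i, α j i ≠ 0) (hr : ∀ j, 0 < r j)
  (hind : ∀ (m : ∀ j, Fin (r j) → ℤ) (c : ℤ), ∏ j, ∏ i, α j i ^ m j i = χ γ ^ c →
    ∃ d : J → ℤ, (∀ j i, m j i = d j) ∧ (∀ j, j ∉ T → d j = 0) ∧ c = ∑ j, d j * e j)

/-- the big form -/
def bg {N : ℕ} (κ : Fin N → J ⊕ J) (d : J → ℤ)
    (φ : MultilinearMap k (fun _ : Fin N => (∀ j, V j × V' j)) k) :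
    MultilinearMap k (fun _ : Fin N ⊕ (Σ a : (Σ κ, Fin (mu d κ)), Fin (rk r a.1)) =>
      ((∀ j, V j) × Module.Dual k (∀ j, V j))) k :=
  (LinearMap.mul' k k).compMultilinearMap (MultilinearMap.domCoprod
    (φ.compLinearMap (fun l => em B hB (κ l)))
    (sigmaProd (fun a : (Σ κ, Fin (mu d κ)) => dt b a.1)))

theorem bg_apply {N : ℕ} (κ : Fin N → J ⊕ J) (d : J → ℤ)
    (φ : MultilinearMap k (fun _ : Fin N => (∀ j, V j × V' j)) k)
    (v : Fin N ⊕ (Σ a : (Σ κ, Fin (mu d κ)), Fin (rk r a.1)) →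
      ((∀ j, V j) × Module.Dual k (∀ j, V j))) :
    bg B hB b κ d φ v = φ (fun l => em B hB (κ l) (v (Sum.inl l))) *
      ∏ a : (Σ κ, Fin (mu d κ)), dt b a.1 (fun p => v (Sum.inr ⟨a, p⟩)) := rfl

theorem prod_by_block {X G : Type} [Fintype X] [CommGroup G] (κ : X → J ⊕ J) (t : J → G)
    (f : X → ℤ) : ∏ l, t (jk (κ l)) ^ f l =
      ∏ j, t j ^ ∑ l, (if jk (κ l) = j then f l else 0) := by
  have h1 : ∀ j, t j ^ ∑ l, (if jk (κ l) = j then f l else 0) =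
      ∏ l, t j ^ (if jk (κ l) = j then f l else 0) := fun j => (prod_zpow_sum _ _ _).symm
  rw [Finset.prod_congr rfl fun j _ => h1 j, Finset.prod_comm]
  refine Finset.prod_congr rfl fun l _ => ?_
  rw [Finset.prod_eq_single (jk (κ l))]
  · rw [if_pos rfl]
  · intro j _ h
    rw [if_neg (Ne.symm h), zpow_zero]
  · intro h
    exact absurd (Finset.mem_univ _) h

include hBρ hdet in
theorem bg_tate {N : ℕ} {κ : Fin N → J ⊕ J} {c : ℤ} {d : J → ℤ}
    {φ : MultilinearMap k (fun _ : Fin N => (∀ j, V j × V' j)) k} {Δ : Subgroup Γ}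
    (hφ : ∀ g ∈ Δ, ∀ x, φ (fun i => sumRep ρ ρ' g (x i)) = χ g ^ c * φ x)
    (hd0 : ∀ j, j ∉ T → d j = 0) (hd1 : c - ∑ l, tw w (κ l) = ∑ j, d j * e j)
    (hd2 : ∀ j, ∑ l, (if jk (κ l) = j then sk (κ l) else 0) = r j * d j)
    {g : Γ} (hg : g ∈ Δ) (hg0 : g ∈ Δ₀) (t : J → kˣ) (u : kˣ)
    (v : Fin N ⊕ (Σ a : (Σ κ, Fin (mu d κ)), Fin (rk r a.1)) →
      ((∀ j, V j) × Module.Dual k (∀ j, V j))) :
    bg B hB b κ d φ (fun i => rp (totRep ρ) ((g, t), u) (v i)) = bg B hB b κ d φ v := by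
  classical
  rw [bg_apply, bg_apply]
  have h1 : φ (fun l => em B hB (κ l) (rp (totRep ρ) ((g, t), u) (v (Sum.inl l)))) =
      (∏ l, ((((t (jk (κ l)) * u) ^ sk (κ l) : kˣ) : k) * χ g ^ (-tw w (κ l)))) *
        (χ g ^ c * φ (fun l => em B hB (κ l) (v (Sum.inl l)))) := by
    rw [← hφ g hg, ← smul_eq_mul (∏ l, ((((t (jk (κ l)) * u) ^ sk (κ l) : kˣ) : k) *
      χ g ^ (-tw w (κ l)))), ← MultilinearMap.map_smul_univ]
    congr 1
    funext l
    rw [em_rep ρ ρ' B hB hBρ]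
  have h2 : ∏ a : (Σ κ, Fin (mu d κ)),
      dt b a.1 (fun p => rp (totRep ρ) ((g, t), u) (v (Sum.inr ⟨a, p⟩))) =
      (∏ a : (Σ κ, Fin (mu d κ)), ((((t (jk a.1) * u) ^ (sk a.1 * rk r a.1) : kˣ) : k) *
        χ g ^ ek e a.1)) * ∏ a : (Σ κ, Fin (mu d κ)), dt b a.1 (fun p => v (Sum.inr ⟨a, p⟩)) := by
    rw [← Finset.prod_mul_distrib]
    refine Finset.prod_congr rfl fun a _ => ?_
    rw [dt_rep ρ b a.1 (g, t) u, det_mt ρ b hdet (mu_T hd0 a) hg0]
    ring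
  rw [h1, h2, Finset.prod_mul_distrib, Finset.prod_mul_distrib, coe_prod_zpow (chi_ne χ g),
    coe_prod_zpow (chi_ne χ g), sum_ek, Finset.sum_neg_distrib, ← hd1]
  have h3 : (∏ l, (((t (jk (κ l)) * u) ^ sk (κ l) : kˣ) : k)) *
      ∏ a : (Σ κ, Fin (mu d κ)), (((t (jk a.1) * u) ^ (sk a.1 * rk r a.1) : kˣ) : k) = 1 := by
    rw [← Units.coe_prod, ← Units.coe_prod, ← Units.val_mul,
      prod_by_block κ (fun j => t j * u) (fun l => sk (κ l)),
      prod_by_block (fun a : (Σ κ, Fin (mu d κ)) => a.1) (fun j => t j * u)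
        (fun a => sk a.1 * rk r a.1), ← Finset.prod_mul_distrib]
    have h4 : ∀ j, (t j * u) ^ (∑ l, (if jk (κ l) = j then sk (κ l) else 0)) *
        (t j * u) ^ (∑ a : (Σ κ, Fin (mu d κ)),
          (if jk a.1 = j then sk a.1 * (rk r a.1 : ℤ) else 0)) = 1 := by
      intro j
      rw [← zpow_add, hd2 j, sum_skrk, add_neg_cancel, zpow_zero]
    rw [Finset.prod_congr rfl fun j _ => h4 j, Finset.prod_const_one, Units.val_one]
  have h5 : χ g ^ (-∑ l, tw w (κ l)) * χ g ^ c * χ g ^ (-(c - ∑ l, tw w (κ l))) = 1 := by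
    rw [← zpow_add₀ (chi_ne χ g), ← zpow_add₀ (chi_ne χ g),
      show (-∑ l, tw w (κ l) + c + -(c - ∑ l, tw w (κ l))) = 0 by ring, zpow_zero]
  linear_combination (φ (fun l => em B hB (κ l) (v (Sum.inl l))) *
    ∏ a : (Σ κ, Fin (mu d κ)), dt b a.1 (fun p => v (Sum.inr ⟨a, p⟩))) *
    (χ g ^ (-∑ l, tw w (κ l)) * χ g ^ c * χ g ^ (-(c - ∑ l, tw w (κ l)))) * h3 +
    (φ (fun l => em B hB (κ l) (v (Sum.inl l))) *
    ∏ a : (Σ κ, Fin (mu d κ)), dt b a.1 (fun p => v (Sum.inr ⟨a, p⟩))) * h5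

/-- antisymmetrization and evaluation -/
def Lm {m N : ℕ} (κ : Fin N → J ⊕ J) (d : J → ℤ)
    (E : Fin m × Fin 2 ≃ Fin N ⊕ (Σ a : (Σ κ, Fin (mu d κ)), Fin (rk r a.1))) :
    MultilinearMap k (fun _ : Fin m × Fin 2 => ((∀ j, V j) × Module.Dual k (∀ j, V j))) k →ₗ[k]
      ((Fin N → (∀ j, V j × V' j)) → k) where
  toFun ψ x := ∑ π : ∀ a : (Σ κ, Fin (mu d κ)), Equiv.Perm (Fin (rk r a.1)),
    (∏ a, ((Equiv.Perm.sign (π a) : ℤ) : k)) * ψ (fun q => vl E (fun l => ow B (κ l))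
      (fun a p => eb (Pi.basis b) (iy a.1 p)) x π q)
  map_add' ψ ψ' := by
    funext x
    simp only [MultilinearMap.add_apply, mul_add, Finset.sum_add_distrib, Pi.add_apply]
  map_smul' c ψ := by
    funext x
    simp only [MultilinearMap.smul_apply, smul_eq_mul, RingHom.id_apply, Pi.smul_apply,
      Finset.mul_sum]
    refine Finset.sum_congr rfl fun π _ => ?_
    ring

theorem Lm_apply {m N : ℕ} (κ : Fin N → J ⊕ J) (d : J → ℤ)
    (E : Fin m × Fin 2 ≃ Fin N ⊕ (Σ a : (Σ κ, Fin (mu d κ)), Fin (rk r a.1)))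
    (ψ : MultilinearMap k (fun _ : Fin m × Fin 2 => ((∀ j, V j) × Module.Dual k (∀ j, V j))) k)
    (x : Fin N → (∀ j, V j × V' j)) : Lm B b κ d E ψ x =
      ∑ π : ∀ a : (Σ κ, Fin (mu d κ)), Equiv.Perm (Fin (rk r a.1)),
        (∏ a, ((Equiv.Perm.sign (π a) : ℤ) : k)) * ψ (fun q => vl E (fun l => ow B (κ l))
          (fun a p => eb (Pi.basis b) (iy a.1 p)) x π q) := rfl

theorem Lm_bg {m N : ℕ} (κ : Fin N → J ⊕ J) (d : J → ℤ)
    (E : Fin m × Fin 2 ≃ Fin N ⊕ (Σ a : (Σ κ, Fin (mu d κ)), Fin (rk r a.1)))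
    (φ : MultilinearMap k (fun _ : Fin N => (∀ j, V j × V' j)) k)
    (x : Fin N → (∀ j, V j × V' j)) :
    Lm B b κ d E ((bg B hB b κ d φ).domDomCongr E.symm) x =
      (Fintype.card (∀ a : (Σ κ, Fin (mu d κ)), Equiv.Perm (Fin (rk r a.1))) : k) *
        φ (fun l => pr B hB (κ l) (x l)) := by
  rw [Lm_apply]
  have h1 : ∀ π : ∀ a : (Σ κ, Fin (mu d κ)), Equiv.Perm (Fin (rk r a.1)),
      (∏ a, ((Equiv.Perm.sign (π a) : ℤ) : k)) * ((bg B hB b κ d φ).domDomCongr E.symm)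
        (fun q => vl E (fun l => ow B (κ l)) (fun a p => eb (Pi.basis b) (iy a.1 p)) x π q) =
      φ (fun l => pr B hB (κ l) (x l)) := by
    intro π
    rw [MultilinearMap.domDomCongr_apply, bg_apply]
    have h2 : (fun l => em B hB (κ l) (vl E (fun l => ow B (κ l))
        (fun (a : (Σ κ, Fin (mu d κ))) p => eb (Pi.basis b) (iy a.1 p)) x π
        (E.symm (Sum.inl l)))) = fun l => pr B hB (κ l) (x l) := by
      funext l
      rw [vl_symm_inl]
      rfl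
    have h3 : ∀ (a : (Σ κ, Fin (mu d κ))), dt b a.1 (fun p => vl E (fun l => ow B (κ l))
        (fun (a : (Σ κ, Fin (mu d κ))) p => eb (Pi.basis b) (iy a.1 p)) x π
        (E.symm (Sum.inr ⟨a, p⟩))) = ((Equiv.Perm.sign (π a) : ℤ) : k) := by
      intro a
      rw [← dt_perm b a.1 (π a)]
      congr 1
      funext p
      rw [vl_symm_inr]
    rw [h2, Finset.prod_congr rfl fun a _ => h3 a]
    rw [mul_comm, mul_assoc, ← Finset.prod_mul_distrib]
    have h4 : ∀ a : (Σ κ, Fin (mu d κ)), ((Equiv.Perm.sign (π a) : ℤ) : k) *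
        ((Equiv.Perm.sign (π a) : ℤ) : k) = 1 := by
      intro a
      rcases Int.units_eq_one_or (Equiv.Perm.sign (π a)) with h | h <;> rw [h] <;> simp
    rw [Finset.prod_congr rfl fun a _ => h4 a, Finset.prod_const_one, mul_one]
  rw [Finset.sum_congr rfl fun π _ => h1 π, Finset.sum_const, Finset.card_univ, nsmul_eq_mul]

theorem isTate2_flip {C : ((∀ j, V j) × Module.Dual k (∀ j, V j)) →ₗ[k]
    ((∀ j, V j) × Module.Dual k (∀ j, V j)) →ₗ[k] k} (hC : IsTate2 (rp (totRep ρ)) 1 C) :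
    IsTate2 (rp (totRep ρ)) 1 C.flip := by
  obtain ⟨Δ, hΔ, h⟩ := hC
  exact ⟨Δ, hΔ, fun s hs u v => h s hs v u⟩

include hBρ hb hα0 hr hind hdet hΔ₀ in
theorem Lm_mmG {m N : ℕ} (κ : Fin N → J ⊕ J) {d : J → ℤ} (hd0 : ∀ j, j ∉ T → d j = 0)
    (E : Fin m × Fin 2 ≃ Fin N ⊕ (Σ a : (Σ κ, Fin (mu d κ)), Fin (rk r a.1)))
    (σ : Equiv.Perm (Fin m × Fin 2)) (C : Fin m → (((∀ j, V j) × Module.Dual k (∀ j, V j)) →ₗ[k]
      ((∀ j, V j) × Module.Dual k (∀ j, V j)) →ₗ[k] k))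
    (hC : ∀ s, IsTate2 (rp (totRep ρ)) 1 (C s)) :
    ∃ θ : MultilinearMap k (fun _ : Fin N => (∀ j, V j × V' j)) k,
      θ ∈ Submodule.span k {ψ | IsProductOfTateForms (sumRep ρ ρ') χ ({2} ∪ r '' T) ψ} ∧
        ∀ x, Lm B b κ d E (mmG σ C) x = θ x := by
  classical
  have hvan : ∀ C', IsTate2 (rp (totRep ρ)) 1 C' → ∀ (a : (Σ κ, Fin (mu d κ)))
      (p : Fin (rk r a.1)) (a' : (Σ κ, Fin (mu d κ))) (p' : Fin (rk r a'.1)),
      C' (eb (Pi.basis b) (iy a.1 p)) (eb (Pi.basis b) (iy a'.1 p')) = 0 := by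
    intro C' hC' a p a' p'
    refine big_van ρ b hb hα0 hr hind hC' ?_
    rw [kd_iy, kd_iy]
    exact mu_swap a a'
  have key := recover (σ.trans E) (fun l => ow B (κ l))
    (fun (a : (Σ κ, Fin (mu d κ))) p => eb (Pi.basis b) (iy a.1 p))
    (fun C' => IsTate2 (rp (totRep ρ)) 1 C') (fun C' h => isTate2_flip ρ h) hvan C hC
  have hval : ∀ (x : Fin N → (∀ j, V j × V' j)), Lm B b κ d E (mmG σ C) x =
      ∑ π : ∀ a : (Σ κ, Fin (mu d κ)), Equiv.Perm (Fin (rk r a.1)),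
        (∏ a, ((Equiv.Perm.sign (π a) : ℤ) : k)) * ∏ s, C s
          (vl (σ.trans E) (fun l => ow B (κ l)) (fun a p => eb (Pi.basis b) (iy a.1 p)) x π (s, 0))
          (vl (σ.trans E) (fun l => ow B (κ l)) (fun a p => eb (Pi.basis b) (iy a.1 p)) x π (s, 1)) :=
    fun x => rfl
  rcases key with h0 | ⟨S, hS, p2, pX, C2, CX, hbij, hC2, hCX, hx⟩
  · refine ⟨0, Submodule.zero_mem _, fun x => ?_⟩
    rw [hval, h0 x]
    rfl
  · let I : S ⊕ (Σ κ, Fin (mu d κ)) → Type := Sum.elim (fun _ => Fin 2) (fun a => Fin (rk r a.1))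
    have hI : ∀ t, Fintype (I t) := by
      rintro (s | a)
      · exact (inferInstance : Fintype (Fin 2))
      · exact (inferInstance : Fintype (Fin (rk r a.1)))
    let pp : (Σ t, I t) ≃ Fin N := (Equiv.sumSigmaDistrib I).trans
      ((Equiv.sumCongr (Equiv.sigmaEquivProd S (Fin 2)) (Equiv.refl _)).trans
        (Equiv.ofBijective (Sum.elim p2 pX) hbij))
    let ψ : ∀ t, MultilinearMap k (fun _ : I t => (∀ j, V j × V' j)) k := fun t =>
      match t with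
      | Sum.inl s => f2 B (C2 s) (κ (p2 (s, 0))) (κ (p2 (s, 1)))
      | Sum.inr a => fD B b a.1 (fun y => CX ⟨a, y⟩) (fun y => κ (pX ⟨a, y⟩))
    let cc : S ⊕ (Σ κ, Fin (mu d κ)) → ℤ := Sum.elim
      (fun s => tw w (κ (p2 (s, 0))) + tw w (κ (p2 (s, 1))))
      (fun a => ∑ y, tw w (κ (pX ⟨a, y⟩)) - ek e a.1)
    refine ⟨(sigmaProd ψ).domDomCongr pp, Submodule.subset_span
      ⟨S ⊕ (Σ κ, Fin (mu d κ)), inferInstance, I, hI, pp, cc, ψ, ?_, fun x => rfl⟩, fun x => ?_⟩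
    · rintro (s | a)
      · refine ⟨Or.inl ?_, f2_tate ρ ρ' B hBρ (hC2 s) _ _⟩
        rw [Set.mem_singleton_iff]
        exact (@Fintype.card_congr (I (Sum.inl s)) (Fin 2) (hI (Sum.inl s)) _
          (Equiv.refl (Fin 2))).trans (Fintype.card_fin 2)
      · refine ⟨Or.inr ⟨jk a.1, mu_T hd0 a, ?_⟩, fD_tate ρ ρ' B hBρ b hΔ₀ hdet (mu_T hd0 a)
          (fun y => hCX ⟨a, y⟩) _⟩
        have h1 : Fintype.card (Fin (rk r a.1)) = r (jk a.1) := by
          rw [Fintype.card_fin]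
          rcases a.1 with j | j <;> rfl
        refine h1.symm.trans ?_
        exact (@Fintype.card_congr (Fin (rk r a.1)) (I (Sum.inr a)) _ (hI (Sum.inr a))
          (Equiv.refl (Fin (rk r a.1))))
    · rw [hval, hx x, MultilinearMap.domDomCongr_apply, sigmaProd_apply, Fintype.prod_sum_type]
      congr 1
      refine Finset.prod_congr rfl fun a _ => ?_
      exact (fD_apply B b a.1 (fun y => CX ⟨a, y⟩) (fun y => κ (pX ⟨a, y⟩))
        (fun y => x (pX ⟨a, y⟩))).symm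

include hBρ hb hα0 hr hind hdet hΔ₀ in
/-- one component -/
theorem comp_mem {N : ℕ} (κ : Fin N → J ⊕ J) {c : ℤ}
    {φ : MultilinearMap k (fun _ : Fin N => (∀ j, V j × V' j)) k}
    (hφ : IsTateForm (sumRep ρ ρ') χ c φ) :
    φ.compLinearMap (fun l => pr B hB (κ l)) ∈
      Submodule.span k {ψ | IsProductOfTateForms (sumRep ρ ρ') χ ({2} ∪ r '' T) ψ} := by
  classical
  by_cases hne : φ.compLinearMap (fun l => em B hB (κ l)) = 0
  · have h1 : φ.compLinearMap (fun l => pr B hB (κ l)) = 0 := by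
      refine MultilinearMap.ext fun x => ?_
      have h2 := congrArg (fun f => f (fun l => ow B (κ l) (x l))) hne
      exact h2
    rw [h1]
    exact Submodule.zero_mem _
  · obtain ⟨d, hd0, hd1, hd2⟩ := exists_d ρ ρ' B hB hBρ b hb hα0 hr hind hφ hne
    obtain ⟨m, hm⟩ := exists_m (r := r) hd2
    obtain ⟨E⟩ : Nonempty (Fin m × Fin 2 ≃
        Fin N ⊕ (Σ a : (Σ κ, Fin (mu d κ)), Fin (rk r a.1))) := by
      refine ⟨Fintype.equivOfCardEq ?_⟩
      rw [hm, Fintype.card_prod, Fintype.card_fin, Fintype.card_fin]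
    obtain ⟨Δ, hΔ, hφ'⟩ := hφ
    have hT : IsTate (rp (totRep ρ)) 1 m ((bg B hB b κ d φ).domDomCongr E.symm) := by
      have := hΔ
      have := hΔ₀
      have hfi : ((Δ ⊓ Δ₀).comap ((MonoidHom.fst Γ (J → kˣ)).comp
          (MonoidHom.fst (Γ × (J → kˣ)) kˣ))).FiniteIndex := by
        refine ⟨?_⟩
        rw [Subgroup.index_comap]
        exact (inferInstance : ((Δ ⊓ Δ₀).subgroupOf ((MonoidHom.fst Γ (J → kˣ)).comp
          (MonoidHom.fst (Γ × (J → kˣ)) kˣ)).range).FiniteIndex).index_ne_zero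
      refine ⟨_, hfi, ?_⟩
      rintro ⟨⟨g, t⟩, u⟩ hg v
      have hg' : g ∈ Δ ⊓ Δ₀ := hg
      obtain ⟨hg1, hg2⟩ := Subgroup.mem_inf.1 hg'
      rw [MonoidHom.one_apply, one_pow, one_mul, MultilinearMap.domDomCongr_apply,
        MultilinearMap.domDomCongr_apply]
      exact bg_tate ρ ρ' B hB hBρ b hdet hφ' hd0 hd1 hd2 hg1 hg2 t u (fun i => v (E.symm i))
    have hmem := big_mem ρ b hb hα0 hr hind _ hT
    have hspan : ∀ ψ ∈ Submodule.span k (PT (rp (totRep ρ)) 1 m),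
        ∃ θ : MultilinearMap k (fun _ : Fin N => (∀ j, V j × V' j)) k,
          θ ∈ Submodule.span k {ψ | IsProductOfTateForms (sumRep ρ ρ') χ ({2} ∪ r '' T) ψ} ∧
            ∀ x, Lm B b κ d E ψ x = θ x := by
      intro ψ hψ
      induction hψ using Submodule.span_induction with
      | mem ψ hψ =>
        obtain ⟨σ, C, hC, rfl⟩ := hψ
        exact Lm_mmG ρ ρ' B hBρ b hΔ₀ hdet hb hα0 hr hind κ hd0 E σ C hC
      | zero => exact ⟨0, Submodule.zero_mem _, fun x => by rw [map_zero]; rfl⟩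
      | add ψ ψ' _ _ h h' =>
        obtain ⟨θ, h1, h2⟩ := h
        obtain ⟨θ', h3, h4⟩ := h'
        refine ⟨θ + θ', Submodule.add_mem _ h1 h3, fun x => ?_⟩
        rw [map_add, Pi.add_apply, h2, h4, MultilinearMap.add_apply]
      | smul a ψ _ h =>
        obtain ⟨θ, h1, h2⟩ := h
        refine ⟨a • θ, Submodule.smul_mem _ a h1, fun x => ?_⟩
        rw [map_smul, Pi.smul_apply, h2, MultilinearMap.smul_apply]
    obtain ⟨θ, h1, h2⟩ := hspan _ hmem
    have hcard : (Fintype.card (∀ a : (Σ κ, Fin (mu d κ)), Equiv.Perm (Fin (rk r a.1))) : k) ≠ 0 :=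
      Nat.cast_ne_zero.2 Fintype.card_ne_zero
    have h3 : φ.compLinearMap (fun l => pr B hB (κ l)) =
        (Fintype.card (∀ a : (Σ κ, Fin (mu d κ)), Equiv.Perm (Fin (rk r a.1))) : k)⁻¹ • θ := by
      refine MultilinearMap.ext fun x => ?_
      rw [MultilinearMap.smul_apply, ← h2 x, Lm_bg B hB, smul_eq_mul, inv_mul_cancel_left₀ hcard]
      rfl
    rw [h3]
    exact Submodule.smul_mem _ _ h1

include hBρ hb hα0 hr hind hdet hΔ₀ hB in
/-- **Tate forms are generated by those of degree two and by those of determinant type.** -/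
theorem generated : TateFormsGeneratedIn (sumRep ρ ρ') χ ({2} ∪ r '' T) := by
  classical
  intro N c φ hφ
  have h1 : φ = ∑ κ : Fin N → J ⊕ J, φ.compLinearMap (fun l => pr B hB (κ l)) := by
    refine MultilinearMap.ext fun x => ?_
    have h2 : (fun l => x l) = fun l => ∑ κ, pr B hB κ (x l) := by
      funext l
      have h3 := congrArg (fun f => f (x l)) (sum_pr B hB)
      simp only [LinearMap.sum_apply, LinearMap.id_apply] at h3
      exact h3.symm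
    have h4 := φ.map_sum (fun (l : Fin N) (κ : J ⊕ J) => pr B hB κ (x l))
    rw [← h2] at h4
    rw [h4, MultilinearMap.sum_apply]
    rfl
  rw [h1]
  exact Submodule.sum_mem _ fun κ _ => comp_mem ρ ρ' B hB hBρ b hΔ₀ hdet hb hα0 hr hind κ hφ

end

end Pool.Agent.V1141.WT
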