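import Pool.Agent.V1141.WT.U2

/-!
# Restriction from a group `G` to `Γ`: bilinear Tate forms on the double
-/

set_option autoImplicit false
set_option linter.unusedSectionVars false
set_option linter.unusedVariables false

namespace Pool.Agent.V1141.WT

open Module Pool.Agent.H204R3.SP Pool.Agent.H204R3.GP Pool.Agent.V1141.OF
open Pool.Agent.Y137.MV (IsEqv)

/-- The endomorphisms of `V` which commute with a subgroup of finite index of `Γ` commute with a
subgroup of finite index of `G`. -/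
def EndosAreMotivic {k : Type} [Field k] {Γ G : Type} [Group Γ] [Group G] (ι : Γ →* G) {V : Type}
    [AddCommGroup V] [Module k V] (ρ : Representation k G V) : Prop :=
  ∀ P : Module.End k V,
    (∃ Δ : Subgroup Γ, Δ.FiniteIndex ∧ ∀ g ∈ Δ, ∀ v, P (ρ (ι g) v) = ρ (ι g) (P v)) →
      ∃ Δ : Subgroup G, Δ.FiniteIndex ∧ ∀ g ∈ Δ, ∀ v, P (ρ g v) = ρ g (P v)

noncomputable section

variable {k : Type} [Field k] [CharZero k] {Γ G : Type} [Group Γ] [Group G] (ι : Γ →* G)
  {J : Type} [Fintype J] [DecidableEq J] {V : J → Type}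
  [∀ j, AddCommGroup (V j)] [∀ j, Module k (V j)]
  (ρ : ∀ j, Representation k G (V j)) {r : J → ℕ} (b : ∀ j, Basis (Fin (r j)) k (V j))

/-- the restrictions to `Γ` -/
abbrev resR : ∀ j, Representation k Γ (V j) := fun j => (ρ j).comp ι

/-- diagonal endomorphisms -/
def dgn (c : (Σ j, Fin (r j)) → k) (j : J) : Module.End k (V j) :=
  (b j).constr k (fun p => c ⟨j, p⟩ • b j p)

theorem dgn_basis (c : (Σ j, Fin (r j)) → k) (j : J) (p : Fin (r j)) :
    dgn b c j (b j p) = c ⟨j, p⟩ • b j p := by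
  unfold dgn
  rw [Basis.constr_basis]

/-- their sum -/
def DGN (c : (Σ j, Fin (r j)) → k) : Module.End k (∀ j, V j) :=
  LinearMap.pi fun j => dgn b c j ∘ₗ LinearMap.proj j

theorem DGN_apply (c : (Σ j, Fin (r j)) → k) (x : ∀ j, V j) (j : J) :
    DGN b c x j = dgn b c j (x j) := rfl

theorem DGN_basis (c : (Σ j, Fin (r j)) → k) (i : Σ j, Fin (r j)) :
    DGN b c (Pi.basis b i) = c i • Pi.basis b i := by
  obtain ⟨j, p⟩ := i
  rw [Pi.basis_apply]
  funext j'
  rw [DGN_apply, Pi.smul_apply]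
  by_cases h : j' = j
  · subst h
    rw [Pi.single_eq_same]
    exact dgn_basis b c j' p
  · rw [Pi.single_eq_of_ne h, map_zero, smul_zero]

/-- the bilinear form of two endomorphisms -/
def bil (P Q : Module.End k (∀ j, V j)) : ((∀ j, V j) × Module.Dual k (∀ j, V j)) →ₗ[k]
    ((∀ j, V j) × Module.Dual k (∀ j, V j)) →ₗ[k] k :=
  LinearMap.mk₂ k (fun u v => v.2 (P u.1) + u.2 (Q v.1))
    (fun u u' v => by
      rw [Prod.fst_add, Prod.snd_add, map_add, map_add, LinearMap.add_apply]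
      ring)
    (fun c u v => by
      rw [Prod.smul_fst, Prod.smul_snd, map_smul, map_smul, LinearMap.smul_apply, smul_eq_mul,
        smul_eq_mul, smul_eq_mul]
      ring)
    (fun u v v' => by
      rw [Prod.fst_add, Prod.snd_add, map_add, map_add, LinearMap.add_apply]
      ring)
    (fun c u v => by
      rw [Prod.smul_fst, Prod.smul_snd, map_smul, map_smul, LinearMap.smul_apply, smul_eq_mul,
        smul_eq_mul, smul_eq_mul]
      ring)

theorem bil_apply (P Q : Module.End k (∀ j, V j)) (u v : (∀ j, V j) × Module.Dual k (∀ j, V j)) :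
    bil P Q u v = v.2 (P u.1) + u.2 (Q v.1) := rfl

theorem form_eq {C : ((∀ j, V j) × Module.Dual k (∀ j, V j)) →ₗ[k]
    ((∀ j, V j) × Module.Dual k (∀ j, V j)) →ₗ[k] k}
    (hdiag : ∀ x y, y ≠ Sum.swap x → C (eb (Pi.basis b) x) (eb (Pi.basis b) y) = 0) :
    C = bil (DGN b fun i => C (eb (Pi.basis b) (Sum.inl i)) (eb (Pi.basis b) (Sum.inr i)))
      (DGN b fun i => C (eb (Pi.basis b) (Sum.inr i)) (eb (Pi.basis b) (Sum.inl i))) := by
  refine (eb (Pi.basis b)).ext fun x => (eb (Pi.basis b)).ext fun y => ?_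
  rw [bil_apply]
  rcases x with i | i <;> rcases y with j | j
  · rw [hdiag _ _ (by simp), eb_inl, eb_inl]
    simp
  · rw [eb_inl, eb_inr, DGN_basis]
    change _ = (Pi.basis b).coord j (_ • Pi.basis b i) + (0 : Module.Dual k (∀ j, V j)) _
    rw [map_smul, LinearMap.zero_apply, add_zero, Basis.coord_apply, Basis.repr_self]
    by_cases h : j = i
    · subst h
      rw [Finsupp.single_eq_same, smul_eq_mul, mul_one, eb_inl, eb_inr]
    · rw [Finsupp.single_eq_of_ne h, smul_zero]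
      have h1 := hdiag (Sum.inl i) (Sum.inr j) (by
        rw [Sum.swap_inl]
        exact fun h' => h (Sum.inr_injective h'))
      rwa [eb_inl, eb_inr] at h1
  · rw [eb_inl, eb_inr, DGN_basis]
    change _ = (0 : Module.Dual k (∀ j, V j)) _ + (Pi.basis b).coord i (_ • Pi.basis b j)
    rw [map_smul, LinearMap.zero_apply, zero_add, Basis.coord_apply, Basis.repr_self]
    by_cases h : j = i
    · subst h
      rw [Finsupp.single_eq_same, smul_eq_mul, mul_one, eb_inl, eb_inr]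
    · rw [Finsupp.single_eq_of_ne (Ne.symm h), smul_zero]
      have h1 := hdiag (Sum.inr i) (Sum.inl j) (by
        rw [Sum.swap_inr]
        exact fun h' => h (Sum.inl_injective h'))
      rwa [eb_inl, eb_inr] at h1
  · rw [hdiag _ _ (by simp), eb_inr, eb_inr]
    simp

theorem inv_mul_rep {G' W : Type} [Group G'] [AddCommGroup W] [Module k W]
    (σ : Representation k G' W) (g : G') (x : W) : σ g⁻¹ (σ g x) = x := by
  rw [← Module.End.mul_apply, ← map_mul, inv_mul_cancel, map_one, Module.End.one_apply]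

theorem mul_inv_rep {G' W : Type} [Group G'] [AddCommGroup W] [Module k W]
    (σ : Representation k G' W) (g : G') (x : W) : σ g (σ g⁻¹ x) = x := by
  rw [← Module.End.mul_apply, ← map_mul, mul_inv_cancel, map_one, Module.End.one_apply]

theorem dual_sep {W : Type} [AddCommGroup W] [Module k W] {x y : W}
    (h : ∀ φ : Module.Dual k W, φ x = φ y) : x = y := by
  rw [← sub_eq_zero, ← Module.forall_dual_apply_eq_zero_iff k]
  intro φ
  rw [map_sub, h, sub_self]

/-- Bilinear Tate forms for `Γ` on the double are Tate forms for `G`. -/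
theorem lift2 (hE : ∀ j, EndosAreMotivic ι (ρ j)) {C : ((∀ j, V j) × Module.Dual k (∀ j, V j)) →ₗ[k]
    ((∀ j, V j) × Module.Dual k (∀ j, V j)) →ₗ[k] k}
    (hC : IsTate2 (rp (totRep (resR ι ρ))) 1 C)
    (hdiag : ∀ x y, y ≠ Sum.swap x → C (eb (Pi.basis b) x) (eb (Pi.basis b) y) = 0) :
    IsTate2 (rp (totRep ρ)) 1 C := by
  classical
  have hform := form_eq b hdiag
  set c : (Σ j, Fin (r j)) → k :=
    fun i => C (eb (Pi.basis b) (Sum.inl i)) (eb (Pi.basis b) (Sum.inr i))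
  set c' : (Σ j, Fin (r j)) → k :=
    fun i => C (eb (Pi.basis b) (Sum.inr i)) (eb (Pi.basis b) (Sum.inl i))
  obtain ⟨Δ, hΔ, h⟩ := hC
  have hfi : (Δ.comap (inc k Γ J)).FiniteIndex := finiteIndex_two hΔ
  -- the endomorphisms commute with `Γ`
  have hP : ∀ g ∈ Δ.comap (inc k Γ J), ∀ x, DGN b c (totRep (resR ι ρ) (g, 1) x) =
      totRep (resR ι ρ) (g, 1) (DGN b c x) := by
    intro g hg x
    have h1 : totRep (resR ι ρ) (g, 1)⁻¹ (DGN b c (totRep (resR ι ρ) (g, 1) x)) = DGN b c x := by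
      refine dual_sep (k := k) fun φ => ?_
      have h2 := h ((g, 1), 1) hg (x, 0) (0, φ)
      rw [hform, bil_apply, bil_apply, MonoidHom.one_apply, one_mul, rp_fst, rp_fst, rp_snd,
        rp_snd] at h2
      simpa using h2
    rw [← h1, mul_inv_rep]
  have hQ : ∀ g ∈ Δ.comap (inc k Γ J), ∀ x, DGN b c' (totRep (resR ι ρ) (g, 1) x) =
      totRep (resR ι ρ) (g, 1) (DGN b c' x) := by
    intro g hg x
    have h1 : totRep (resR ι ρ) (g, 1)⁻¹ (DGN b c' (totRep (resR ι ρ) (g, 1) x)) =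
        DGN b c' x := by
      refine dual_sep (k := k) fun φ => ?_
      have h2 := h ((g, 1), 1) hg (0, φ) (x, 0)
      rw [hform, bil_apply, bil_apply, MonoidHom.one_apply, one_mul, rp_fst, rp_fst, rp_snd,
        rp_snd] at h2
      simpa using h2
    rw [← h1, mul_inv_rep]
  have hcomp : ∀ c : (Σ j, Fin (r j)) → k, (∀ g ∈ Δ.comap (inc k Γ J), ∀ x,
      DGN b c (totRep (resR ι ρ) (g, 1) x) = totRep (resR ι ρ) (g, 1) (DGN b c x)) →
      ∀ j, ∃ Δ' : Subgroup G, Δ'.FiniteIndex ∧ ∀ g ∈ Δ', ∀ v,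
        dgn b c j (ρ j g v) = ρ j g (dgn b c j v) := by
    intro c hc j
    refine hE j (dgn b c j) ⟨_, hfi, fun g hg v => ?_⟩
    have h1 := congrFun (hc g hg (Pi.single j v)) j
    rw [DGN_apply, totRep_apply, totRep_apply, DGN_apply, Pi.single_eq_same] at h1
    simpa using h1
  choose ΔP hΔP hP' using hcomp c hP
  choose ΔQ hΔQ hQ' using hcomp c' hQ
  have hiP : (⨅ j, ΔP j).FiniteIndex := Subgroup.finiteIndex_iInf hΔP
  have hiQ : (⨅ j, ΔQ j).FiniteIndex := Subgroup.finiteIndex_iInf hΔQ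
  have hfi2 : (((⨅ j, ΔP j) ⊓ ⨅ j, ΔQ j).comap ((MonoidHom.fst G (J → kˣ)).comp
      (MonoidHom.fst (G × (J → kˣ)) kˣ))).FiniteIndex := by
    refine ⟨?_⟩
    rw [Subgroup.index_comap]
    exact (inferInstance : (((⨅ j, ΔP j) ⊓ ⨅ j, ΔQ j).subgroupOf
      ((MonoidHom.fst G (J → kˣ)).comp
      (MonoidHom.fst (G × (J → kˣ)) kˣ)).range).FiniteIndex).index_ne_zero
  refine ⟨_, hfi2, ?_⟩
  rintro ⟨⟨g, t⟩, u⟩ hg x y
  have hg' : g ∈ (⨅ j, ΔP j) ⊓ ⨅ j, ΔQ j := hg
  obtain ⟨hgP, hgQ⟩ := Subgroup.mem_inf.1 hg'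
  rw [Subgroup.mem_iInf] at hgP hgQ
  have hcP : ∀ z, DGN b c (totRep ρ (g, t) z) = totRep ρ (g, t) (DGN b c z) := by
    intro z
    funext j
    rw [DGN_apply, totRep_apply, totRep_apply, DGN_apply, map_smul, hP' j g (hgP j)]
  have hcQ : ∀ z, DGN b c' (totRep ρ (g, t) z) = totRep ρ (g, t) (DGN b c' z) := by
    intro z
    funext j
    rw [DGN_apply, totRep_apply, totRep_apply, DGN_apply, map_smul, hQ' j g (hgQ j)]
  rw [hform, bil_apply, bil_apply, MonoidHom.one_apply, one_mul, rp_fst, rp_fst, rp_snd,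
    rp_snd]
  change ((u⁻¹ : kˣ) : k) * y.2 (totRep ρ (g, t)⁻¹ (DGN b c ((u : k) • totRep ρ (g, t) x.1))) +
    ((u⁻¹ : kˣ) : k) * x.2 (totRep ρ (g, t)⁻¹ (DGN b c' ((u : k) • totRep ρ (g, t) y.1))) = _
  rw [map_smul, map_smul, map_smul, map_smul, map_smul, map_smul, hcP, hcQ, inv_mul_rep,
    inv_mul_rep, smul_eq_mul, smul_eq_mul, ← mul_assoc, ← mul_assoc, Units.inv_mul, one_mul,
    one_mul]

end

end Pool.Agent.V1141.WT
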