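import Pool.Agent.V1141.WT.G1

/-!
# Tate classes for `Γ` and for a larger group `G`
-/

set_option autoImplicit false
set_option linter.unusedSectionVars false
set_option linter.unusedVariables false

namespace Pool.Agent.V1141.WT

open Module Pool.Agent.H204R3.SP Pool.Agent.H204R3.GP Pool.Agent.V1141.OF
open Pool.Agent.Y137.MV (IsEqv)

noncomputable section

/-- `f` is the product of a form `ψ` on which a subgroup of finite index of `G` acts through `χ ^ c`, and
of a vector of `M` on which a subgroup of finite index of `Γ` acts through `χ ^ c`. -/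
def IsMixedProduct {k H M Γ G : Type} [Field k] [AddCommGroup H] [Module k H] [AddCommGroup M]
    [Module k M] [Group Γ] [Group G] (ι : Γ →* G) (ρ : Representation k G H)
    (τ : Representation k Γ M) (χ : G →* k) {N : ℕ}
    (f : MultilinearMap k (fun _ : Fin N => H) M) : Prop :=
  ∃ (ψ : MultilinearMap k (fun _ : Fin N => H) k) (u : M) (c : ℤ), IsTateForm ρ χ c ψ ∧
    (∃ Δ : Subgroup Γ, Δ.FiniteIndex ∧ ∀ g ∈ Δ, τ g u = χ (ι g) ^ c • u) ∧ ∀ x, f x = ψ x • u

variable {k : Type} [Field k] [CharZero k] {Γ G : Type} [Group Γ] [Group G] (ι : Γ →* G)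
  {χ : G →* k}
  {J : Type} [Fintype J] [DecidableEq J] {V V' : J → Type}
  [∀ j, AddCommGroup (V j)] [∀ j, Module k (V j)] [∀ j, AddCommGroup (V' j)]
  [∀ j, Module k (V' j)]
  (ρ : ∀ j, Representation k G (V j)) (ρ' : ∀ j, Representation k G (V' j))
  (hE : ∀ j, EndosAreMotivic ι (ρ j))
  (B : ∀ j, V j →ₗ[k] V' j →ₗ[k] k) (hB : ∀ j, Function.Bijective (B j).flip)
  {w : J → ℤ} (hBρ : ∀ j g v v', B j (ρ j g v) (ρ' j g v') = χ g ^ w j * B j v v')
  {r : J → ℕ} (b : ∀ j, Basis (Fin (r j)) k (V j))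
  {T : Set J} {e : J → ℤ} {Δ₀ : Subgroup G} (hΔ₀ : Δ₀.FiniteIndex)
  (hdet : ∀ g ∈ Δ₀, ∀ j ∈ T, LinearMap.det (ρ j g) = χ g ^ e j)
  {γ : Γ} {α : ∀ j, Fin (r j) → k} (hb : ∀ j i, ρ j (ι γ) (b j i) = α j i • b j i)
  (hα0 : ∀ j i, α j i ≠ 0) (hr : ∀ j, 0 < r j)
  (hrat : ∀ m : (Σ j, Fin (r j)) → ℤ,
    (∀ j, ∑ i : Σ j, Fin (r j), (if i.1 = j then m i else 0) = 0) →
      ∏ i : Σ j, Fin (r j), α i.1 i.2 ^ m i = 1 → m = 0)
  {M : Type} [AddCommGroup M] [Module k M]
  (τ : Representation k Γ M)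
  (hindM : ∀ (m : ∀ j, Fin (r j) → ℤ) (c : ℤ) (n : ℕ) (β : k), 0 < n →
    Module.End.HasEigenvalue (τ γ) β → ∏ j, ∏ i, α j i ^ m j i = β ^ n * (χ.comp ι) γ ^ c →
      ∃ d : J → ℤ, (∀ j i, m j i = d j) ∧ ∀ j, j ∉ T → d j = 0)

theorem comap_fin {Δ : Subgroup G} (hΔ : Δ.FiniteIndex) : (Δ.comap ι).FiniteIndex := by
  refine ⟨?_⟩
  rw [Subgroup.index_comap]
  exact Subgroup.FiniteIndex.index_ne_zero

include hE hBρ hb hα0 hr hrat hdet hΔ₀ hindM in
/-- one component -/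
theorem compG_mem [IsAlgClosed k] [FiniteDimensional k M] [∀ j, FiniteDimensional k (V j)]
    [∀ j, FiniteDimensional k (V' j)] {N : ℕ} (κ : Fin N → J ⊕ J)
    {f : MultilinearMap k (fun _ : Fin N => (∀ j, V j × V' j)) M}
    (hf : IsTateMap (sumRep (resR ι ρ) (resR ι ρ')) τ f) :
    f.compLinearMap (fun l => pr B hB (κ l)) ∈
      Submodule.span k {h | IsMixedProduct ι (sumRep ρ ρ') τ χ h} := by
  classical
  have hBρ' : ∀ j g v v', B j ((resR ι ρ) j g v) ((resR ι ρ') j g v') =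
      (χ.comp ι) g ^ w j * B j v v' := fun j g v v' => hBρ j (ι g) v v'
  have hb' : ∀ j i, (resR ι ρ) j γ (b j i) = α j i • b j i := hb
  have hΔι : (Δ₀.comap ι).FiniteIndex := comap_fin ι hΔ₀
  have hdet' : ∀ g ∈ Δ₀.comap ι, ∀ j ∈ T, LinearMap.det ((resR ι ρ) j g) =
      (χ.comp ι) g ^ e j := fun g hg j hj => hdet (ι g) hg j hj
  by_cases hne : f.compLinearMap (fun l => em B hB (κ l)) = 0
  · have h1 : f.compLinearMap (fun l => pr B hB (κ l)) = 0 := by
      refine MultilinearMap.ext fun x => ?_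
      have h2 := congrArg (fun f => f (fun l => ow B (κ l) (x l))) hne
      exact h2
    rw [h1]
    exact Submodule.zero_mem _
  · obtain ⟨d, hd0, hd2⟩ := exists_dM (resR ι ρ) (resR ι ρ') B hB hBρ' b hb' hα0 hr τ hindM hf hne
    obtain ⟨m, hm⟩ := exists_m (r := r) hd2
    obtain ⟨E⟩ : Nonempty (Fin m × Fin 2 ≃
        Fin N ⊕ (Σ a : (Σ κ, Fin (mu d κ)), Fin (rk r a.1))) := by
      refine ⟨Fintype.equivOfCardEq ?_⟩
      rw [hm, Fintype.card_prod, Fintype.card_fin, Fintype.card_fin]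
    obtain ⟨Δ, hΔ, hf'⟩ := hf
    have hT : IsEqv (rp (totRep (resR ι ρ)))
        (sig τ (χ.comp ι) J (-∑ l, tw w (κ l) + ∑ a : (Σ κ, Fin (mu d κ)), ek e a.1))
        ((bgM B hB b κ d f).domDomCongr E.symm) := by
      have := hΔ
      have := hΔι
      have hfi : ((Δ ⊓ Δ₀.comap ι).comap ((MonoidHom.fst Γ (J → kˣ)).comp
          (MonoidHom.fst (Γ × (J → kˣ)) kˣ))).FiniteIndex := by
        refine ⟨?_⟩
        rw [Subgroup.index_comap]
        exact (inferInstance : ((Δ ⊓ Δ₀.comap ι).subgroupOf ((MonoidHom.fst Γ (J → kˣ)).comp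
          (MonoidHom.fst (Γ × (J → kˣ)) kˣ)).range).FiniteIndex).index_ne_zero
      refine ⟨_, hfi, ?_⟩
      rintro ⟨⟨g, t⟩, u⟩ hg v
      have hg' : g ∈ Δ ⊓ Δ₀.comap ι := hg
      obtain ⟨hg1, hg2⟩ := Subgroup.mem_inf.1 hg'
      rw [MultilinearMap.domDomCongr_apply, MultilinearMap.domDomCongr_apply]
      exact bgM_eqv (resR ι ρ) (resR ι ρ') B hB hBρ' b hdet' τ hf' hd0 hd2 hg1 hg2 t u
        (fun i => v (E.symm i))
    let P' : Set (MultilinearMap k (fun _ : Fin N => (∀ j, V j × V' j)) k) :=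
      {ψ | IsTateForm (sumRep ρ ρ') χ (∑ l, tw w (κ l) - ∑ a : (Σ κ, Fin (mu d κ)), ek e a.1) ψ}
    have hspan : ∀ ψ ∈ Submodule.span k (PT (rp (totRep (resR ι ρ))) 1 m),
        ∃ θ : MultilinearMap k (fun _ : Fin N => (∀ j, V j × V' j)) k,
          θ ∈ Submodule.span k P' ∧ ∀ x, Lm B b κ d E ψ x = θ x := by
      intro ψ hψ
      induction hψ using Submodule.span_induction with
      | mem ψ hψ =>
        obtain ⟨σ, C, hC, rfl⟩ := hψ
        have hCG : ∀ s, IsTate2 (rp (totRep ρ)) 1 (C s) := fun s =>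
          lift2 ι ρ b hE (hC s) fun x y hxy =>
            two_van (totRep (resR ι ρ)) (α := fun i : Σ j, Fin (r j) => α i.1 i.2) (Pi.basis b)
              (tot_gamma (resR ι ρ) b hb') (fun _ => hα0 _ _) Sigma.fst (tau k Γ)
              (tot_tau (resR ι ρ) b) hrat (hC s) hxy
        obtain ⟨θ, h1, h2⟩ := Lm_mmG' ρ ρ' B hBρ b hΔ₀ hdet hb hα0 hrat κ hd0 E σ C hCG
        exact ⟨θ, Submodule.span_mono (fun ψ hψ => hψ.2) h1, h2⟩
      | zero => exact ⟨0, Submodule.zero_mem _, fun x => by rw [map_zero]; rfl⟩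
      | add ψ ψ' _ _ h h' =>
        obtain ⟨θ, h1, h2⟩ := h
        obtain ⟨θ', h3, h4⟩ := h'
        refine ⟨θ + θ', Submodule.add_mem _ h1 h3, fun x => ?_⟩
        rw [map_add, Pi.add_apply, h2, h4]
        rfl
      | smul a ψ _ h =>
        obtain ⟨θ, h1, h2⟩ := h
        refine ⟨a • θ, Submodule.smul_mem _ a h1, fun x => ?_⟩
        rw [map_smul, Pi.smul_apply, h2]
        rfl
    have hcard : (Fintype.card (∀ a : (Σ κ, Fin (mu d κ)), Equiv.Perm (Fin (rk r a.1))) : k) ≠ 0 :=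
      Nat.cast_ne_zero.2 Fintype.card_ne_zero
    have hl : ∀ l : M →ₗ[k] k, l.compMultilinearMap (f.compLinearMap (fun l => pr B hB (κ l))) ∈
        Submodule.span k P' := by
      intro l
      have hmem := comp_memN (rp (totRep (resR ι ρ))) 1
        (sig τ (χ.comp ι) J (-∑ l, tw w (κ l) + ∑ a : (Σ κ, Fin (mu d κ)), ek e a.1))
        (eb (Pi.basis b)) swap_swap' swap_ne jb_swap jb_ne om (om_eb (Pi.basis b))
        (fun g u v => om_rp (totRep (resR ι ρ)) g u v)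
        (balanced_double (totRep (resR ι ρ)) (α := fun i : Σ j, Fin (r j) => α i.1 i.2)
          (Pi.basis b) (tot_gamma (resR ι ρ) b hb') (fun _ => hα0 _ _) Sigma.fst (tau k Γ)
          (tot_tau (resR ι ρ) b) hrat)
        (fun κ' _ _ φ hφ I hI y =>
          balM (resR ι ρ) b hb' hα0 hr τ hindM _ φ hφ I hI y) hT l
      obtain ⟨θ, h1, h2⟩ := hspan _ hmem
      rw [comp_bgM' B hB b κ d E f l] at h2
      have h3 : l.compMultilinearMap (f.compLinearMap (fun l => pr B hB (κ l))) =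
          (Fintype.card (∀ a : (Σ κ, Fin (mu d κ)), Equiv.Perm (Fin (rk r a.1))) : k)⁻¹ • θ := by
        refine MultilinearMap.ext fun x => ?_
        rw [MultilinearMap.smul_apply, ← h2 x, Lm_bg B hB, smul_eq_mul,
          inv_mul_cancel_left₀ hcard]
        rfl
      rw [h3]
      exact Submodule.smul_mem _ _ h1
    have hfin := final_abs τ (fun _ : Fin N => sumRep (resR ι ρ) (resR ι ρ'))
      (fun s => χ (ι s) ^ (∑ l, tw w (κ l) - ∑ a : (Σ κ, Fin (mu d κ)), ek e a.1)) P'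
      (fun g hg => by
        obtain ⟨Δ', hΔ', h'⟩ := hg
        exact ⟨Δ'.comap ι, comap_fin ι hΔ', fun s hs v => h' (ι s) hs v⟩)
      (f.compLinearMap (fun l => pr B hB (κ l)))
      ⟨Δ, hΔ, fun s hs v => by
        rw [MultilinearMap.compLinearMap_apply, MultilinearMap.compLinearMap_apply, ← hf' s hs]
        congr 1
        funext l
        exact pr_rep (resR ι ρ) (resR ι ρ') B hB (κ l) s (v l)⟩ hl
    refine Submodule.span_mono ?_ hfin
    rintro h ⟨g, hg, u, hu, hh⟩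
    exact ⟨g, u, _, hg, hu, hh⟩

include hE hBρ hb hα0 hr hrat hdet hΔ₀ hindM hB in
theorem splitG [IsAlgClosed k] [FiniteDimensional k M] [∀ j, FiniteDimensional k (V j)]
    [∀ j, FiniteDimensional k (V' j)] {N : ℕ}
    {f : MultilinearMap k (fun _ : Fin N => (∀ j, V j × V' j)) M}
    (hf : IsTateMap (sumRep (resR ι ρ) (resR ι ρ')) τ f) :
    f ∈ Submodule.span k {h | IsMixedProduct ι (sumRep ρ ρ') τ χ h} := by
  classical
  have h1 : f = ∑ κ : Fin N → J ⊕ J, f.compLinearMap (fun l => pr B hB (κ l)) := by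
    refine MultilinearMap.ext fun x => ?_
    have h2 : (fun l => x l) = fun l => ∑ κ, pr B hB κ (x l) := by
      funext l
      have h3 := congrArg (fun f => f (x l)) (sum_pr B hB)
      simp only [LinearMap.sum_apply, LinearMap.id_apply] at h3
      exact h3.symm
    have h4 := f.map_sum (fun (l : Fin N) (κ : J ⊕ J) => pr B hB κ (x l))
    rw [← h2] at h4
    rw [h4, MultilinearMap.sum_apply]
    rfl
  rw [h1]
  exact Submodule.sum_mem _ fun κ _ =>
    compG_mem ι ρ ρ' hE B hB hBρ b hΔ₀ hdet hb hα0 hr hrat τ hindM κ hf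

end

end Pool.Agent.V1141.WT
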