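import Mathlib

/-!
# Tate forms and products of Tate forms
-/

set_option autoImplicit false

namespace Pool.Agent.V1141.WT

section

variable {k H Γ : Type} [Field k] [AddCommGroup H] [Module k H] [Group Γ]

/-- The multilinear form `φ` on `H` is multiplied by `χ ^ c` by the elements of a subgroup of finite
index. -/
def IsTateForm (ρ : Representation k Γ H) (χ : Γ →* k) {ι : Type} (c : ℤ)
    (φ : MultilinearMap k (fun _ : ι => H) k) : Prop :=
  ∃ Δ : Subgroup Γ, Δ.FiniteIndex ∧ ∀ g ∈ Δ, ∀ x, φ (fun i => ρ g (x i)) = χ g ^ c * φ x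

/-- The multilinear form `φ` in `N` variables is a product of Tate forms `ψ a`, in the variables with
indices in `I a`; each variable occurs in exactly one of the factors, and the number of variables of
each factor belongs to `R`. -/
def IsProductOfTateForms (ρ : Representation k Γ H) (χ : Γ →* k) (R : Set ℕ) {N : ℕ}
    (φ : MultilinearMap k (fun _ : Fin N => H) k) : Prop :=
  ∃ (A : Type) (_ : Fintype A) (I : A → Type) (_ : ∀ a, Fintype (I a)) (p : (Σ a, I a) ≃ Fin N)
    (c : A → ℤ) (ψ : ∀ a, MultilinearMap k (fun _ : I a => H) k),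
    (∀ a, Fintype.card (I a) ∈ R ∧ IsTateForm ρ χ (c a) (ψ a)) ∧
      ∀ x, φ x = ∏ a, ψ a (fun i => x (p ⟨a, i⟩))

/-- All Tate forms, with any number of variables, are linear combinations of products of Tate forms
whose numbers of variables are in `R`. -/
def TateFormsGeneratedIn (ρ : Representation k Γ H) (χ : Γ →* k) (R : Set ℕ) : Prop :=
  ∀ (N : ℕ) (c : ℤ) (φ : MultilinearMap k (fun _ : Fin N => H) k), IsTateForm ρ χ c φ →
    φ ∈ Submodule.span k {ψ | IsProductOfTateForms ρ χ R ψ}

end

/-- The direct sum of the representations `V j` and `V' j`. -/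
def sumRep {k Γ J : Type} [Field k] [Group Γ] {V V' : J → Type} [∀ j, AddCommGroup (V j)]
    [∀ j, Module k (V j)] [∀ j, AddCommGroup (V' j)] [∀ j, Module k (V' j)]
    (ρ : ∀ j, Representation k Γ (V j)) (ρ' : ∀ j, Representation k Γ (V' j)) :
    Representation k Γ (∀ j, V j × V' j) where
  toFun g := LinearMap.pi fun j => ((ρ j g).prodMap (ρ' j g)) ∘ₗ LinearMap.proj j
  map_one' := by
    refine LinearMap.ext fun x => funext fun j => ?_
    simp
  map_mul' g h := by
    refine LinearMap.ext fun x => funext fun j => ?_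
    simp

end Pool.Agent.V1141.WT
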