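import Pool.Agent.V1141.OF.GL2
import Pool.Agent.V1141.WT.Defs

/-!
# One element with independent ratios of eigenvalues: the double
-/

set_option autoImplicit false
set_option linter.unusedSectionVars false

namespace Pool.Agent.V1141.WT

open Module Pool.Agent.H204R3.SP Pool.Agent.H204R3.GP Pool.Agent.V1141.OF

noncomputable section

variable {k : Type} [Field k] [CharZero k] {V : Type} [AddCommGroup V] [Module k V]
  {Γ : Type} [Group Γ] (ρ : Representation k Γ V)

variable {ι : Type} [Fintype ι] [DecidableEq ι] {γ : Γ} {α : ι → k} (b : Basis ι k V)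
  (hb : ∀ i, ρ γ (b i) = α i • b i) (hα0 : ∀ i, α i ≠ 0)

/-- the basis of the double -/
def eb : Basis (ι ⊕ ι) k (V × Module.Dual k V) := b.prod b.dualBasis

theorem eb_inl (i : ι) : eb b (Sum.inl i) = (b i, 0) := by
  unfold eb
  rw [Basis.prod_apply, Sum.elim_inl]
  rfl

theorem eb_inr (i : ι) : eb b (Sum.inr i) = (0, b.coord i) := by
  unfold eb
  rw [Basis.prod_apply, Sum.elim_inr, Function.comp_apply, Basis.coe_dualBasis]
  rfl

/-- the values of the form on the basis -/
def jb : ι ⊕ ι → k := Sum.elim (fun _ => 1) (fun _ => -1)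

theorem om_eb (x y : ι ⊕ ι) : om (eb b x) (eb b y) = JJ Sum.swap jb x y := by
  classical
  unfold JJ
  rcases x with i | i <;> rcases y with j | j
  · rw [eb_inl, eb_inl, om_apply, if_neg (by simp)]
    simp
  · rw [eb_inl, eb_inr, om_apply]
    by_cases h : j = i
    · subst h
      rw [if_pos (by rfl)]
      simp [jb]
    · rw [if_neg (by simpa using h)]
      simp [Ne.symm h]
  · rw [eb_inr, eb_inl, om_apply]
    by_cases h : j = i
    · subst h
      rw [if_pos (by rfl)]
      simp [jb]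
    · rw [if_neg (by simpa using h)]
      simp [h]
  · rw [eb_inr, eb_inr, om_apply, if_neg (by simp)]
    simp

/-- the eigenvalues on the double -/
def ab (α : ι → k) : ι ⊕ ι → k := Sum.elim α (fun i => (α i)⁻¹)

include hb hα0 in
theorem rp_eb (x : ι ⊕ ι) : rp ρ (γ, 1) (eb b x) = ab α x • eb b x := by
  have hb' : ∀ i, ρ γ⁻¹ (b i) = (α i)⁻¹ • b i := by
    intro i
    have h1 : ρ γ⁻¹ (ρ γ (b i)) = b i := by
      rw [← Module.End.mul_apply, ← map_mul, inv_mul_cancel, map_one, Module.End.one_apply]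
    rw [hb, map_smul] at h1
    rw [← h1, smul_smul, inv_mul_cancel₀ (hα0 i), one_smul, h1]
  rcases x with i | i
  · rw [eb_inl]
    refine Prod.ext ?_ ?_
    · rw [rp_fst]
      simp [hb, ab]
    · refine LinearMap.ext fun v => ?_
      rw [rp_snd]
      simp
  · rw [eb_inr]
    refine Prod.ext ?_ ?_
    · rw [rp_fst]
      simp
    · refine b.ext fun j => ?_
      rw [rp_snd, hb']
      simp only [ab, Sum.elim_inr, Prod.smul_snd, LinearMap.smul_apply, map_smul, smul_eq_mul,
        Basis.coord_apply, Basis.repr_self, Units.val_one, inv_one, one_mul]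
      by_cases h : j = i
      · subst h
        rfl
      · rw [Finsupp.single_apply, if_neg h, mul_zero, mul_zero]

theorem swap_swap' (x : ι ⊕ ι) : Sum.swap (Sum.swap x) = x := Sum.swap_swap x

theorem swap_ne (x : ι ⊕ ι) : Sum.swap x ≠ x := by
  rcases x with i | i <;> simp

theorem jb_swap (x : ι ⊕ ι) : (jb (Sum.swap x) : k) = -jb x := by
  rcases x with i | i <;> simp [jb]

theorem jb_ne (x : ι ⊕ ι) : (jb x : k) ≠ 0 := by
  rcases x with i | i <;> simp [jb]

theorem pow_eb (hb1 : ∀ x, rp ρ (γ, 1) (eb b x) = ab α x • eb b x) (M : ℕ)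
    (x : ι ⊕ ι) : rp ρ ((γ, 1) ^ M) (eb b x) = ab α x ^ M • eb b x := by
  induction M with
  | zero => rw [pow_zero, pow_zero, one_smul, map_one]; rfl
  | succ M ih =>
    rw [pow_succ, map_mul, pow_succ, Module.End.mul_apply, hb1, map_smul, ih, smul_smul, mul_comm]

/-- the product over a family in terms of the numbers of occurrences -/
theorem prod_fib {X Y : Type} [Fintype X] [Fintype Y] [DecidableEq Y] (I : X → Y) (f : Y → k)
    (M : ℕ) : ∏ l, f (I l) ^ M = ∏ y, f y ^ (M * (Finset.univ.filter (fun l => I l = y)).card) := by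
  rw [← Finset.prod_fiberwise Finset.univ I (fun l => f (I l) ^ M)]
  refine Finset.prod_congr rfl fun y _ => ?_
  rw [Finset.prod_congr rfl (fun l hl => by rw [(Finset.mem_filter.1 hl).2]), Finset.prod_const,
    ← pow_mul]

theorem prod_ab {X : Type} [Fintype X] (hα0 : ∀ i, α i ≠ 0) (I : X → ι ⊕ ι) (M : ℕ) :
    ∏ l, ab α (I l) ^ M = ∏ i, α i ^ ((M : ℤ) *
      (((Finset.univ.filter (fun l => I l = Sum.inl i)).card : ℤ) -
        (Finset.univ.filter (fun l => I l = Sum.inr i)).card)) := by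
  rw [prod_fib, Fintype.prod_sum_type, ← Finset.prod_mul_distrib]
  refine Finset.prod_congr rfl fun i _ => ?_
  simp only [ab, Sum.elim_inl, Sum.elim_inr]
  rw [mul_sub, zpow_sub₀ (hα0 i), inv_pow, div_eq_mul_inv]
  norm_cast

theorem prod_zpow_sum {G : Type} [CommGroup G] {X : Type} (S : Finset X) (u : G) (f : X → ℤ) :
    ∏ l ∈ S, u ^ f l = u ^ ∑ l ∈ S, f l := by
  classical
  induction S using Finset.induction_on with
  | empty => simp
  | insert a S ha ih => rw [Finset.prod_insert ha, Finset.sum_insert ha, zpow_add, ih]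

/-- powers of two -/
theorem two_zpow_eq_one {z : ℤ} (h : ((2 : k)) ^ z = 1) : z = 0 := by
  have h1 : ((2 : ℚ)) ^ z = 1 := by
    have : ((((2 : ℚ)) ^ z : ℚ) : k) = ((1 : ℚ) : k) := by
      push_cast
      exact h
    exact_mod_cast this
  by_contra h2
  exact h2 ((zpow_eq_one_iff_right₀ (by norm_num) (by norm_num)).1 h1)

/-- the weight of a basis element of the tensor power -/
def wt {X : Type} [Fintype X] (I : X → ι ⊕ ι) (i : ι) : ℤ :=
  ((Finset.univ.filter (fun l => I l = Sum.inl i)).card : ℤ) -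
    (Finset.univ.filter (fun l => I l = Sum.inr i)).card

include hb hα0 in
theorem weight_eq {m : ℕ}
    {φ : MultilinearMap k (fun _ : Fin m × Fin 2 => V × Module.Dual k V) k}
    (hφ : IsTate (rp ρ) 1 m φ) {I : Fin m × Fin 2 → ι ⊕ ι}
    (hI : φ (fun l => eb b (I l)) ≠ 0) :
    ∃ M : ℕ, 0 < M ∧ ∏ i, α i ^ ((M : ℤ) * wt I i) = 1 := by
  classical
  obtain ⟨Δ, hΔ, hφ⟩ := hφ
  obtain ⟨M, hM, -, hMΔ⟩ := Subgroup.exists_pow_mem_of_index_ne_zero hΔ.index_ne_zero
    ((γ, 1) : Γ × kˣ)
  have h1 := hφ _ hMΔ (fun l => eb b (I l))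
  simp only [pow_eb ρ b (rp_eb ρ b hb hα0) M] at h1
  rw [MultilinearMap.map_smul_univ, smul_eq_mul, MonoidHom.one_apply, one_pow, one_mul] at h1
  have h2 : ∏ l, ab α (I l) ^ M = 1 := mul_right_cancel₀ hI (by rw [h1, one_mul])
  rw [prod_ab hα0] at h2
  exact ⟨M, hM, h2⟩

variable {J : Type} [DecidableEq J] (β : ι → J) (τ : J → Γ)
  (hτ : ∀ j i, ρ (τ j) (b i) = (if β i = j then (2 : k) else 1) • b i)
  (hrat : ∀ m : ι → ℤ, (∀ j, ∑ i, (if β i = j then m i else 0) = 0) →
    ∏ i, α i ^ m i = 1 → m = 0)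

include hb hα0 hτ hrat in
theorem balanced_double (m : ℕ)
    (φ : MultilinearMap k (fun _ : Fin m × Fin 2 => V × Module.Dual k V) k)
    (hφ : IsTate (rp ρ) 1 m φ) (I : Fin m × Fin 2 → ι ⊕ ι)
    (hI : φ (fun l => eb b (I l)) ≠ 0) (y : ι ⊕ ι) :
    (Finset.univ.filter (fun l => I l = y)).card =
      (Finset.univ.filter (fun l => I l = Sum.swap y)).card := by
  classical
  obtain ⟨M, hM, h2⟩ := weight_eq ρ b hb hα0 hφ hI
  have hMz : (M : ℤ) ≠ 0 := by exact_mod_cast hM.ne'
  have hsum : ∀ j, ∑ i, (if β i = j then wt I i else 0) = 0 := by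
    intro j
    obtain ⟨M', hM', h3⟩ := weight_eq ρ b (hτ j) (fun i => by
      by_cases h : β i = j
      · rw [if_pos h]; exact two_ne_zero
      · rw [if_neg h]; exact one_ne_zero) hφ hI
    have hMz' : (M' : ℤ) ≠ 0 := by exact_mod_cast hM'.ne'
    have h4 : ∀ i, (if β i = j then (2 : k) else 1) ^ ((M' : ℤ) * wt I i) =
        (((Units.mk0 (2 : k) two_ne_zero) ^ ((M' : ℤ) * (if β i = j then wt I i else 0)) : kˣ) : k) := by
      intro i
      by_cases h : β i = j
      · rw [if_pos h, if_pos h, Units.val_zpow_eq_zpow_val, Units.val_mk0]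
      · rw [if_neg h, if_neg h, mul_zero, zpow_zero, one_zpow, Units.val_one]
    rw [Finset.prod_congr rfl fun i _ => h4 i, ← Units.coe_prod, prod_zpow_sum,
      Units.val_zpow_eq_zpow_val, Units.val_mk0, ← Finset.mul_sum] at h3
    exact (mul_eq_zero.1 (two_zpow_eq_one h3)).resolve_left hMz'
  have h4 := hrat _ (fun j => by
    have h5 : ∀ i, (if β i = j then (M : ℤ) * wt I i else 0) =
        (M : ℤ) * (if β i = j then wt I i else 0) := fun i => by
      by_cases h : β i = j
      · rw [if_pos h, if_pos h]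
      · rw [if_neg h, if_neg h, mul_zero]
    rw [Finset.sum_congr rfl fun i _ => h5 i, ← Finset.mul_sum, hsum j, mul_zero]) h2
  have h5 : ∀ i, (Finset.univ.filter (fun l => I l = Sum.inl i)).card =
      (Finset.univ.filter (fun l => I l = Sum.inr i)).card := by
    intro i
    have h6 := (mul_eq_zero.1 (congrFun h4 i)).resolve_left hMz
    exact_mod_cast sub_eq_zero.1 h6
  rcases y with i | i
  · exact h5 i
  · exact (h5 i).symm

include hb hα0 hτ hrat in
/-- Tate forms on the double are generated in degree two. -/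
theorem double_mem {m : ℕ}
    (φ : MultilinearMap k (fun _ : Fin m × Fin 2 => V × Module.Dual k V) k)
    (hφ : IsTate (rp ρ) 1 m φ) : φ ∈ Submodule.span k (PT (rp ρ) 1 m) :=
  tateG_mem' (eb b) swap_swap' swap_ne jb_swap jb_ne om (om_eb b) (rp ρ) 1
    (fun g u v => om_rp ρ g u v) (balanced_double ρ b hb hα0 β τ hτ hrat) φ hφ

include hb hα0 hτ hrat in
/-- Tate forms of degree two vanish outside of the pairs of the involution. -/
theorem two_van {C : (V × Module.Dual k V) →ₗ[k] (V × Module.Dual k V) →ₗ[k] k}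
    (hC : IsTate2 (rp ρ) 1 C) {x y : ι ⊕ ι} (h : y ≠ Sum.swap x) : C (eb b x) (eb b y) = 0 := by
  classical
  by_contra h0
  obtain ⟨Δ, hΔ, hC⟩ := hC
  have h1 := balanced_double ρ b hb hα0 β τ hτ hrat 1
    (mmG (Equiv.refl _) (fun _ => C)) ⟨Δ, hΔ, fun g hg v => by
      rw [mmG_apply, mmG_apply, Fin.prod_univ_one, Fin.prod_univ_one]
      have := hC g hg (v (0, 0)) (v (0, 1))
      simpa using this⟩ (fun q => if q.2 = 0 then x else y)
    (by
      rw [mmG_apply, Fin.prod_univ_one]
      simpa using h0) x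
  have h2 : (Finset.univ.filter (fun q : Fin 1 × Fin 2 =>
      (if q.2 = 0 then x else y) = Sum.swap x)).card = 0 := by
    rw [Finset.card_eq_zero, Finset.filter_eq_empty_iff]
    intro q _ hq
    by_cases h3 : q.2 = 0
    · rw [if_pos h3] at hq
      exact swap_ne x hq.symm
    · rw [if_neg h3] at hq
      exact h hq
  rw [h2, Finset.card_eq_zero, Finset.filter_eq_empty_iff] at h1
  exact h1 (Finset.mem_univ ((0, 0) : Fin 1 × Fin 2)) (by simp)

end

end Pool.Agent.V1141.WT
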