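import Mathlib

/-!
# Products of bilinear forms with antisymmetrized variables
-/

set_option autoImplicit false
set_option linter.unusedSectionVars false

namespace Pool.Agent.V1141.WT

open Module

noncomputable section

variable {k W H : Type} [Field k] [AddCommGroup W] [Module k W] [AddCommGroup H] [Module k H]
  {m N : ℕ} {A : Type} [Fintype A] [DecidableEq A] {Y : A → Type} [∀ a, Fintype (Y a)]
  [∀ a, DecidableEq (Y a)]

/-- the value of the variable `q` -/
def vl (E : Fin m × Fin 2 ≃ Fin N ⊕ (Σ a, Y a)) (ω : Fin N → H →ₗ[k] W) (u : ∀ a, Y a → W)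
    (x : Fin N → H) (π : ∀ a, Equiv.Perm (Y a)) (q : Fin m × Fin 2) : W :=
  Sum.elim (fun l => ω l (x l)) (fun y => u y.1 (π y.1 y.2)) (E q)

theorem vl_inl {E : Fin m × Fin 2 ≃ Fin N ⊕ (Σ a, Y a)} {ω : Fin N → H →ₗ[k] W}
    {u : ∀ a, Y a → W} (x : Fin N → H) (π : ∀ a, Equiv.Perm (Y a)) {q : Fin m × Fin 2} {l : Fin N}
    (h : E q = Sum.inl l) : vl E ω u x π q = ω l (x l) := by
  unfold vl
  rw [h, Sum.elim_inl]

theorem vl_inr {E : Fin m × Fin 2 ≃ Fin N ⊕ (Σ a, Y a)} {ω : Fin N → H →ₗ[k] W}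
    {u : ∀ a, Y a → W} (x : Fin N → H) (π : ∀ a, Equiv.Perm (Y a)) {q : Fin m × Fin 2}
    {y : Σ a, Y a} (h : E q = Sum.inr y) : vl E ω u x π q = u y.1 (π y.1 y.2) := by
  unfold vl
  rw [h, Sum.elim_inr]

theorem vl_symm_inl (E : Fin m × Fin 2 ≃ Fin N ⊕ (Σ a, Y a)) (ω : Fin N → H →ₗ[k] W)
    (u : ∀ a, Y a → W) (x : Fin N → H) (π : ∀ a, Equiv.Perm (Y a)) (l : Fin N) :
    vl E ω u x π (E.symm (Sum.inl l)) = ω l (x l) := vl_inl x π (E.apply_symm_apply _)

theorem vl_symm_inr (E : Fin m × Fin 2 ≃ Fin N ⊕ (Σ a, Y a)) (ω : Fin N → H →ₗ[k] W)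
    (u : ∀ a, Y a → W) (x : Fin N → H) (π : ∀ a, Equiv.Perm (Y a)) (a : A) (p : Y a) :
    vl E ω u x π (E.symm (Sum.inr ⟨a, p⟩)) = u a (π a p) := vl_inr x π (E.apply_symm_apply _)

theorem sign_sum (F : ∀ a, Y a → Y a → k) :
    ∑ π : ∀ a, Equiv.Perm (Y a), (∏ a, ((Equiv.Perm.sign (π a) : ℤ) : k)) *
      ∏ y : Σ a, Y a, F y.1 y.2 (π y.1 y.2) =
    ∏ a, Matrix.det (Matrix.of fun p y => F a y p) := by
  have h1 : ∀ a, Matrix.det (Matrix.of fun p y => F a y p) =
      ∑ π ∈ (Finset.univ : Finset (Equiv.Perm (Y a))), ((Equiv.Perm.sign π : ℤ) : k) *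
        ∏ y, F a y (π y) := by
    intro a
    rw [Matrix.det_apply']
    rfl
  rw [Finset.prod_congr rfl fun a _ => h1 a, Finset.prod_univ_sum, Fintype.piFinset_univ]
  refine Finset.sum_congr rfl fun π _ => ?_
  rw [Finset.prod_mul_distrib, Fintype.prod_sigma]

theorem recover (E : Fin m × Fin 2 ≃ Fin N ⊕ (Σ a, Y a)) (ω : Fin N → H →ₗ[k] W)
    (u : ∀ a, Y a → W) (P2 : (W →ₗ[k] W →ₗ[k] k) → Prop) (hflip : ∀ C, P2 C → P2 C.flip)
    (hvan : ∀ C, P2 C → ∀ a p a' p', C (u a p) (u a' p') = 0)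
    (B : Fin m → (W →ₗ[k] W →ₗ[k] k)) (hB : ∀ s, P2 (B s)) :
    (∀ x, ∑ π : ∀ a, Equiv.Perm (Y a), (∏ a, ((Equiv.Perm.sign (π a) : ℤ) : k)) *
      ∏ s, B s (vl E ω u x π (s, 0)) (vl E ω u x π (s, 1)) = 0) ∨
    ∃ (S : Type) (_ : Fintype S) (p2 : S × Fin 2 → Fin N) (pX : (Σ a, Y a) → Fin N)
      (C2 : S → (W →ₗ[k] W →ₗ[k] k)) (CX : (Σ a, Y a) → (W →ₗ[k] W →ₗ[k] k)),
      Function.Bijective (Sum.elim p2 pX) ∧ (∀ s, P2 (C2 s)) ∧ (∀ y, P2 (CX y)) ∧
      ∀ x, ∑ π : ∀ a, Equiv.Perm (Y a), (∏ a, ((Equiv.Perm.sign (π a) : ℤ) : k)) *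
        ∏ s, B s (vl E ω u x π (s, 0)) (vl E ω u x π (s, 1)) =
        (∏ s, C2 s (ω (p2 (s, 0)) (x (p2 (s, 0)))) (ω (p2 (s, 1)) (x (p2 (s, 1))))) *
          ∏ a, Matrix.det (Matrix.of fun (p y : Y a) =>
            CX ⟨a, y⟩ (ω (pX ⟨a, y⟩) (x (pX ⟨a, y⟩))) (u a p)) := by
  classical
  by_cases hbad : ∃ (s : Fin m) (y y' : Σ a, Y a), E (s, 0) = Sum.inr y ∧ E (s, 1) = Sum.inr y'
  · left
    obtain ⟨s, y, y', h1, h2⟩ := hbad
    intro x
    refine Finset.sum_eq_zero fun π _ => ?_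
    have h3 : ∏ s, B s (vl E ω u x π (s, 0)) (vl E ω u x π (s, 1)) = 0 := by
      refine Finset.prod_eq_zero (Finset.mem_univ s) ?_
      rw [vl_inr x π h1, vl_inr x π h2]
      exact hvan _ (hB s) _ _ _ _
    rw [h3, mul_zero]
  · right
    have h11 : ∀ ε : Fin 2, ε + 1 + 1 = ε := by decide
    have hne1 : ∀ ε : Fin 2, ε + 1 ≠ ε := by decide
    have hτ : ∀ y : Σ a, Y a, ∃ l, E ((E.symm (Sum.inr y)).1, (E.symm (Sum.inr y)).2 + 1) =
        Sum.inl l := by
      intro y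
      rcases h : E ((E.symm (Sum.inr y)).1, (E.symm (Sum.inr y)).2 + 1) with l | y'
      · exact ⟨l, rfl⟩
      · exfalso
        have h0 : E (E.symm (Sum.inr y)) = Sum.inr y := E.apply_symm_apply _
        generalize E.symm (Sum.inr y) = q at h h0
        obtain ⟨s, ε⟩ := q
        fin_cases ε
        · exact hbad ⟨s, y, y', h0, h⟩
        · exact hbad ⟨s, y', y, h, h0⟩
    choose τ hτ' using hτ
    let S : Type := {s : Fin m // (E (s, 0)).isLeft ∧ (E (s, 1)).isLeft}
    have hl : ∀ (s : S) (ε : Fin 2), ∃ l, E (s.1, ε) = Sum.inl l := by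
      rintro ⟨s, h0, h1⟩ ε
      fin_cases ε
      · exact Sum.isLeft_iff.1 h0
      · exact Sum.isLeft_iff.1 h1
    choose lm hlm using hl
    have hbij : Function.Bijective
        (Sum.elim (fun q : S × Fin 2 => lm q.1 q.2) τ) := by
      constructor
      · rintro (⟨s, ε⟩ | y) (⟨s', ε'⟩ | y') h
        · simp only [Sum.elim_inl] at h
          have h1 : E (s.1, ε) = E (s'.1, ε') := by rw [hlm, hlm, h]
          have h2 := E.injective h1
          rw [Prod.mk.injEq] at h2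
          rw [Subtype.ext h2.1, h2.2]
        · exfalso
          simp only [Sum.elim_inl, Sum.elim_inr] at h
          have h1 : E (s.1, ε) = E ((E.symm (Sum.inr y')).1, (E.symm (Sum.inr y')).2 + 1) := by
            rw [hlm, hτ', h]
          have h2 := E.injective h1
          rw [Prod.mk.injEq] at h2
          obtain ⟨l, h3⟩ : ∃ l, E (s.1, (E.symm (Sum.inr y')).2) = Sum.inl l := ⟨_, hlm s _⟩
          rw [h2.1, Prod.mk.eta, E.apply_symm_apply] at h3
          exact Sum.inr_ne_inl h3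
        · exfalso
          simp only [Sum.elim_inl, Sum.elim_inr] at h
          have h1 : E (s'.1, ε') = E ((E.symm (Sum.inr y)).1, (E.symm (Sum.inr y)).2 + 1) := by
            rw [hlm, hτ', h]
          have h2 := E.injective h1
          rw [Prod.mk.injEq] at h2
          obtain ⟨l, h3⟩ : ∃ l, E (s'.1, (E.symm (Sum.inr y)).2) = Sum.inl l := ⟨_, hlm s' _⟩
          rw [h2.1, Prod.mk.eta, E.apply_symm_apply] at h3
          exact Sum.inr_ne_inl h3
        · simp only [Sum.elim_inr] at h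
          have h1 := (hτ' y).trans ((congrArg Sum.inl h).trans (hτ' y').symm)
          have h2 := E.injective h1
          rw [Prod.mk.injEq] at h2
          have h3 : E.symm (Sum.inr y) = E.symm (Sum.inr y') :=
            Prod.ext h2.1 (add_right_cancel h2.2)
          have h4 := E.symm.injective h3
          rw [Sum.inr.injEq] at h4
          rw [h4]
      · intro l
        have h0 : E (E.symm (Sum.inl l)) = Sum.inl l := E.apply_symm_apply _
        rcases h : E ((E.symm (Sum.inl l)).1, (E.symm (Sum.inl l)).2 + 1) with l' | y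
        · have h1 : (E ((E.symm (Sum.inl l)).1, 0)).isLeft ∧
              (E ((E.symm (Sum.inl l)).1, 1)).isLeft := by
            generalize E.symm (Sum.inl l) = q at h h0
            obtain ⟨s, ε⟩ := q
            fin_cases ε
            · exact ⟨Sum.isLeft_iff.2 ⟨_, h0⟩, Sum.isLeft_iff.2 ⟨_, h⟩⟩
            · exact ⟨Sum.isLeft_iff.2 ⟨_, h⟩, Sum.isLeft_iff.2 ⟨_, h0⟩⟩
          refine ⟨Sum.inl (⟨_, h1⟩, (E.symm (Sum.inl l)).2), ?_⟩
          have h2 := hlm ⟨_, h1⟩ (E.symm (Sum.inl l)).2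
          rw [Prod.mk.eta, h0] at h2
          exact (Sum.inl_injective h2).symm
        · refine ⟨Sum.inr y, ?_⟩
          have h2 := hτ' y
          rw [← h, E.symm_apply_apply] at h2
          simp only [h11, Prod.mk.eta] at h2
          rw [h0] at h2
          exact (Sum.inl_injective h2).symm
    let CX : (Σ a, Y a) → (W →ₗ[k] W →ₗ[k] k) := fun y =>
      if (E.symm (Sum.inr y)).2 = 1 then B (E.symm (Sum.inr y)).1
      else (B (E.symm (Sum.inr y)).1).flip
    refine ⟨S, inferInstance, fun q => lm q.1 q.2, τ, fun s => B s.1, CX, hbij, fun s => hB _,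
      fun y => ?_, fun x => ?_⟩
    · by_cases h : (E.symm (Sum.inr y)).2 = 1
      · simp only [CX, if_pos h]
        exact hB _
      · simp only [CX, if_neg h]
        exact hflip _ (hB _)
    have hS : ∀ s : {s : Fin m // ¬((E (s, 0)).isLeft ∧ (E (s, 1)).isLeft)},
        ∃ y, (E.symm (Sum.inr y)).1 = s.1 := by
      rintro ⟨s, hs⟩
      rcases h0 : E (s, 0) with l | y
      · rcases h1 : E (s, 1) with l' | y
        · exact absurd ⟨Sum.isLeft_iff.2 ⟨_, h0⟩, Sum.isLeft_iff.2 ⟨_, h1⟩⟩ hs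
        · exact ⟨y, by rw [← h1, E.symm_apply_apply]⟩
      · exact ⟨y, by rw [← h0, E.symm_apply_apply]⟩
    have hT : ∀ y : Σ a, Y a, ¬((E ((E.symm (Sum.inr y)).1, 0)).isLeft ∧
        (E ((E.symm (Sum.inr y)).1, 1)).isLeft) := by
      intro y hy
      obtain ⟨l, h3⟩ : ∃ l, E ((E.symm (Sum.inr y)).1, (E.symm (Sum.inr y)).2) = Sum.inl l :=
        ⟨_, hlm ⟨_, hy⟩ _⟩
      rw [Prod.mk.eta, E.apply_symm_apply] at h3
      exact Sum.inr_ne_inl h3
    have hb2 : Function.Bijective (fun y : Σ a, Y a =>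
        (⟨(E.symm (Sum.inr y)).1, hT y⟩ :
          {s : Fin m // ¬((E (s, 0)).isLeft ∧ (E (s, 1)).isLeft)})) := by
      constructor
      · intro y y' h
        have h1 : (E.symm (Sum.inr y)).1 = (E.symm (Sum.inr y')).1 := congrArg Subtype.val h
        by_cases h2 : (E.symm (Sum.inr y)).2 = (E.symm (Sum.inr y')).2
        · have h4 := E.symm.injective (Prod.ext h1 h2)
          exact Sum.inr_injective h4
        · exfalso
          have h3 : (E.symm (Sum.inr y)).2 + 1 = (E.symm (Sum.inr y')).2 := by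
            revert h2
            generalize (E.symm (Sum.inr y)).2 = ε
            generalize (E.symm (Sum.inr y')).2 = ε'
            fin_cases ε <;> fin_cases ε' <;> simp
          have h4 := hτ' y
          rw [h3, h1, Prod.mk.eta, E.apply_symm_apply] at h4
          exact Sum.inr_ne_inl h4
      · intro s
        obtain ⟨y, hy⟩ := hS s
        exact ⟨y, Subtype.ext hy⟩
    have hprod : ∀ π : ∀ a, Equiv.Perm (Y a),
        ∏ s, B s (vl E ω u x π (s, 0)) (vl E ω u x π (s, 1)) =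
        (∏ s : S, B s.1 (ω (lm s 0) (x (lm s 0))) (ω (lm s 1) (x (lm s 1)))) *
          ∏ y : Σ a, Y a, CX y (ω (τ y) (x (τ y))) (u y.1 (π y.1 y.2)) := by
      intro π
      rw [← Fintype.prod_subtype_mul_prod_subtype
        (fun s : Fin m => (E (s, 0)).isLeft ∧ (E (s, 1)).isLeft)]
      congr 1
      · refine Finset.prod_congr rfl fun s _ => ?_
        rw [vl_inl x π (hlm s 0), vl_inl x π (hlm s 1)]
      · rw [← hb2.prod_comp]
        refine Finset.prod_congr rfl fun y _ => ?_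
        have h0 : E (E.symm (Sum.inr y)) = Sum.inr y := E.apply_symm_apply _
        have h1 := hτ' y
        simp only [CX]
        generalize E.symm (Sum.inr y) = q at h0 h1
        obtain ⟨s, ε⟩ := q
        fin_cases ε
        · have e0 : vl E ω u x π (s, 0) = u y.1 (π y.1 y.2) := vl_inr x π h0
          have e1 : vl E ω u x π (s, 1) = ω (τ y) (x (τ y)) := vl_inl x π h1
          rw [if_neg (by simp), LinearMap.flip_apply]
          change B s (vl E ω u x π (s, 0)) (vl E ω u x π (s, 1)) = _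
          rw [e0, e1]
        · have e0 : vl E ω u x π (s, 1) = u y.1 (π y.1 y.2) := vl_inr x π h0
          have e1 : vl E ω u x π (s, 0) = ω (τ y) (x (τ y)) := vl_inl x π h1
          rw [if_pos (by rfl)]
          change B s (vl E ω u x π (s, 0)) (vl E ω u x π (s, 1)) = _
          rw [e0, e1]
    have hstep : ∀ π : ∀ a, Equiv.Perm (Y a), (∏ a, ((Equiv.Perm.sign (π a) : ℤ) : k)) *
        ∏ s, B s (vl E ω u x π (s, 0)) (vl E ω u x π (s, 1)) =
        (∏ s : S, B s.1 (ω (lm s 0) (x (lm s 0))) (ω (lm s 1) (x (lm s 1)))) *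
          ((∏ a, ((Equiv.Perm.sign (π a) : ℤ) : k)) *
            ∏ y : Σ a, Y a, (fun a y p => CX ⟨a, y⟩ (ω (τ ⟨a, y⟩) (x (τ ⟨a, y⟩))) (u a p))
              y.1 y.2 (π y.1 y.2)) := by
      intro π
      rw [hprod π]
      ring
    rw [Finset.sum_congr rfl fun π _ => hstep π, ← Finset.mul_sum]
    congr 1
    exact sign_sum (k := k) (fun a y p => CX ⟨a, y⟩ (ω (τ ⟨a, y⟩) (x (τ ⟨a, y⟩))) (u a p))

end

end Pool.Agent.V1141.WT
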