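import Pool.Agent.V1141.WT.D1

/-!
# Sums of representations with pairings: the maps to the double
-/

set_option autoImplicit false
set_option linter.unusedSectionVars false

namespace Pool.Agent.V1141.WT

open Module Pool.Agent.H204R3.SP Pool.Agent.H204R3.GP Pool.Agent.V1141.OF

noncomputable section

variable {k : Type} [Field k] [CharZero k] {Γ : Type} [Group Γ] {χ : Γ →* k}
  {J : Type} [Fintype J] [DecidableEq J] {V V' : J → Type}
  [∀ j, AddCommGroup (V j)] [∀ j, Module k (V j)] [∀ j, AddCommGroup (V' j)]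
  [∀ j, Module k (V' j)]
  (ρ : ∀ j, Representation k Γ (V j)) (ρ' : ∀ j, Representation k Γ (V' j))
  (B : ∀ j, V j →ₗ[k] V' j →ₗ[k] k) (hB : ∀ j, Function.Bijective (B j).flip)
  {w : J → ℤ} (hBρ : ∀ j g v v', B j (ρ j g v) (ρ' j g v') = χ g ^ w j * B j v v')

/-- the sum of the `V j`, with an extra torus -/
def totRep : Representation k (Γ × (J → kˣ)) (∀ j, V j) where
  toFun s := LinearMap.pi fun j => ((s.2 j : kˣ) : k) • ((ρ j s.1) ∘ₗ LinearMap.proj j)
  map_one' := by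
    refine LinearMap.ext fun x => funext fun j => ?_
    simp
  map_mul' g h := by
    refine LinearMap.ext fun x => funext fun j => ?_
    simp [mul_smul]

theorem totRep_apply (s : Γ × (J → kˣ)) (x : ∀ j, V j) (j : J) :
    totRep ρ s x j = (s.2 j : k) • ρ j s.1 (x j) := rfl

theorem totRep_single (s : Γ × (J → kˣ)) (j : J) (v : V j) :
    totRep ρ s (Pi.single j v) = Pi.single j ((s.2 j : k) • ρ j s.1 v) := by
  funext j'
  rw [totRep_apply]
  by_cases h : j' = j
  · subst h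
    rw [Pi.single_eq_same, Pi.single_eq_same]
  · rw [Pi.single_eq_of_ne h, Pi.single_eq_of_ne h, map_zero, smul_zero]

theorem sumRep_apply (g : Γ) (x : ∀ j, V j × V' j) (j : J) :
    sumRep ρ ρ' g x j = (ρ j g (x j).1, ρ' j g (x j).2) := rfl

theorem sumRep_single (g : Γ) (j : J) (v : V j × V' j) :
    sumRep ρ ρ' g (Pi.single j v) = Pi.single j (ρ j g v.1, ρ' j g v.2) := by
  funext j'
  rw [sumRep_apply]
  by_cases h : j' = j
  · subst h
    rw [Pi.single_eq_same, Pi.single_eq_same]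
  · rw [Pi.single_eq_of_ne h, Pi.single_eq_of_ne h]
    simp

/-- the two kinds of components of `x` in the double -/
def ow : J ⊕ J → ((∀ j, V j × V' j) →ₗ[k] ((∀ j, V j) × Module.Dual k (∀ j, V j)))
  | Sum.inl j => LinearMap.inl k _ _ ∘ₗ LinearMap.single k V j ∘ₗ LinearMap.fst k _ _ ∘ₗ
      LinearMap.proj j
  | Sum.inr j => LinearMap.inr k _ _ ∘ₗ (LinearMap.proj j : (∀ j, V j) →ₗ[k] V j).dualMap ∘ₗ
      (B j).flip ∘ₗ LinearMap.snd k _ _ ∘ₗ LinearMap.proj j

theorem ow_inl (j : J) (x : ∀ j, V j × V' j) :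
    ow B (Sum.inl j) x = (Pi.single j (x j).1, 0) := rfl

theorem ow_inr_fst (j : J) (x : ∀ j, V j × V' j) : (ow B (Sum.inr j) x).1 = 0 := rfl

theorem ow_inr_snd (j : J) (x : ∀ j, V j × V' j) (v : ∀ j, V j) :
    (ow B (Sum.inr j) x).2 v = B j (v j) (x j).2 := rfl

/-- the equivalence of `V' j` and the dual of `V j` -/
def Eq (j : J) : V' j ≃ₗ[k] Module.Dual k (V j) := LinearEquiv.ofBijective (B j).flip (hB j)

theorem Eq_apply (j : J) (v' : V' j) (v : V j) : Eq B hB j v' v = B j v v' := rfl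

/-- the maps from the double -/
def em : J ⊕ J → (((∀ j, V j) × Module.Dual k (∀ j, V j)) →ₗ[k] (∀ j, V j × V' j))
  | Sum.inl j => LinearMap.single k (fun j => V j × V' j) j ∘ₗ LinearMap.inl k _ _ ∘ₗ
      LinearMap.proj j ∘ₗ LinearMap.fst k _ _
  | Sum.inr j => LinearMap.single k (fun j => V j × V' j) j ∘ₗ LinearMap.inr k _ _ ∘ₗ
      (Eq B hB j).symm.toLinearMap ∘ₗ (LinearMap.single k V j).dualMap ∘ₗ LinearMap.snd k _ _

theorem em_inl (j : J) (x : (∀ j, V j) × Module.Dual k (∀ j, V j)) :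
    em B hB (Sum.inl j) x = Pi.single j (x.1 j, 0) := rfl

theorem em_inr (j : J) (x : (∀ j, V j) × Module.Dual k (∀ j, V j)) :
    em B hB (Sum.inr j) x =
      Pi.single j (0, (Eq B hB j).symm (x.2 ∘ₗ LinearMap.single k V j)) := rfl

/-- the projectors -/
def pr (κ : J ⊕ J) : (∀ j, V j × V' j) →ₗ[k] (∀ j, V j × V' j) := em B hB κ ∘ₗ ow B κ

theorem pr_inl (j : J) (x : ∀ j, V j × V' j) :
    pr B hB (Sum.inl j) x = Pi.single j ((x j).1, 0) := by
  unfold pr
  rw [LinearMap.comp_apply, em_inl, ow_inl]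
  congr 2
  exact Pi.single_eq_same _ _

theorem pr_inr (j : J) (x : ∀ j, V j × V' j) :
    pr B hB (Sum.inr j) x = Pi.single j (0, (x j).2) := by
  unfold pr
  rw [LinearMap.comp_apply, em_inr]
  congr 2
  rw [LinearEquiv.symm_apply_eq]
  refine LinearMap.ext fun v => ?_
  rw [Eq_apply]
  change B j (LinearMap.single k V j v j) (x j).2 = _
  rw [LinearMap.single_apply, Pi.single_eq_same]

theorem sum_pr : ∑ κ, pr B hB κ = LinearMap.id := by
  refine LinearMap.ext fun x => ?_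
  rw [LinearMap.sum_apply, Fintype.sum_sum_type, ← Finset.sum_add_distrib, LinearMap.id_apply]
  have h : ∀ j ∈ (Finset.univ : Finset J), pr B hB (Sum.inl j) x + pr B hB (Sum.inr j) x =
      Pi.single j (x j) := by
    intro j _
    rw [pr_inl, pr_inr, ← Pi.single_add]
    congr 1
    rw [Prod.mk_add_mk, add_zero, zero_add]
  rw [Finset.sum_congr rfl h, Finset.univ_sum_single]

/-- the twists -/
def tw (w : J → ℤ) : J ⊕ J → ℤ := Sum.elim (fun _ => 0) w

/-- the index -/
def jk : J ⊕ J → J := Sum.elim id id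

/-- the signs -/
def sk : J ⊕ J → ℤ := Sum.elim (fun _ => 1) (fun _ => -1)

theorem chi_ne (χ : Γ →* k) (g : Γ) : χ g ≠ 0 := fun h => by
  have h1 : χ g * χ g⁻¹ = 1 := by rw [← map_mul, mul_inv_cancel, map_one]
  rw [h, zero_mul] at h1
  exact zero_ne_one h1

theorem rho_inv' {V : Type} [AddCommGroup V] [Module k V] (ρ : Representation k Γ V) (g : Γ)
    (v : V) : ρ g (ρ g⁻¹ v) = v := by
  rw [← Module.End.mul_apply, ← map_mul, mul_inv_cancel, map_one, Module.End.one_apply]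

include hBρ in
theorem B_inv (j : J) (g : Γ) (v : V j) (v' : V' j) :
    B j v (ρ' j g v') = χ g ^ w j * B j (ρ j g⁻¹ v) v' := by
  rw [← hBρ, rho_inv']

include hBρ in
theorem ow_rep (κ : J ⊕ J) (g : Γ) (x : ∀ j, V j × V' j) :
    ow B κ (sumRep ρ ρ' g x) = χ g ^ tw w κ • rp (totRep ρ) ((g, 1), 1) (ow B κ x) := by
  rcases κ with j | j
  · rw [ow_inl, sumRep_apply, ow_inl]
    refine Prod.ext ?_ ?_
    · rw [Prod.smul_fst, rp_fst, totRep_single]
      simp [tw]
    · refine LinearMap.ext fun v => ?_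
      rw [Prod.smul_snd, LinearMap.smul_apply, rp_snd]
      simp
  · refine Prod.ext ?_ ?_
    · rw [ow_inr_fst, Prod.smul_fst, rp_fst, ow_inr_fst]
      simp
    · refine LinearMap.ext fun v => ?_
      rw [ow_inr_snd, Prod.smul_snd, LinearMap.smul_apply, rp_snd, ow_inr_snd, sumRep_apply,
        B_inv ρ ρ' B hBρ, totRep_apply]
      simp [tw]

include hBρ in
theorem Eq_symm (j : J) (g : Γ) (y : Module.Dual k (V j)) :
    (Eq B hB j).symm (y ∘ₗ ρ j g⁻¹) = χ g ^ (-w j) • ρ' j g ((Eq B hB j).symm y) := by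
  rw [LinearEquiv.symm_apply_eq, map_smul]
  refine LinearMap.ext fun v => ?_
  rw [LinearMap.smul_apply, Eq_apply, B_inv ρ ρ' B hBρ, smul_eq_mul, ← mul_assoc,
    ← zpow_add₀ (chi_ne χ g), neg_add_cancel, zpow_zero, one_mul, ← Eq_apply B hB,
    LinearEquiv.apply_symm_apply]
  rfl

include hBρ in
theorem em_rep (κ : J ⊕ J) (s : Γ × (J → kˣ)) (u : kˣ)
    (x : (∀ j, V j) × Module.Dual k (∀ j, V j)) :
    em B hB κ (rp (totRep ρ) (s, u) x) =
      ((((s.2 (jk κ) * u) ^ sk κ : kˣ) : k) * χ s.1 ^ (-tw w κ)) •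
        sumRep ρ ρ' s.1 (em B hB κ x) := by
  rcases κ with j | j
  · rw [em_inl, em_inl, sumRep_single, rp_fst, ← Pi.single_smul]
    congr 1
    refine Prod.ext ?_ ?_
    · simp [sk, tw, jk, totRep_apply, smul_smul, mul_comm]
    · simp
  · rw [em_inr, em_inr, sumRep_single, ← Pi.single_smul]
    congr 1
    refine Prod.ext ?_ ?_
    · simp
    · have h1 : (rp (totRep ρ) (s, u) x).2 ∘ₗ LinearMap.single k V j =
          (((s.2 j * u)⁻¹ : kˣ) : k) • ((x.2 ∘ₗ LinearMap.single k V j) ∘ₗ ρ j s.1⁻¹) := by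
        refine LinearMap.ext fun v => ?_
        rw [LinearMap.comp_apply, rp_snd, LinearMap.single_apply, totRep_single]
        have h2 : (Pi.single j ((((s, u) : (Γ × (J → kˣ)) × kˣ).1⁻¹.2 j : k) •
            ρ j ((s, u) : (Γ × (J → kˣ)) × kˣ).1⁻¹.1 v) : ∀ j, V j) =
            (((s.2 j)⁻¹ : kˣ) : k) • (Pi.single j (ρ j s.1⁻¹ v) : ∀ j, V j) := by
          rw [← Pi.single_smul]
          rfl
        rw [h2, map_smul, smul_eq_mul, ← mul_assoc, ← Units.val_mul, ← mul_inv_rev]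
        rfl
      rw [h1, map_smul, Eq_symm ρ ρ' B hB hBρ, smul_smul]
      simp [sk, tw, jk]

variable {r : J → ℕ} (b : ∀ j, Basis (Fin (r j)) k (V j))

/-- the kind of a basis element -/
def kd : ((Σ j, Fin (r j)) ⊕ (Σ j, Fin (r j))) → J ⊕ J := Sum.map Sigma.fst Sigma.fst

/-- the rank -/
def rk (r : J → ℕ) : J ⊕ J → ℕ := Sum.elim r r

/-- the basis elements of a kind -/
def iy : ∀ κ : J ⊕ J, Fin (rk r κ) → ((Σ j, Fin (r j)) ⊕ (Σ j, Fin (r j)))
  | Sum.inl j => fun p => Sum.inl ⟨j, p⟩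
  | Sum.inr j => fun p => Sum.inr ⟨j, p⟩

theorem kd_iy (κ : J ⊕ J) (p : Fin (rk r κ)) : kd (iy κ p) = κ := by
  rcases κ with j | j <;> rfl

theorem iy_injective (κ : J ⊕ J) : Function.Injective (iy (r := r) κ) := by
  rcases κ with j | j
  · intro p q h
    have h1 : (⟨j, p⟩ : Σ j, Fin (r j)) = ⟨j, q⟩ := Sum.inl_injective h
    exact eq_of_heq (Sigma.mk.inj h1).2
  · intro p q h
    have h1 : (⟨j, p⟩ : Σ j, Fin (r j)) = ⟨j, q⟩ := Sum.inr_injective h
    exact eq_of_heq (Sigma.mk.inj h1).2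

theorem eb_inl' (i : Σ j, Fin (r j)) :
    eb (Pi.basis b) (Sum.inl i) = (Pi.single i.1 (b i.1 i.2), 0) := by
  rw [eb_inl, Pi.basis_apply]

theorem em_eb {κ : J ⊕ J} {y : (Σ j, Fin (r j)) ⊕ (Σ j, Fin (r j))}
    (h : em B hB κ (eb (Pi.basis b) y) ≠ 0) : kd y = κ := by
  rcases κ with j | j <;> rcases y with i | i
  · by_contra hne
    apply h
    have hne' : j ≠ i.1 := fun h' => hne (by rw [h']; rfl)
    rw [em_inl, eb_inl', show ((((Pi.single i.1 (b i.1 i.2) : ∀ j, V j),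
      (0 : Module.Dual k (∀ j, V j))) : (∀ j, V j) × Module.Dual k (∀ j, V j)).1 j) = 0 from
        Pi.single_eq_of_ne hne' _]
    exact Pi.single_zero j
  · exfalso
    apply h
    rw [em_inl, eb_inr]
    exact Pi.single_zero j
  · exfalso
    apply h
    rw [em_inr, eb_inl', LinearMap.zero_comp, map_zero]
    exact Pi.single_zero j
  · by_contra hne
    apply h
    have hne' : i.1 ≠ j := fun h' => hne (by rw [← h']; rfl)
    rw [em_inr, eb_inr]
    have h1 : (Pi.basis b).coord i ∘ₗ LinearMap.single k V j = 0 := by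
      refine LinearMap.ext fun v => ?_
      rw [LinearMap.comp_apply, LinearMap.single_apply, Basis.coord_apply, Pi.basis_repr,
        Pi.single_eq_of_ne hne', map_zero]
      rfl
    rw [h1, map_zero]
    exact Pi.single_zero j

end

end Pool.Agent.V1141.WT
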