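import Pool.Agent.V1141.WT.D3

/-!
# Sums of representations with pairings: determinants and factors
-/

set_option autoImplicit false
set_option linter.unusedSectionVars false

namespace Pool.Agent.V1141.WT

open Module Pool.Agent.H204R3.SP Pool.Agent.H204R3.GP Pool.Agent.V1141.OF

noncomputable section

/-- The product of multilinear forms in different variables. -/
def sigmaProd {k H : Type} [Field k] [AddCommGroup H] [Module k H] {A : Type} [Fintype A]
    {I : A → Type} (F : ∀ a, MultilinearMap k (fun _ : I a => H) k) :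
    MultilinearMap k (fun _ : (Σ a, I a) => H) k where
  toFun v := ∏ a, F a (fun i => v ⟨a, i⟩)
  map_update_add' := by
    classical
    intro inst v q x y
    obtain ⟨a, i⟩ := q
    have h1 : ∀ (z : H) (a' : A), a' ≠ a → (fun i' => Function.update v ⟨a, i⟩ z ⟨a', i'⟩) =
        fun i' => v ⟨a', i'⟩ := by
      intro z a' h
      funext i'
      rw [Function.update_of_ne]
      intro h'
      exact h (congrArg Sigma.fst h')
    have h2 : ∀ z : H, (fun i' => Function.update v ⟨a, i⟩ z ⟨a, i'⟩) =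
        Function.update (fun i' => v ⟨a, i'⟩) i z := by
      intro z
      funext i'
      by_cases h : i' = i
      · subst h
        rw [Function.update_self, Function.update_self]
      · rw [Function.update_of_ne h, Function.update_of_ne]
        intro h'
        rw [Sigma.mk.injEq] at h'
        exact h (eq_of_heq h'.2)
    have h3 : ∀ z : H, ∏ a', F a' (fun i' => Function.update v ⟨a, i⟩ z ⟨a', i'⟩) =
        F a (Function.update (fun i' => v ⟨a, i'⟩) i z) *
          ∏ a' ∈ Finset.univ.erase a, F a' (fun i' => v ⟨a', i'⟩) := by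
      intro z
      rw [← Finset.mul_prod_erase Finset.univ _ (Finset.mem_univ a), h2]
      congr 1
      refine Finset.prod_congr rfl fun a' ha' => ?_
      rw [h1 z a' (Finset.ne_of_mem_erase ha')]
    rw [h3, h3, h3, MultilinearMap.map_update_add, add_mul]
  map_update_smul' := by
    classical
    intro inst v q c x
    obtain ⟨a, i⟩ := q
    have h1 : ∀ (z : H) (a' : A), a' ≠ a → (fun i' => Function.update v ⟨a, i⟩ z ⟨a', i'⟩) =
        fun i' => v ⟨a', i'⟩ := by
      intro z a' h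
      funext i'
      rw [Function.update_of_ne]
      intro h'
      exact h (congrArg Sigma.fst h')
    have h2 : ∀ z : H, (fun i' => Function.update v ⟨a, i⟩ z ⟨a, i'⟩) =
        Function.update (fun i' => v ⟨a, i'⟩) i z := by
      intro z
      funext i'
      by_cases h : i' = i
      · subst h
        rw [Function.update_self, Function.update_self]
      · rw [Function.update_of_ne h, Function.update_of_ne]
        intro h'
        rw [Sigma.mk.injEq] at h'
        exact h (eq_of_heq h'.2)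
    have h3 : ∀ z : H, ∏ a', F a' (fun i' => Function.update v ⟨a, i⟩ z ⟨a', i'⟩) =
        F a (Function.update (fun i' => v ⟨a, i'⟩) i z) *
          ∏ a' ∈ Finset.univ.erase a, F a' (fun i' => v ⟨a', i'⟩) := by
      intro z
      rw [← Finset.mul_prod_erase Finset.univ _ (Finset.mem_univ a), h2]
      congr 1
      refine Finset.prod_congr rfl fun a' ha' => ?_
      rw [h1 z a' (Finset.ne_of_mem_erase ha')]
    rw [h3, h3, MultilinearMap.map_update_smul, smul_mul_assoc]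

theorem sigmaProd_apply {k H : Type} [Field k] [AddCommGroup H] [Module k H] {A : Type} [Fintype A]
    {I : A → Type} (F : ∀ a, MultilinearMap k (fun _ : I a => H) k) (v : (Σ a, I a) → H) :
    sigmaProd F v = ∏ a, F a (fun i => v ⟨a, i⟩) := rfl

variable {k : Type} [Field k] [CharZero k] {Γ : Type} [Group Γ] {χ : Γ →* k}
  {J : Type} [Fintype J] [DecidableEq J] {V V' : J → Type}
  [∀ j, AddCommGroup (V j)] [∀ j, Module k (V j)] [∀ j, AddCommGroup (V' j)]
  [∀ j, Module k (V' j)]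
  (ρ : ∀ j, Representation k Γ (V j)) (ρ' : ∀ j, Representation k Γ (V' j))
  (B : ∀ j, V j →ₗ[k] V' j →ₗ[k] k) (hB : ∀ j, Function.Bijective (B j).flip)
  {w : J → ℤ} (hBρ : ∀ j g v v', B j (ρ j g v) (ρ' j g v') = χ g ^ w j * B j v v')
  {r : J → ℕ} (b : ∀ j, Basis (Fin (r j)) k (V j))

/-- the determinant of the coordinates of the kind `κ` -/
def dt (κ : J ⊕ J) : MultilinearMap k (fun _ : Fin (rk r κ) =>
    ((∀ j, V j) × Module.Dual k (∀ j, V j))) k :=
  (Matrix.detRowAlternating (R := k) (n := Fin (rk r κ))).toMultilinearMap.compLinearMap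
    (fun _ => LinearMap.pi fun p => (eb (Pi.basis b)).coord (iy κ p))

theorem dt_apply (κ : J ⊕ J) (v : Fin (rk r κ) → ((∀ j, V j) × Module.Dual k (∀ j, V j))) :
    dt b κ v = Matrix.det (Matrix.of fun q p => (eb (Pi.basis b)).coord (iy κ p) (v q)) := rfl

theorem dt_perm (κ : J ⊕ J) (π : Equiv.Perm (Fin (rk r κ))) :
    dt b κ (fun q => eb (Pi.basis b) (iy κ (π q))) = ((Equiv.Perm.sign π : ℤ) : k) := by
  rw [dt_apply]
  have h1 : (Matrix.of fun q p => (eb (Pi.basis b)).coord (iy κ p)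
      (eb (Pi.basis b) (iy κ (π q)))) = (1 : Matrix (Fin (rk r κ)) (Fin (rk r κ)) k).submatrix π id := by
    ext q p
    rw [Matrix.of_apply, Matrix.submatrix_apply, Basis.coord_apply, Basis.repr_self,
      Finsupp.single_apply, Matrix.one_apply, id]
    simp only [(iy_injective κ).eq_iff]
  rw [h1, Matrix.det_permute, Matrix.det_one, mul_one]

/-- the matrix of the kind `κ` -/
def mt : ∀ (κ : J ⊕ J) (_ : Γ), Matrix (Fin (rk r κ)) (Fin (rk r κ)) k
  | Sum.inl j => fun g => LinearMap.toMatrix (b j) (b j) (ρ j g)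
  | Sum.inr j => fun g => (LinearMap.toMatrix (b j) (b j) (ρ j g⁻¹)).transpose

theorem coord_inl (i : Σ j, Fin (r j)) (x : (∀ j, V j) × Module.Dual k (∀ j, V j)) :
    (eb (Pi.basis b)).coord (Sum.inl i) x = (b i.1).repr (x.1 i.1) i.2 := by
  rw [Basis.coord_apply]
  unfold eb
  rw [Basis.prod_repr_inl, Pi.basis_repr]

theorem coord_inr (i : Σ j, Fin (r j)) (x : (∀ j, V j) × Module.Dual k (∀ j, V j)) :
    (eb (Pi.basis b)).coord (Sum.inr i) x = x.2 (Pi.single i.1 (b i.1 i.2)) := by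
  rw [Basis.coord_apply]
  unfold eb
  rw [Basis.prod_repr_inr, Basis.dualBasis_repr, Pi.basis_apply]

theorem coord_rep (κ : J ⊕ J) (s : Γ × (J → kˣ)) (u : kˣ)
    (x : (∀ j, V j) × Module.Dual k (∀ j, V j))
    (p : Fin (rk r κ)) : (eb (Pi.basis b)).coord (iy κ p) (rp (totRep ρ) (s, u) x) =
      (((s.2 (jk κ) * u) ^ sk κ : kˣ) : k) *
        ∑ p', mt ρ b κ s.1 p p' * (eb (Pi.basis b)).coord (iy κ p') x := by
  obtain ⟨g, t⟩ := s
  rcases κ with j | j
  · change (eb (Pi.basis b)).coord (Sum.inl ⟨j, p⟩) (rp (totRep ρ) ((g, t), u) x) =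
      (((t j * u) ^ (1 : ℤ) : kˣ) : k) *
      ∑ p', LinearMap.toMatrix (b j) (b j) (ρ j g) p p' *
        (eb (Pi.basis b)).coord (Sum.inl ⟨j, p'⟩) x
    rw [coord_inl, rp_fst, zpow_one, Pi.smul_apply, totRep_apply, map_smul, Finsupp.smul_apply,
      smul_eq_mul, map_smul, Finsupp.smul_apply, smul_eq_mul, ← mul_assoc,
      ← LinearMap.toMatrix_mulVec_repr (b j) (b j) (ρ j g)]
    rw [Units.val_mul, mul_comm ((t j : kˣ) : k)]
    congr 1
  · change (eb (Pi.basis b)).coord (Sum.inr ⟨j, p⟩) (rp (totRep ρ) ((g, t), u) x) =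
      (((t j * u) ^ (-1 : ℤ) : kˣ) : k) * ∑ p', LinearMap.toMatrix (b j) (b j) (ρ j g⁻¹) p' p *
        (eb (Pi.basis b)).coord (Sum.inr ⟨j, p'⟩) x
    rw [coord_inr, rp_snd, zpow_neg_one, totRep_single]
    have h2 : (Pi.single j ((((((g, t), u) : (Γ × (J → kˣ)) × kˣ).1⁻¹.2 j : kˣ) : k) •
        ρ j (((g, t), u) : (Γ × (J → kˣ)) × kˣ).1⁻¹.1 (b j p)) : ∀ j, V j) =
        (((t j)⁻¹ : kˣ) : k) • (Pi.single j (ρ j g⁻¹ (b j p)) : ∀ j, V j) := by
      rw [← Pi.single_smul]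
      rfl
    rw [h2, map_smul, smul_eq_mul, ← mul_assoc, ← Units.val_mul, ← mul_inv_rev]
    congr 1
    conv_lhs => rw [← (b j).sum_repr (ρ j g⁻¹ (b j p))]
    have h1 : (Pi.single j (∑ i, (b j).repr (ρ j g⁻¹ (b j p)) i • b j i) : ∀ j, V j) =
        ∑ i, (b j).repr (ρ j g⁻¹ (b j p)) i • (Pi.single j (b j i) : ∀ j, V j) := by
      have := map_sum (LinearMap.single k V j)
        (fun i => (b j).repr (ρ j g⁻¹ (b j p)) i • b j i) Finset.univ
      simp only [LinearMap.single_apply, map_smul] at this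
      exact this
    rw [h1, map_sum]
    refine Finset.sum_congr rfl fun p' _ => ?_
    rw [map_smul, smul_eq_mul, coord_inr, LinearMap.toMatrix_apply]

theorem dt_rep (κ : J ⊕ J) (s : Γ × (J → kˣ)) (u : kˣ)
    (v : Fin (rk r κ) → ((∀ j, V j) × Module.Dual k (∀ j, V j))) :
    dt b κ (fun q => rp (totRep ρ) (s, u) (v q)) =
      (((s.2 (jk κ) * u) ^ (sk κ * rk r κ) : kˣ) : k) * ((mt ρ b κ s.1).det * dt b κ v) := by
  rw [dt_apply, dt_apply]
  have h1 : (Matrix.of fun q p => (eb (Pi.basis b)).coord (iy κ p) (rp (totRep ρ) (s, u) (v q))) =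
      (((s.2 (jk κ) * u) ^ sk κ : kˣ) : k) •
        ((Matrix.of fun q p => (eb (Pi.basis b)).coord (iy κ p) (v q)) *
        (mt ρ b κ s.1).transpose) := by
    ext q p
    rw [Matrix.of_apply, coord_rep, Matrix.smul_apply, Matrix.mul_apply, smul_eq_mul]
    congr 1
    refine Finset.sum_congr rfl fun p' _ => ?_
    rw [Matrix.of_apply, Matrix.transpose_apply, mul_comm]
  rw [h1, Matrix.det_smul, Matrix.det_mul, Matrix.det_transpose, Fintype.card_fin, zpow_mul,
    zpow_natCast, Units.val_pow_eq_pow_val]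
  ring

theorem stable (κ : J ⊕ J) (g : Γ) (p : Fin (rk r κ)) :
    rp (totRep ρ) ((g, 1), 1) (eb (Pi.basis b) (iy κ p)) =
      ∑ p', mt ρ b κ g p' p • eb (Pi.basis b) (iy κ p') := by
  rcases κ with j | j
  · change rp (totRep ρ) ((g, 1), 1) (eb (Pi.basis b) (Sum.inl ⟨j, p⟩)) =
      ∑ p', LinearMap.toMatrix (b j) (b j) (ρ j g) p' p • eb (Pi.basis b) (Sum.inl ⟨j, p'⟩)
    refine Prod.ext ?_ ?_
    · rw [rp_fst, eb_inl', totRep_single, Prod.fst_sum]
      simp only [Prod.smul_fst, eb_inl', Units.val_one, one_smul, Pi.one_apply]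
      conv_lhs => rw [← (b j).sum_repr (ρ j g (b j p))]
      have := map_sum (LinearMap.single k V j)
        (fun i => (b j).repr (ρ j g (b j p)) i • b j i) Finset.univ
      simp only [LinearMap.single_apply, map_smul] at this
      rw [this]
      refine Finset.sum_congr rfl fun p' _ => ?_
      rw [LinearMap.toMatrix_apply]
    · refine LinearMap.ext fun v => ?_
      rw [rp_snd, eb_inl', Prod.snd_sum]
      simp only [Prod.smul_snd, eb_inl']
      simp
  · change rp (totRep ρ) ((g, 1), 1) (eb (Pi.basis b) (Sum.inr ⟨j, p⟩)) =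
      ∑ p', LinearMap.toMatrix (b j) (b j) (ρ j g⁻¹) p p' • eb (Pi.basis b) (Sum.inr ⟨j, p'⟩)
    refine Prod.ext ?_ ?_
    · rw [rp_fst, eb_inr, Prod.fst_sum]
      simp only [Prod.smul_fst, eb_inr]
      simp
    · refine (Pi.basis b).ext fun i => ?_
      rw [rp_snd, eb_inr, Prod.snd_sum, LinearMap.sum_apply]
      simp only [Prod.smul_snd, eb_inr, LinearMap.smul_apply, smul_eq_mul, inv_one, Units.val_one,
        one_mul]
      obtain ⟨j', q⟩ := i
      rw [Pi.basis_apply, totRep_single, Basis.coord_apply, Pi.basis_repr]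
      have hone : (((((g, 1), 1) : (Γ × (J → kˣ)) × kˣ).1⁻¹.2 j' : kˣ) : k) •
          ρ j' (((g, 1), 1) : (Γ × (J → kˣ)) × kˣ).1⁻¹.1 (b j' q) = ρ j' g⁻¹ (b j' q) := by
        simp
      rw [hone]
      have hc : ∀ p' : Fin (r j), (Pi.basis b).coord ⟨j, p'⟩
          ((Pi.single j' (b j' q)) : ∀ j, V j) = if (⟨j', q⟩ : Σ j, Fin (r j)) = ⟨j, p'⟩ then 1 else 0 := by
        intro p'
        have h0 : ((Pi.single j' (b j' q)) : ∀ j, V j) = Pi.basis b ⟨j', q⟩ := by
          rw [Pi.basis_apply]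
        rw [h0, Basis.coord_apply, Basis.repr_self, Finsupp.single_apply]
      change (b j).repr ((Pi.single j' (ρ j' g⁻¹ (b j' q)) : ∀ j, V j) j) p =
        ∑ x, LinearMap.toMatrix (b j) (b j) (ρ j g⁻¹) p x *
          (Pi.basis b).coord ⟨j, x⟩ (Pi.single j' (b j' q))
      simp only [hc]
      by_cases h : j' = j
      · subst h
        rw [Pi.single_eq_same, Finset.sum_eq_single q]
        · rw [if_pos rfl, mul_one, LinearMap.toMatrix_apply]
        · intro x _ hx
          rw [if_neg, mul_zero]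
          intro h'
          rw [Sigma.mk.injEq] at h'
          exact hx (eq_of_heq h'.2).symm
        · intro h
          exact absurd (Finset.mem_univ _) h
      · rw [Pi.single_eq_of_ne (Ne.symm h), map_zero, Finsupp.zero_apply]
        symm
        refine Finset.sum_eq_zero fun x _ => ?_
        rw [if_neg, mul_zero]
        intro h'
        exact h (congrArg Sigma.fst h')

variable {T : Set J} {e : J → ℤ} {Δ₀ : Subgroup Γ} (hΔ₀ : Δ₀.FiniteIndex)
  (hdet : ∀ g ∈ Δ₀, ∀ j ∈ T, LinearMap.det (ρ j g) = χ g ^ e j)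

/-- the determinant characters -/
def ek (e : J → ℤ) : J ⊕ J → ℤ := Sum.elim e (fun j => -e j)

theorem chi_inv (χ : Γ →* k) (g : Γ) : χ g⁻¹ = (χ g)⁻¹ := by
  refine eq_inv_of_mul_eq_one_left ?_
  rw [← map_mul, inv_mul_cancel, map_one]

include hdet in
theorem det_mt {κ : J ⊕ J} (hκ : jk κ ∈ T) {g : Γ} (hg : g ∈ Δ₀) :
    (mt ρ b κ g).det = χ g ^ ek e κ := by
  rcases κ with j | j
  · change (LinearMap.toMatrix (b j) (b j) (ρ j g)).det = χ g ^ e j
    rw [LinearMap.det_toMatrix]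
    exact hdet g hg j hκ
  · change (LinearMap.toMatrix (b j) (b j) (ρ j g⁻¹)).transpose.det = χ g ^ (-e j)
    rw [Matrix.det_transpose, LinearMap.det_toMatrix, hdet _ (Δ₀.inv_mem hg) j hκ, chi_inv,
      inv_zpow', zpow_neg]

/-- the inclusion -/
def inc (k : Type) [Field k] (Γ : Type) [Group Γ] (J : Type) : Γ →* (Γ × (J → kˣ)) × kˣ :=
  (MonoidHom.inl (Γ × (J → kˣ)) kˣ).comp (MonoidHom.inl Γ (J → kˣ))

theorem finiteIndex_two {Δ : Subgroup ((Γ × (J → kˣ)) × kˣ)} (hΔ : Δ.FiniteIndex) :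
    (Δ.comap (inc k Γ J)).FiniteIndex := by
  have := hΔ
  refine ⟨?_⟩
  rw [Subgroup.index_comap]
  exact (inferInstance : (Δ.subgroupOf (inc k Γ J).range).FiniteIndex).index_ne_zero

/-- factors of degree two -/
def f2 (C : ((∀ j, V j) × Module.Dual k (∀ j, V j)) →ₗ[k]
    ((∀ j, V j) × Module.Dual k (∀ j, V j)) →ₗ[k] k) (κ₀ κ₁ : J ⊕ J) :
    MultilinearMap k (fun _ : Fin 2 => (∀ j, V j × V' j)) k :=
  bil2 (C.compl₁₂ (ow B κ₀) (ow B κ₁))

theorem f2_apply (C : ((∀ j, V j) × Module.Dual k (∀ j, V j)) →ₗ[k]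
    ((∀ j, V j) × Module.Dual k (∀ j, V j)) →ₗ[k] k) (κ₀ κ₁ : J ⊕ J)
    (z : Fin 2 → (∀ j, V j × V' j)) : f2 B C κ₀ κ₁ z = C (ow B κ₀ (z 0)) (ow B κ₁ (z 1)) := rfl

include hBρ in
theorem f2_tate {C : ((∀ j, V j) × Module.Dual k (∀ j, V j)) →ₗ[k]
    ((∀ j, V j) × Module.Dual k (∀ j, V j)) →ₗ[k] k} (hC : IsTate2 (rp (totRep ρ)) 1 C)
    (κ₀ κ₁ : J ⊕ J) : IsTateForm (sumRep ρ ρ') χ (tw w κ₀ + tw w κ₁) (f2 B C κ₀ κ₁) := by
  obtain ⟨Δ, hΔ, h⟩ := hC
  refine ⟨_, finiteIndex_two hΔ, fun g hg z => ?_⟩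
  rw [f2_apply, f2_apply, ow_rep ρ ρ' B hBρ, ow_rep ρ ρ' B hBρ, map_smul, map_smul,
    LinearMap.smul_apply, smul_eq_mul, smul_eq_mul, zpow_add₀ (chi_ne χ g)]
  have h1 := h ((g, 1), 1) hg (ow B κ₀ (z 0)) (ow B κ₁ (z 1))
  rw [h1, MonoidHom.one_apply]
  ring

/-- factors of determinant type -/
def fD (κ : J ⊕ J) (C : Fin (rk r κ) → (((∀ j, V j) × Module.Dual k (∀ j, V j)) →ₗ[k]
    ((∀ j, V j) × Module.Dual k (∀ j, V j)) →ₗ[k] k)) (κ' : Fin (rk r κ) → J ⊕ J) :
    MultilinearMap k (fun _ : Fin (rk r κ) => (∀ j, V j × V' j)) k :=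
  (Matrix.detRowAlternating (R := k) (n := Fin (rk r κ))).toMultilinearMap.compLinearMap
    (fun y => LinearMap.pi fun p => (C y).flip (eb (Pi.basis b) (iy κ p)) ∘ₗ ow B (κ' y))

theorem fD_apply (κ : J ⊕ J) (C : Fin (rk r κ) → (((∀ j, V j) × Module.Dual k (∀ j, V j)) →ₗ[k]
    ((∀ j, V j) × Module.Dual k (∀ j, V j)) →ₗ[k] k)) (κ' : Fin (rk r κ) → J ⊕ J)
    (z : Fin (rk r κ) → (∀ j, V j × V' j)) : fD B b κ C κ' z =
      Matrix.det (Matrix.of fun p y => C y (ow B (κ' y) (z y)) (eb (Pi.basis b) (iy κ p))) := by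
  rw [← Matrix.det_transpose]
  rfl

include hBρ hΔ₀ hdet in
theorem fD_tate {κ : J ⊕ J} (hκ : jk κ ∈ T)
    {C : Fin (rk r κ) → (((∀ j, V j) × Module.Dual k (∀ j, V j)) →ₗ[k]
    ((∀ j, V j) × Module.Dual k (∀ j, V j)) →ₗ[k] k)} (hC : ∀ y, IsTate2 (rp (totRep ρ)) 1 (C y))
    (κ' : Fin (rk r κ) → J ⊕ J) :
    IsTateForm (sumRep ρ ρ') χ (∑ y, tw w (κ' y) - ek e κ) (fD B b κ C κ') := by
  choose Δ hΔ h using hC
  have hfi : (⨅ y, (Δ y).comap (inc k Γ J)).FiniteIndex := by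
    have : ∀ y, ((Δ y).comap (inc k Γ J)).FiniteIndex := fun y => finiteIndex_two (hΔ y)
    exact Subgroup.finiteIndex_iInf this
  have := hΔ₀
  have := hfi
  refine ⟨Δ₀ ⊓ ⨅ y, (Δ y).comap (inc k Γ J), inferInstance, fun g hg z => ?_⟩
  obtain ⟨hg0, hg1⟩ := Subgroup.mem_inf.1 hg
  rw [Subgroup.mem_iInf] at hg1
  rw [fD_apply, fD_apply]
  have h1 : (Matrix.of fun p y => C y (ow B (κ' y) (sumRep ρ ρ' g (z y)))
      (eb (Pi.basis b) (iy κ p))) =
      (mt ρ b κ g⁻¹).transpose * (Matrix.of fun p y => C y (ow B (κ' y) (z y))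
        (eb (Pi.basis b) (iy κ p))) * Matrix.diagonal (fun y => χ g ^ tw w (κ' y)) := by
    ext p y
    rw [Matrix.mul_diagonal, Matrix.mul_apply, Matrix.of_apply, ow_rep ρ ρ' B hBρ, map_smul,
      LinearMap.smul_apply, smul_eq_mul, mul_comm]
    congr 1
    have h2 := h y ((g, 1), 1) (hg1 y) (ow B (κ' y) (z y))
      (rp (totRep ρ) ((g⁻¹, 1), 1) (eb (Pi.basis b) (iy κ p)))
    have h3 : rp (totRep ρ) ((g, 1), 1) (rp (totRep ρ) ((g⁻¹, 1), 1)
        (eb (Pi.basis b) (iy κ p))) = eb (Pi.basis b) (iy κ p) := by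
      rw [← Module.End.mul_apply, ← map_mul]
      have : (((g, 1), 1) : (Γ × (J → kˣ)) × kˣ) * ((g⁻¹, 1), 1) = 1 := by
        rw [Prod.mk_mul_mk, Prod.mk_mul_mk, mul_inv_cancel, mul_one, mul_one]
        rfl
      rw [this, map_one, Module.End.one_apply]
    rw [h3, MonoidHom.one_apply, one_mul] at h2
    rw [h2, stable, map_sum]
    refine Finset.sum_congr rfl fun p' _ => ?_
    rw [map_smul, smul_eq_mul, Matrix.transpose_apply, Matrix.of_apply]
  rw [h1, Matrix.det_mul, Matrix.det_mul, Matrix.det_transpose, Matrix.det_diagonal,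
    det_mt ρ b hdet hκ (Δ₀.inv_mem hg0), chi_inv, sub_eq_add_neg, zpow_add₀ (chi_ne χ g),
    inv_zpow']
  have h4 : ∏ y, χ g ^ tw w (κ' y) = χ g ^ ∑ y, tw w (κ' y) := by
    have h5 := prod_zpow_sum (Finset.univ : Finset (Fin (rk r κ))) (Units.mk0 (χ g) (chi_ne χ g))
      (fun y => tw w (κ' y))
    have h6 := congrArg (fun u : kˣ => (u : k)) h5
    simp only [Units.coe_prod, Units.val_zpow_eq_zpow_val, Units.val_mk0] at h6
    exact h6
  rw [h4]
  ring

end

end Pool.Agent.V1141.WT
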