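import Pool.Agent.V1141.WT.D2
import Pool.Agent.V1141.WT.D4

/-!
# Sums of representations with pairings: weights and the big form
-/

set_option autoImplicit false
set_option linter.unusedSectionVars false

namespace Pool.Agent.V1141.WT

open Module Pool.Agent.H204R3.SP Pool.Agent.H204R3.GP Pool.Agent.V1141.OF

noncomputable section

variable {k : Type} [Field k] [CharZero k] {Γ : Type} [Group Γ] {χ : Γ →* k}
  {J : Type} [Fintype J] [DecidableEq J] {V V' : J → Type}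
  [∀ j, AddCommGroup (V j)] [∀ j, Module k (V j)] [∀ j, AddCommGroup (V' j)]
  [∀ j, Module k (V' j)]
  (ρ : ∀ j, Representation k Γ (V j)) (ρ' : ∀ j, Representation k Γ (V' j))
  (B : ∀ j, V j →ₗ[k] V' j →ₗ[k] k) (hB : ∀ j, Function.Bijective (B j).flip)
  {w : J → ℤ} (hBρ : ∀ j g v v', B j (ρ j g v) (ρ' j g v') = χ g ^ w j * B j v v')
  {r : J → ℕ} (b : ∀ j, Basis (Fin (r j)) k (V j))
  {T : Set J} {e : J → ℤ} {Δ₀ : Subgroup Γ} (hΔ₀ : Δ₀.FiniteIndex)
  (hdet : ∀ g ∈ Δ₀, ∀ j ∈ T, LinearMap.det (ρ j g) = χ g ^ e j)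
  {γ : Γ} {α : ∀ j, Fin (r j) → k} (hb : ∀ j i, ρ j γ (b j i) = α j i • b j i)
  (hα0 : ∀ j i, α j i ≠ 0) (hr : ∀ j, 0 < r j)
  (hind : ∀ (m : ∀ j, Fin (r j) → ℤ) (c : ℤ), ∏ j, ∏ i, α j i ^ m j i = χ γ ^ c →
    ∃ d : J → ℤ, (∀ j i, m j i = d j) ∧ (∀ j, j ∉ T → d j = 0) ∧ c = ∑ j, d j * e j)

include hb in
theorem tot_gamma (i : Σ j, Fin (r j)) :
    totRep ρ ((γ, 1) : Γ × (J → kˣ)) (Pi.basis b i) = α i.1 i.2 • Pi.basis b i := by
  rw [Pi.basis_apply, totRep_single]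
  change Pi.single i.1 (((1 : kˣ) : k) • ρ i.1 γ (b i.1 i.2)) = _
  rw [Units.val_one, one_smul, hb, Pi.single_smul]

/-- elements of the torus -/
def tau (k Γ : Type) [Field k] [CharZero k] [Group Γ] {J : Type} [DecidableEq J] (j : J) :
    Γ × (J → kˣ) := (1, Pi.mulSingle j (Units.mk0 2 two_ne_zero))

theorem tot_tau (j : J) (i : Σ j, Fin (r j)) :
    totRep ρ (tau k Γ j) (Pi.basis b i) = (if i.1 = j then (2 : k) else 1) • Pi.basis b i := by
  rw [Pi.basis_apply, totRep_single]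
  change Pi.single i.1 (((Pi.mulSingle j (Units.mk0 2 two_ne_zero) : J → kˣ) i.1 : k) •
    ρ i.1 1 (b i.1 i.2)) = _
  rw [map_one, Module.End.one_apply, Pi.single_smul]
  congr 1
  by_cases h : i.1 = j
  · rw [if_pos h, ← h, Pi.mulSingle_eq_same, Units.val_mk0]
  · rw [if_neg h, Pi.mulSingle_eq_of_ne h, Units.val_one]

theorem sum_block (f : (Σ j, Fin (r j)) → ℤ) (j : J) :
    ∑ i : Σ j, Fin (r j), (if i.1 = j then f i else 0) = ∑ p, f ⟨j, p⟩ := by
  rw [Fintype.sum_sigma, Finset.sum_eq_single j]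
  · refine Finset.sum_congr rfl fun p _ => ?_
    rw [if_pos rfl]
  · intro j' _ h
    refine Finset.sum_eq_zero fun p _ => ?_
    rw [if_neg h]
  · intro h
    exact absurd (Finset.mem_univ _) h

include hr hind in
theorem rat_of_ind (m : (Σ j, Fin (r j)) → ℤ)
    (hm : ∀ j, ∑ i : Σ j, Fin (r j), (if i.1 = j then m i else 0) = 0)
    (hprod : ∏ i : Σ j, Fin (r j), α i.1 i.2 ^ m i = 1) : m = 0 := by
  obtain ⟨d, h1, -, -⟩ := hind (fun j i => m ⟨j, i⟩) 0 (by
    rw [zpow_zero, ← hprod, Fintype.prod_sigma])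
  have h2 : ∀ j, d j = 0 := by
    intro j
    have h3 := hm j
    rw [sum_block, Finset.sum_congr rfl fun p _ => h1 j p, Finset.sum_const, Finset.card_univ,
      Fintype.card_fin, nsmul_eq_mul] at h3
    rcases mul_eq_zero.1 h3 with h4 | h4
    · exact absurd (by exact_mod_cast h4) (hr j).ne'
    · exact h4
  funext i
  obtain ⟨j, p⟩ := i
  exact (h1 j p).trans (h2 j)

include hb hα0 hr hind in
theorem big_mem {m : ℕ}
    (φ : MultilinearMap k (fun _ : Fin m × Fin 2 => (∀ j, V j) × Module.Dual k (∀ j, V j)) k)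
    (hφ : IsTate (rp (totRep ρ)) 1 m φ) : φ ∈ Submodule.span k (PT (rp (totRep ρ)) 1 m) :=
  double_mem (totRep ρ) (α := fun i : Σ j, Fin (r j) => α i.1 i.2) (Pi.basis b)
    (tot_gamma ρ b hb) (fun i => hα0 _ _) Sigma.fst (tau k Γ) (tot_tau ρ b)
    (rat_of_ind hr hind) φ hφ

include hb hα0 hr hind in
theorem big_van {C : ((∀ j, V j) × Module.Dual k (∀ j, V j)) →ₗ[k]
    ((∀ j, V j) × Module.Dual k (∀ j, V j)) →ₗ[k] k} (hC : IsTate2 (rp (totRep ρ)) 1 C)
    {x y : (Σ j, Fin (r j)) ⊕ (Σ j, Fin (r j))} (h : kd y ≠ Sum.swap (kd x)) :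
    C (eb (Pi.basis b) x) (eb (Pi.basis b) y) = 0 :=
  two_van (totRep ρ) (α := fun i : Σ j, Fin (r j) => α i.1 i.2) (Pi.basis b)
    (tot_gamma ρ b hb) (fun i => hα0 _ _) Sigma.fst (tau k Γ) (tot_tau ρ b)
    (rat_of_ind hr hind) hC (fun h' => h (by rw [h']; rcases x with i | i <;> rfl))

theorem pow_inc (M : ℕ) : (((γ, 1), 1) : (Γ × (J → kˣ)) × kˣ) ^ M = ((γ ^ M, 1), 1) := by
  rw [Prod.pow_mk, Prod.pow_mk, one_pow, one_pow]

theorem sum_kd {X : Type} [Fintype X] (I : X → (Σ j, Fin (r j)) ⊕ (Σ j, Fin (r j))) (j : J) :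
    ∑ l, (if jk (kd (I l)) = j then sk (kd (I l)) else 0) = ∑ p, wt I ⟨j, p⟩ := by
  rw [← sum_block (fun i => wt I i) j]
  have h1 : ∑ l, (if jk (kd (I l)) = j then sk (kd (I l)) else 0) =
      ∑ y, ((Finset.univ.filter (fun l => I l = y)).card : ℤ) *
        (if jk (kd y) = j then sk (kd y) else 0) := by
    rw [← Finset.sum_fiberwise Finset.univ I
      (fun l => (if jk (kd (I l)) = j then sk (kd (I l)) else 0))]
    refine Finset.sum_congr rfl fun y _ => ?_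
    rw [Finset.sum_congr rfl (fun l hl => by rw [(Finset.mem_filter.1 hl).2]), Finset.sum_const,
      nsmul_eq_mul]
  rw [h1, Fintype.sum_sum_type, ← Finset.sum_add_distrib]
  refine Finset.sum_congr rfl fun i _ => ?_
  change _ * (if i.1 = j then (1 : ℤ) else 0) + _ * (if i.1 = j then (-1 : ℤ) else 0) = _
  unfold wt
  by_cases h : i.1 = j
  · rw [if_pos h, if_pos h, if_pos h]
    ring
  · rw [if_neg h, if_neg h, if_neg h]
    ring

theorem coe_prod_zpow {X : Type} [Fintype X] {a : k} (ha : a ≠ 0) (f : X → ℤ) :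
    ∏ y, a ^ f y = a ^ ∑ y, f y := by
  have h5 := prod_zpow_sum (Finset.univ : Finset X) (Units.mk0 a ha) f
  have h6 := congrArg (fun u : kˣ => (u : k)) h5
  simp only [Units.coe_prod, Units.val_zpow_eq_zpow_val, Units.val_mk0] at h6
  exact h6

include hBρ hb hα0 hr hind in
theorem exists_d {N : ℕ} {κ : Fin N → J ⊕ J} {c : ℤ}
    {φ : MultilinearMap k (fun _ : Fin N => (∀ j, V j × V' j)) k}
    (hφ : IsTateForm (sumRep ρ ρ') χ c φ)
    (hne : φ.compLinearMap (fun l => em B hB (κ l)) ≠ 0) :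
    ∃ d : J → ℤ, (∀ j, j ∉ T → d j = 0) ∧ c - ∑ l, tw w (κ l) = ∑ j, d j * e j ∧
      ∀ j, ∑ l, (if jk (κ l) = j then sk (κ l) else 0) = r j * d j := by
  classical
  obtain ⟨I, hI⟩ : ∃ I : Fin N → (Σ j, Fin (r j)) ⊕ (Σ j, Fin (r j)),
      φ (fun l => em B hB (κ l) (eb (Pi.basis b) (I l))) ≠ 0 := by
    by_contra h
    push Not at h
    apply hne
    refine Basis.ext_multilinear (fun _ => eb (Pi.basis b)) fun I => ?_
    rw [MultilinearMap.compLinearMap_apply, MultilinearMap.zero_apply]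
    exact h I
  have hkd : ∀ l, kd (I l) = κ l := by
    intro l
    apply em_eb B hB b
    intro h0
    exact hI (φ.map_coord_zero l h0)
  obtain ⟨Δ, hΔ, hφ⟩ := hφ
  obtain ⟨M, hM, -, hMΔ⟩ := Subgroup.exists_pow_mem_of_index_ne_zero hΔ.index_ne_zero γ
  have hMz : (M : ℤ) ≠ 0 := by exact_mod_cast hM.ne'
  have hpw : ∀ y, rp (totRep ρ) (((γ ^ M, 1), 1) : (Γ × (J → kˣ)) × kˣ) (eb (Pi.basis b) y) =
      ab (fun i : Σ j, Fin (r j) => α i.1 i.2) y ^ M • eb (Pi.basis b) y := by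
    intro y
    rw [← pow_inc]
    exact pow_eb (totRep ρ) (Pi.basis b)
      (rp_eb (totRep ρ) (Pi.basis b) (tot_gamma ρ b hb) (fun i => hα0 _ _)) M y
  have h1 : φ (fun l => em B hB (κ l)
      (rp (totRep ρ) (((γ ^ M, 1), 1) : (Γ × (J → kˣ)) × kˣ) (eb (Pi.basis b) (I l)))) =
      (∏ l, ab (fun i : Σ j, Fin (r j) => α i.1 i.2) (I l) ^ M) *
        φ (fun l => em B hB (κ l) (eb (Pi.basis b) (I l))) := by
    rw [← smul_eq_mul, ← MultilinearMap.map_smul_univ]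
    congr 1
    funext l
    rw [hpw, map_smul]
  have h2 : φ (fun l => em B hB (κ l)
      (rp (totRep ρ) (((γ ^ M, 1), 1) : (Γ × (J → kˣ)) × kˣ) (eb (Pi.basis b) (I l)))) =
      (∏ l, χ (γ ^ M) ^ (-tw w (κ l))) * (χ (γ ^ M) ^ c *
        φ (fun l => em B hB (κ l) (eb (Pi.basis b) (I l)))) := by
    rw [← hφ _ hMΔ, ← smul_eq_mul (∏ l, χ (γ ^ M) ^ (-tw w (κ l))),
      ← MultilinearMap.map_smul_univ]
    congr 1
    funext l
    rw [em_rep ρ ρ' B hB hBρ]
    simp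
  rw [h1, ← mul_assoc] at h2
  have h3 := mul_right_cancel₀ hI h2
  rw [coe_prod_zpow (chi_ne χ _), ← zpow_add₀ (chi_ne χ _),
    prod_ab (fun i : Σ j, Fin (r j) => hα0 i.1 i.2), map_pow, ← zpow_natCast (χ γ), ← zpow_mul,
    Fintype.prod_sigma] at h3
  obtain ⟨d0, hd1, hd2, hd3⟩ := hind (fun j i => (M : ℤ) * wt I ⟨j, i⟩) _ h3
  have hd : ∀ j i, wt I ⟨j, i⟩ = wt I ⟨j, ⟨0, hr j⟩⟩ := by
    intro j i
    have h4 := (hd1 j i).trans (hd1 j ⟨0, hr j⟩).symm
    exact mul_left_cancel₀ hMz h4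
  refine ⟨fun j => wt I ⟨j, ⟨0, hr j⟩⟩, fun j hj => ?_, ?_, fun j => ?_⟩
  · have h4 := hd1 j ⟨0, hr j⟩
    rw [hd2 j hj] at h4
    exact (mul_eq_zero.1 h4).resolve_left hMz
  · apply mul_left_cancel₀ hMz
    rw [Finset.mul_sum]
    have h5 : ∀ j, (M : ℤ) * (wt I ⟨j, ⟨0, hr j⟩⟩ * e j) = d0 j * e j := by
      intro j
      rw [← mul_assoc, hd1 j ⟨0, hr j⟩]
    rw [Finset.sum_congr rfl fun j _ => h5 j, ← hd3, Finset.sum_neg_distrib]
    ring
  · have h6 : ∀ l, (if jk (κ l) = j then sk (κ l) else 0) =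
        (if jk (kd (I l)) = j then sk (kd (I l)) else 0) := fun l => by rw [hkd]
    rw [Finset.sum_congr rfl fun l _ => h6 l, sum_kd, Finset.sum_congr rfl fun p _ => hd j p,
      Finset.sum_const, Finset.card_univ, Fintype.card_fin, nsmul_eq_mul]

/-- the numbers of the additional factors -/
def mu (d : J → ℤ) : J ⊕ J → ℕ := Sum.elim (fun j => (-d j).toNat) (fun j => (d j).toNat)

theorem sum_mu (d : J → ℤ) (f : J ⊕ J → ℤ) :
    ∑ a : Σ κ, Fin (mu d κ), f a.1 =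
      ∑ j, (((-d j).toNat : ℤ) * f (Sum.inl j) + ((d j).toNat : ℤ) * f (Sum.inr j)) := by
  rw [Fintype.sum_sigma]
  have h1 : ∀ κ, ∑ _x : Fin (mu d κ), f κ = (mu d κ : ℤ) * f κ := by
    intro κ
    rw [Finset.sum_const, Finset.card_univ, Fintype.card_fin, nsmul_eq_mul]
  rw [Finset.sum_congr rfl fun κ _ => h1 κ, Fintype.sum_sum_type, ← Finset.sum_add_distrib]
  rfl

theorem sum_ek (d : J → ℤ) : ∑ a : Σ κ, Fin (mu d κ), ek e a.1 = -∑ j, d j * e j := by
  rw [sum_mu, ← Finset.sum_neg_distrib]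
  refine Finset.sum_congr rfl fun j _ => ?_
  change ((-d j).toNat : ℤ) * e j + ((d j).toNat : ℤ) * (-e j) = _
  have h1 : ((d j).toNat : ℤ) - ((-d j).toNat : ℤ) = d j := Int.toNat_sub_toNat_neg (d j)
  linear_combination (-e j) * h1

theorem sum_skrk (d : J → ℤ) (j : J) :
    ∑ a : Σ κ, Fin (mu d κ), (if jk a.1 = j then sk a.1 * (rk r a.1 : ℤ) else 0) =
      -((r j : ℤ) * d j) := by
  rw [sum_mu d (fun κ => (if jk κ = j then sk κ * (rk r κ : ℤ) else 0)),
    Finset.sum_eq_single j]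
  · have h1 : ((d j).toNat : ℤ) - ((-d j).toNat : ℤ) = d j := Int.toNat_sub_toNat_neg (d j)
    change ((-d j).toNat : ℤ) * (if j = j then (1 : ℤ) * (r j : ℤ) else 0) +
      ((d j).toNat : ℤ) * (if j = j then (-1 : ℤ) * (r j : ℤ) else 0) = _
    rw [if_pos rfl, if_pos rfl]
    linear_combination (-(r j : ℤ)) * h1
  · intro j' _ h
    change ((-d j').toNat : ℤ) * (if j' = j then _ else 0) +
      ((d j').toNat : ℤ) * (if j' = j then _ else 0) = _
    rw [if_neg h, if_neg h, mul_zero, mul_zero, add_zero]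
  · intro h
    exact absurd (Finset.mem_univ _) h

theorem mu_T {d : J → ℤ} (hd : ∀ j, j ∉ T → d j = 0) (a : Σ κ, Fin (mu d κ)) : jk a.1 ∈ T := by
  obtain ⟨κ, i⟩ := a
  by_contra h
  have h0 : mu d κ = 0 := by
    rcases κ with j | j
    · change (-d j).toNat = 0
      rw [hd j h]
      rfl
    · change (d j).toNat = 0
      rw [hd j h]
      rfl
  have h1 : (i : ℕ) < mu d κ := i.2
  omega

theorem mu_swap {d : J → ℤ} (a a' : Σ κ, Fin (mu d κ)) : a'.1 ≠ Sum.swap a.1 := by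
  obtain ⟨κ, i⟩ := a
  obtain ⟨κ', i'⟩ := a'
  intro h
  have hi : 0 < mu d κ := lt_of_le_of_lt (Nat.zero_le _) i.2
  have hi' : 0 < mu d κ' := lt_of_le_of_lt (Nat.zero_le _) i'.2
  change κ' = Sum.swap κ at h
  rw [h] at hi'
  rcases κ with j | j
  · change 0 < (-d j).toNat at hi
    change 0 < (d j).toNat at hi'
    omega
  · change 0 < (d j).toNat at hi
    change 0 < (-d j).toNat at hi'
    omega

theorem even_card {X : Type} [Fintype X] (f : X → ℤ) (hf : ∀ x, f x = 1 ∨ f x = -1)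
    (h : ∑ x, f x = 0) : ∃ m, Fintype.card X = m * 2 := by
  classical
  refine ⟨(Finset.univ.filter fun x => f x = 1).card, ?_⟩
  have h1 : ∀ x, f x = 2 * (if f x = 1 then 1 else 0) - 1 := by
    intro x
    rcases hf x with h | h <;> rw [h] <;> norm_num
  rw [Finset.sum_congr rfl fun x _ => h1 x, Finset.sum_sub_distrib, ← Finset.mul_sum,
    Finset.sum_boole, Finset.sum_const, Finset.card_univ] at h
  simp only [nsmul_eq_mul, mul_one] at h
  have h2 : (Fintype.card X : ℤ) = (Finset.univ.filter fun x => f x = 1).card * 2 := by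
    linarith
  exact_mod_cast h2

theorem sk_eq (κ : J ⊕ J) : sk κ = 1 ∨ sk κ = -1 := by
  rcases κ with j | j
  · exact Or.inl rfl
  · exact Or.inr rfl

theorem sum_by_block {X : Type} [Fintype X] (κ : X → J ⊕ J) (f : X → ℤ) :
    ∑ l, f l = ∑ j, ∑ l, (if jk (κ l) = j then f l else 0) := by
  rw [Finset.sum_comm]
  refine Finset.sum_congr rfl fun l _ => ?_
  rw [Finset.sum_ite_eq, if_pos (Finset.mem_univ _)]

theorem exists_m {N : ℕ} {κ : Fin N → J ⊕ J} {d : J → ℤ}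
    (h : ∀ j, ∑ l, (if jk (κ l) = j then sk (κ l) else 0) = r j * d j) :
    ∃ m, Fintype.card (Fin N ⊕ (Σ a : (Σ κ, Fin (mu d κ)), Fin (rk r a.1))) = m * 2 := by
  refine even_card (Sum.elim (fun l => sk (κ l)) (fun y => sk y.1.1)) (fun x => ?_) ?_
  · rcases x with l | y
    · exact sk_eq _
    · exact sk_eq _
  · rw [Fintype.sum_sum_type]
    have h1 : ∑ l, sk (κ l) = ∑ j, (r j : ℤ) * d j := by
      rw [sum_by_block κ]
      exact Finset.sum_congr rfl fun j _ => h j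
    have h2 : ∑ y : (Σ a : (Σ κ, Fin (mu d κ)), Fin (rk r a.1)), sk y.1.1 =
        ∑ j, -((r j : ℤ) * d j) := by
      rw [Fintype.sum_sigma]
      have h3 : ∀ a : (Σ κ, Fin (mu d κ)), ∑ _y : Fin (rk r a.1), sk a.1 =
          sk a.1 * (rk r a.1 : ℤ) := by
        intro a
        rw [Finset.sum_const, Finset.card_univ, Fintype.card_fin, nsmul_eq_mul, mul_comm]
      rw [Finset.sum_congr rfl fun a _ => h3 a,
        sum_by_block (fun a : (Σ κ, Fin (mu d κ)) => a.1)]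
      exact Finset.sum_congr rfl fun j _ => sum_skrk d j
    simp only [Sum.elim_inl, Sum.elim_inr]
    rw [h1, h2, Finset.sum_neg_distrib, add_neg_cancel]

end

end Pool.Agent.V1141.WT
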