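import Pool.Agent.V1141.WT.Defs

/-!
# Tate classes with values in a representation
-/

set_option autoImplicit false

namespace Pool.Agent.V1141.WT

variable {k H M Γ : Type} [Field k] [AddCommGroup H] [Module k H] [AddCommGroup M] [Module k M]
  [Group Γ]

/-- The multilinear map `f` on `H` with values in `M` (an element of the tensor product of `M` and of a
tensor power of the dual of `H`) is fixed by a subgroup of finite index. -/
def IsTateMap (ρ : Representation k Γ H) (τ : Representation k Γ M) {N : ℕ}
    (f : MultilinearMap k (fun _ : Fin N => H) M) : Prop :=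
  ∃ Δ : Subgroup Γ, Δ.FiniteIndex ∧ ∀ g ∈ Δ, ∀ x, f (fun i => ρ g (x i)) = τ g (f x)

/-- `f` is the product of a form `ψ` with twist `c`, which is itself a product of Tate forms whose
numbers of variables are in `R`, and of a vector `u` of `M` with the same twist: a subgroup of finite
index multiplies it with `χ ^ c`. -/
def IsProductClass (ρ : Representation k Γ H) (τ : Representation k Γ M) (χ : Γ →* k) (R : Set ℕ)
    {N : ℕ} (f : MultilinearMap k (fun _ : Fin N => H) M) : Prop :=
  ∃ (ψ : MultilinearMap k (fun _ : Fin N => H) k) (u : M) (c : ℤ),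
    IsProductOfTateForms ρ χ R ψ ∧ IsTateForm ρ χ c ψ ∧
      (∃ Δ : Subgroup Γ, Δ.FiniteIndex ∧ ∀ g ∈ Δ, τ g u = χ g ^ c • u) ∧ ∀ x, f x = ψ x • u

/-- All Tate classes in all products of tensor powers of (the dual of) `H` and of `M` are linear
combinations of products of Tate forms on `H`, whose numbers of variables are in `R`, and of Tate
classes in `M`. -/
def TateClassesSplitIn (ρ : Representation k Γ H) (τ : Representation k Γ M) (χ : Γ →* k)
    (R : Set ℕ) : Prop :=
  ∀ (N : ℕ) (f : MultilinearMap k (fun _ : Fin N => H) M), IsTateMap ρ τ f →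
    f ∈ Submodule.span k {h | IsProductClass ρ τ χ R h}

end Pool.Agent.V1141.WT
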