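import Pool.Agent.V1141.WT.D6

/-!
# Tate classes and Weil classes from one element: the main theorem
-/

set_option autoImplicit false
set_option linter.unusedSectionVars false

namespace Pool.Agent.V1141.WT

open Module Polynomial Pool.Agent.V1141.OF

/-- **Tate classes are generated by Tate classes of degree two and by Weil classes.** -/
theorem main {k : Type} [Field k] [CharZero k] {Γ : Type} [Group Γ] (χ : Γ →* k)
    {J : Type} [Fintype J] (T : Set J) (V V' : J → Type)
    [∀ j, AddCommGroup (V j)] [∀ j, Module k (V j)] [∀ j, FiniteDimensional k (V j)]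
    [∀ j, Nontrivial (V j)] [∀ j, AddCommGroup (V' j)] [∀ j, Module k (V' j)]
    (ρ : ∀ j, Representation k Γ (V j)) (ρ' : ∀ j, Representation k Γ (V' j))
    (B : ∀ j, V j →ₗ[k] V' j →ₗ[k] k) (hB : ∀ j, Function.Bijective (B j).flip)
    (w e : J → ℤ) (hBρ : ∀ j g v v', B j (ρ j g v) (ρ' j g v') = χ g ^ w j * B j v v')
    (hdet : ∃ Δ : Subgroup Γ, Δ.FiniteIndex ∧ ∀ g ∈ Δ, ∀ j ∈ T,
      LinearMap.det (ρ j g) = χ g ^ e j)
    (γ : Γ) (α : ∀ j, Fin (finrank k (V j)) → k)
    (hγ : ∀ j, (ρ j γ).charpoly = ∏ i, (X - C (α j i)))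
    (hind : ∀ (m : ∀ j, Fin (finrank k (V j)) → ℤ) (c : ℤ), ∏ j, ∏ i, α j i ^ m j i = χ γ ^ c →
      ∃ d : J → ℤ, (∀ j i, m j i = d j) ∧ (∀ j, j ∉ T → d j = 0) ∧ c = ∑ j, d j * e j) :
    TateFormsGeneratedIn (sumRep ρ ρ') χ ({2} ∪ {n | ∃ j ∈ T, n = finrank k (V j)}) := by
  classical
  have h0 : ∀ j i, α j i ≠ 0 := by
    intro j i h
    have h1 : Module.End.HasEigenvalue (ρ j γ) 0 := by
      rw [Module.End.hasEigenvalue_iff_isRoot_charpoly, hγ, Polynomial.IsRoot,
        Polynomial.eval_prod]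
      refine Finset.prod_eq_zero (Finset.mem_univ i) ?_
      simp [h]
    obtain ⟨v, hv⟩ := h1.exists_hasEigenvector
    apply hv.2
    have h2 : ρ j γ⁻¹ (ρ j γ v) = v := by
      rw [← Module.End.mul_apply, ← map_mul, inv_mul_cancel, map_one, Module.End.one_apply]
    rw [← h2, hv.apply_eq_smul, zero_smul, map_zero]
  have hinj : ∀ j, Function.Injective (α j) := by
    intro j i i' hii
    by_contra hne
    let m : ∀ j, Fin (finrank k (V j)) → ℤ := Pi.single j (Pi.single i 1 - Pi.single i' 1)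
    have h1 : ∏ j', ∏ x, α j' x ^ m j' x = χ γ ^ (0 : ℤ) := by
      rw [zpow_zero, Finset.prod_eq_single j]
      · have h2 : ∀ x, α j x ^ m j x =
            α j x ^ ((Pi.single i 1 : Fin (finrank k (V j)) → ℤ) x) /
              α j x ^ ((Pi.single i' 1 : Fin (finrank k (V j)) → ℤ) x) := by
          intro x
          simp only [m]
          rw [Pi.single_eq_same, Pi.sub_apply, zpow_sub₀ (h0 j x)]
        have h3 : ∀ i : Fin (finrank k (V j)),
            ∏ x, α j x ^ ((Pi.single i 1 : Fin (finrank k (V j)) → ℤ) x) = α j i := by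
          intro i
          rw [Finset.prod_eq_single i]
          · rw [Pi.single_eq_same, zpow_one]
          · intro x _ hx
            rw [Pi.single_eq_of_ne hx, zpow_zero]
          · intro h
            exact absurd (Finset.mem_univ _) h
        rw [Finset.prod_congr rfl fun x _ => h2 x, Finset.prod_div_distrib, h3, h3, hii,
          div_self (h0 j i')]
      · intro j' _ hj'
        refine Finset.prod_eq_one fun x _ => ?_
        simp only [m]
        rw [Pi.single_eq_of_ne hj', Pi.zero_apply, zpow_zero]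
      · intro h
        exact absurd (Finset.mem_univ _) h
    obtain ⟨d, h4, -, -⟩ := hind m 0 h1
    have h5 := (h4 j i).trans (h4 j i').symm
    simp only [m] at h5
    rw [Pi.single_eq_same, Pi.sub_apply, Pi.sub_apply, Pi.single_eq_same, Pi.single_eq_same,
      Pi.single_eq_of_ne hne, Pi.single_eq_of_ne (Ne.symm hne)] at h5
    norm_num at h5
  choose b hb using fun j => exists_eigen (ρ j γ) (hinj j) (hγ j)
  obtain ⟨Δ₀, hΔ₀, hdet⟩ := hdet
  have key := generated (χ := χ) ρ ρ' B hB hBρ b hΔ₀ hdet hb h0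
    (fun j => Module.finrank_pos) hind
  have hR : ((fun j => finrank k (V j)) '' T) = {n | ∃ j ∈ T, n = finrank k (V j)} := by
    ext n
    constructor
    · rintro ⟨j, hj, rfl⟩
      exact ⟨j, hj, rfl⟩
    · rintro ⟨j, hj, rfl⟩
      exact ⟨j, hj, rfl⟩
  rw [← hR]
  exact key

end Pool.Agent.V1141.WT
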