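import Mathlib

/-!
# Pairs of dual representations, Tate forms and Weil classes
-/

set_option autoImplicit false

namespace Pool.Agent.V1141.WT

open Module Polynomial

section pairing

variable {k : Type} [Field k] {Γ : Type} [Group Γ]

/-- The action of the group element `g` on `v`. -/
def move {V : Type} [AddCommGroup V] [Module k V] (ρ : Representation k Γ V) (g : Γ) (v : V) : V :=
  ρ g v

/-- The value of the bilinear pairing `B`. -/
def value {V V' : Type} [AddCommGroup V] [Module k V] [AddCommGroup V'] [Module k V']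
    (B : V →ₗ[k] V' →ₗ[k] k) (v : V) (v' : V') : k := B v v'

/-- The pairing `B` is perfect (the spaces are finite-dimensional): `V'` is the dual of `V`. -/
def IsPerfect {V V' : Type} [AddCommGroup V] [Module k V] [AddCommGroup V'] [Module k V']
    (B : V →ₗ[k] V' →ₗ[k] k) : Prop := Function.Bijective B.flip

/-- The pairing `B` of the representations `V` and `V'` is perfect and has values in the twist
`χ ^ w`. -/
def IsTwistedPairing {V V' : Type} [AddCommGroup V] [Module k V] [AddCommGroup V'] [Module k V']
    (ρ : Representation k Γ V) (ρ' : Representation k Γ V') (χ : Γ →* k) (w : ℤ)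
    (B : V →ₗ[k] V' →ₗ[k] k) : Prop :=
  IsPerfect B ∧ ∀ g v v', value B (move ρ g v) (move ρ' g v') = χ g ^ w * value B v v'

/-- The group `Δ` acts on the determinant of the representation through `χ ^ e`. -/
def HasDeterminant {V : Type} [AddCommGroup V] [Module k V] (ρ : Representation k Γ V)
    (χ : Γ →* k) (e : ℤ) (Δ : Subgroup Γ) : Prop :=
  ∀ g ∈ Δ, LinearMap.det (ρ g) = χ g ^ e

/-- The `α i` are the eigenvalues of the element `γ`. -/
def HasEigenvalues {V : Type} [AddCommGroup V] [Module k V] [FiniteDimensional k V]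
    (ρ : Representation k Γ V) (γ : Γ) {n : ℕ} (α : Fin n → k) : Prop :=
  (ρ γ).charpoly = ∏ i, (X - C (α i))

end pairing

/-- Two representations `V`, `V'` of `Γ` over the field `k` which are dual to each other up to the
twist `χ ^ w`. -/
structure Piece (k : Type) [Field k] {Γ : Type} [Group Γ] (χ : Γ →* k) where
  /-- the first space -/
  V : Type
  /-- the second space -/
  V' : Type
  [acV : AddCommGroup V]
  [mV : Module k V]
  [finV : FiniteDimensional k V]
  [ntV : Nontrivial V]
  [acV' : AddCommGroup V']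
  [mV' : Module k V']
  /-- the action on `V` -/
  ρ : Representation k Γ V
  /-- the action on `V'` -/
  ρ' : Representation k Γ V'
  /-- the pairing -/
  B : V →ₗ[k] V' →ₗ[k] k
  /-- the twist -/
  w : ℤ
  pairing : IsTwistedPairing ρ ρ' χ w B

attribute [instance] Piece.acV Piece.mV Piece.finV Piece.ntV Piece.acV' Piece.mV'

section forms

variable {k H Γ : Type} [Field k] [AddCommGroup H] [Module k H] [Group Γ]

/-- The multilinear form `φ` on `H`, on which `Γ` acts by `act`, is multiplied by `χ ^ c` by the
elements of a subgroup of finite index. -/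
def IsTate (act : Γ → H → H) (χ : Γ →* k) {ι : Type} (c : ℤ)
    (φ : MultilinearMap k (fun _ : ι => H) k) : Prop :=
  ∃ Δ : Subgroup Γ, Δ.FiniteIndex ∧ ∀ g ∈ Δ, ∀ x, φ (fun i => act g (x i)) = χ g ^ c * φ x

/-- The multilinear form `φ` in `N` variables is a product of Tate forms `ψ a`, in the variables with
indices in `I a`; each variable occurs in exactly one of the factors, and the number of variables of
each factor belongs to `R`. -/
def IsProduct (act : Γ → H → H) (χ : Γ →* k) (R : Set ℕ) {N : ℕ}
    (φ : MultilinearMap k (fun _ : Fin N => H) k) : Prop :=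
  ∃ (A : Type) (_ : Fintype A) (I : A → Type) (_ : ∀ a, Fintype (I a)) (p : (Σ a, I a) ≃ Fin N)
    (c : A → ℤ) (ψ : ∀ a, MultilinearMap k (fun _ : I a => H) k),
    (∀ a, Fintype.card (I a) ∈ R ∧ IsTate act χ (c a) (ψ a)) ∧
      ∀ x, φ x = ∏ a, ψ a (fun i => x (p ⟨a, i⟩))

/-- All Tate forms, with any number of variables, are linear combinations of products of Tate forms
whose numbers of variables are in `R`. -/
def GeneratedIn (act : Γ → H → H) (χ : Γ →* k) (R : Set ℕ) : Prop :=
  ∀ (N : ℕ) (c : ℤ) (φ : MultilinearMap k (fun _ : Fin N => H) k), IsTate act χ c φ →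
    φ ∈ Submodule.span k {ψ | IsProduct act χ R ψ}

end forms

section family

variable {k : Type} [Field k] {Γ : Type} [Group Γ] {χ : Γ →* k} {J : Type}

/-- The dimension of `V j`. -/
noncomputable def dm (P : J → Piece k χ) (j : J) : ℕ := finrank k (P j).V

/-- The sum `H` of all `V j` and `V' j`. -/
abbrev Total (P : J → Piece k χ) : Type := ∀ j, (P j).V × (P j).V'

/-- The action of `Γ` on `H`. -/
def action (P : J → Piece k χ) : Γ → Total P → Total P :=
  fun g x j => (move (P j).ρ g (x j).1, move (P j).ρ' g (x j).2)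

/-- The Weil classes in `det (V j)`, `j ∈ T`, are Tate classes with the twist `e j`. -/
def WeilClassesAreTate (P : J → Piece k χ) (T : Set J) (e : J → ℤ) : Prop :=
  ∃ Δ : Subgroup Γ, Δ.FiniteIndex ∧ ∀ j ∈ T, HasDeterminant (P j).ρ χ (e j) Δ

/-- The `α j i` are the eigenvalues of `γ` on `V j`. -/
def AreEigenvalues (P : J → Piece k χ) (γ : Γ) (α : ∀ j, Fin (dm P j) → k) : Prop :=
  ∀ j, HasEigenvalues (P j).ρ γ (α j)

/-- The relations between the numbers `α j i` and `q` follow from `∏ i, α j i = q ^ (e j)`,
`j ∈ T`. -/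
def OnlyWeilRelations [Fintype J] {r : J → ℕ} (T : Set J) (e : J → ℤ) (q : k)
    (α : ∀ j, Fin (r j) → k) : Prop :=
  ∀ (m : ∀ j, Fin (r j) → ℤ) (c : ℤ), ∏ j, ∏ i, α j i ^ m j i = q ^ c →
    ∃ d : J → ℤ, (∀ j i, m j i = d j) ∧ (∀ j, j ∉ T → d j = 0) ∧ c = ∑ j, d j * e j

end family

end Pool.Agent.V1141.WT
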