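import Pool.Agent.V1141.WT.Pieces

/-!
# Tate classes with values in a representation, and relations
-/

set_option autoImplicit false

namespace Pool.Agent.V1141.WT

section forms

variable {k H M Γ : Type} [Field k] [AddCommGroup H] [Module k H] [AddCommGroup M] [Module k M]
  [Group Γ]

/-- The vector `u` of `M` is multiplied by `χ ^ c` by the elements of a subgroup of finite index. -/
def IsTateVector (τ : Representation k Γ M) (χ : Γ →* k) (c : ℤ) (u : M) : Prop :=
  ∃ Δ : Subgroup Γ, Δ.FiniteIndex ∧ ∀ g ∈ Δ, move τ g u = χ g ^ c • u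

/-- The multilinear map `f` on `H` with values in `M` (an element of the tensor product of `M` and of a
tensor power of the dual of `H`) is fixed by a subgroup of finite index. -/
def IsTateClass (act : Γ → H → H) (τ : Representation k Γ M) {N : ℕ}
    (f : MultilinearMap k (fun _ : Fin N => H) M) : Prop :=
  ∃ Δ : Subgroup Γ, Δ.FiniteIndex ∧ ∀ g ∈ Δ, ∀ x, f (fun i => act g (x i)) = move τ g (f x)

/-- `f` is the product of a Tate form `ψ` with twist `c`, which is itself a product of Tate forms whose
numbers of variables are in `R`, and of a vector `u` of `M` with the same twist. -/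
def IsProductWith (act : Γ → H → H) (τ : Representation k Γ M) (χ : Γ →* k) (R : Set ℕ)
    {N : ℕ} (f : MultilinearMap k (fun _ : Fin N => H) M) : Prop :=
  ∃ (ψ : MultilinearMap k (fun _ : Fin N => H) k) (u : M) (c : ℤ),
    IsProduct act χ R ψ ∧ IsTate act χ c ψ ∧ IsTateVector τ χ c u ∧ ∀ x, f x = ψ x • u

/-- All Tate classes in all products of tensor powers of (the dual of) `H` and of `M` are linear
combinations of products of Tate forms on `H`, whose numbers of variables are in `R`, and of Tate
classes in `M`. -/
def SplitIn (act : Γ → H → H) (τ : Representation k Γ M) (χ : Γ →* k) (R : Set ℕ) : Prop :=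
  ∀ (N : ℕ) (f : MultilinearMap k (fun _ : Fin N => H) M), IsTateClass act τ f →
    f ∈ Submodule.span k {h | IsProductWith act τ χ R h}

end forms

/-- If a product of powers of the numbers `α j i` is equal to `β ^ n * q ^ c` with `n > 0`, then the
exponent of `α j i` does not depend on `i`, and it is zero if `j ∉ T`. -/
def OnlyConstantRelations {k J : Type} [Field k] [Fintype J] {r : J → ℕ} (T : Set J) (q β : k)
    (α : ∀ j, Fin (r j) → k) : Prop :=
  ∀ (m : ∀ j, Fin (r j) → ℤ) (c : ℤ) (n : ℕ), 0 < n → ∏ j, ∏ i, α j i ^ m j i = β ^ n * q ^ c →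
    ∃ d : J → ℤ, (∀ j i, m j i = d j) ∧ ∀ j, j ∉ T → d j = 0

end Pool.Agent.V1141.WT
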