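import Pool.Agent.V1141.WT.Main
import Pool.Agent.V1141.WT.DefsU
import Pool.Agent.V1141.OF.Times2
import Pool.Agent.V1141.OF.Times3

/-!
# Tate classes with values in a representation: weights
-/

set_option autoImplicit false
set_option linter.unusedSectionVars false
set_option linter.unusedVariables false

namespace Pool.Agent.V1141.WT

open Module Pool.Agent.H204R3.SP Pool.Agent.H204R3.GP Pool.Agent.V1141.OF
open Pool.Agent.Y137.MV (IsEqv)

noncomputable section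

variable {k : Type} [Field k] [CharZero k] {Γ : Type} [Group Γ] {χ : Γ →* k}
  {J : Type} [Fintype J] [DecidableEq J] {V V' : J → Type}
  [∀ j, AddCommGroup (V j)] [∀ j, Module k (V j)] [∀ j, AddCommGroup (V' j)]
  [∀ j, Module k (V' j)]
  (ρ : ∀ j, Representation k Γ (V j)) (ρ' : ∀ j, Representation k Γ (V' j))
  (B : ∀ j, V j →ₗ[k] V' j →ₗ[k] k) (hB : ∀ j, Function.Bijective (B j).flip)
  {w : J → ℤ} (hBρ : ∀ j g v v', B j (ρ j g v) (ρ' j g v') = χ g ^ w j * B j v v')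
  {r : J → ℕ} (b : ∀ j, Basis (Fin (r j)) k (V j))
  {T : Set J} {e : J → ℤ} {Δ₀ : Subgroup Γ} (hΔ₀ : Δ₀.FiniteIndex)
  (hdet : ∀ g ∈ Δ₀, ∀ j ∈ T, LinearMap.det (ρ j g) = χ g ^ e j)
  {γ : Γ} {α : ∀ j, Fin (r j) → k} (hb : ∀ j i, ρ j γ (b j i) = α j i • b j i)
  (hα0 : ∀ j i, α j i ≠ 0) (hr : ∀ j, 0 < r j)
  (hrat : ∀ m : (Σ j, Fin (r j)) → ℤ,
    (∀ j, ∑ i : Σ j, Fin (r j), (if i.1 = j then m i else 0) = 0) →
      ∏ i : Σ j, Fin (r j), α i.1 i.2 ^ m i = 1 → m = 0)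
  {M : Type} [AddCommGroup M] [Module k M]
  (τ : Representation k Γ M)
  (hindM : ∀ (m : ∀ j, Fin (r j) → ℤ) (c : ℤ) (n : ℕ) (β : k), 0 < n →
    Module.End.HasEigenvalue (τ γ) β → ∏ j, ∏ i, α j i ^ m j i = β ^ n * χ γ ^ c →
      ∃ d : J → ℤ, (∀ j i, m j i = d j) ∧ ∀ j, j ∉ T → d j = 0)

/-- the representation of the extended group on `M` -/
def sig (χ : Γ →* k) (J : Type) (c : ℤ) : Representation k ((Γ × (J → kˣ)) × kˣ) M where
  toFun s := χ s.1.1 ^ c • τ s.1.1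
  map_one' := by
    change χ 1 ^ c • τ 1 = 1
    rw [map_one, one_zpow, one_smul, map_one]
  map_mul' s t := by
    change χ (s.1.1 * t.1.1) ^ c • τ (s.1.1 * t.1.1) = _
    rw [map_mul, map_mul, mul_zpow, smul_mul_smul_comm]

theorem sig_apply (c : ℤ) (s : (Γ × (J → kˣ)) × kˣ) (x : M) :
    sig τ χ J c s x = χ s.1.1 ^ c • τ s.1.1 x := rfl

theorem smul_eb {X : Type} [Fintype X] {s : (Γ × (J → kˣ)) × kˣ}
    {c : (Σ j, Fin (r j)) → k} (hc0 : ∀ i, c i ≠ 0) {n : ℕ}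
    (hs : ∀ y, rp (totRep ρ) s (eb (Pi.basis b) y) = ab c y ^ n • eb (Pi.basis b) y)
    (φ : MultilinearMap k (fun _ : X => (∀ j, V j) × Module.Dual k (∀ j, V j)) M)
    (I : X → (Σ j, Fin (r j)) ⊕ (Σ j, Fin (r j))) :
    φ (fun l => rp (totRep ρ) s (eb (Pi.basis b) (I l))) =
      (∏ i, c i ^ ((n : ℤ) * wt I i)) • φ (fun l => eb (Pi.basis b) (I l)) := by
  classical
  simp only [hs]
  rw [MultilinearMap.map_smul_univ, prod_ab hc0]
  rfl

include hb hα0 in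
theorem hpw (n : ℕ) (y : (Σ j, Fin (r j)) ⊕ (Σ j, Fin (r j))) :
    rp (totRep ρ) (((γ ^ n, 1), 1) : (Γ × (J → kˣ)) × kˣ) (eb (Pi.basis b) y) =
      ab (fun i : Σ j, Fin (r j) => α i.1 i.2) y ^ n • eb (Pi.basis b) y := by
  rw [← pow_inc]
  exact pow_eb (totRep ρ) (Pi.basis b)
    (rp_eb (totRep ρ) (Pi.basis b) (tot_gamma ρ b hb) (fun i => hα0 _ _)) n y

include hb hα0 hindM in
theorem wtM [IsAlgClosed k] [FiniteDimensional k M] {X : Type} [Fintype X]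
    {φ : MultilinearMap k (fun _ : X => (∀ j, V j) × Module.Dual k (∀ j, V j)) M}
    {I : X → (Σ j, Fin (r j)) ⊕ (Σ j, Fin (r j))} (hI : φ (fun l => eb (Pi.basis b) (I l)) ≠ 0)
    {n : ℕ} (hn : 0 < n) {c : ℤ}
    (h : φ (fun l => rp (totRep ρ) (((γ ^ n, 1), 1) : (Γ × (J → kˣ)) × kˣ)
      (eb (Pi.basis b) (I l))) = χ (γ ^ n) ^ c • τ (γ ^ n) (φ (fun l => eb (Pi.basis b) (I l)))) :
    ∃ d : J → ℤ, (∀ j i, (n : ℤ) * wt I ⟨j, i⟩ = d j) ∧ ∀ j, j ∉ T → d j = 0 := by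
  rw [smul_eb ρ b (fun i : Σ j, Fin (r j) => hα0 i.1 i.2) (hpw ρ b hb hα0 n) φ I] at h
  have h1 : ((τ γ) ^ n) (φ (fun l => eb (Pi.basis b) (I l))) =
      (χ (γ ^ n) ^ (-c) * ∏ i : Σ j, Fin (r j), α i.1 i.2 ^ ((n : ℤ) * wt I i)) •
        φ (fun l => eb (Pi.basis b) (I l)) := by
    rw [mul_smul, h, smul_smul, ← zpow_add₀ (chi_ne χ _), neg_add_cancel, zpow_zero, one_smul,
      map_pow]
  obtain ⟨β, hβ, hβn⟩ := exists_eigenvalue_of_pow (τ γ) hn hI h1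
  refine hindM (fun j i => (n : ℤ) * wt I ⟨j, i⟩) ((n : ℤ) * c) n β hn hβ ?_
  have e1 : χ (γ ^ n) ^ (-c) = χ γ ^ ((n : ℤ) * -c) := by
    rw [map_pow, ← zpow_natCast, ← zpow_mul]
  rw [hβn, Fintype.prod_sigma, e1, mul_comm (χ γ ^ ((n : ℤ) * -c)), mul_assoc,
    ← zpow_add₀ (chi_ne χ _), show (n : ℤ) * -c + (n : ℤ) * c = 0 by ring, zpow_zero, mul_one]

theorem tau_pow (n : ℕ) (j : J) (y : (Σ j, Fin (r j)) ⊕ (Σ j, Fin (r j))) :
    rp (totRep ρ) (((tau k Γ j, 1) : (Γ × (J → kˣ)) × kˣ) ^ n) (eb (Pi.basis b) y) =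
      ab (fun i : Σ j, Fin (r j) => if i.1 = j then (2 : k) else 1) y ^ n •
        eb (Pi.basis b) y :=
  pow_eb (totRep ρ) (Pi.basis b)
    (rp_eb (totRep ρ) (Pi.basis b) (tot_tau ρ b j) (fun i => by
      by_cases h : i.1 = j
      · rw [if_pos h]; exact two_ne_zero
      · rw [if_neg h]; exact one_ne_zero)) n y

theorem tau_one (n : ℕ) (j : J) : ((((tau k Γ j, 1) : (Γ × (J → kˣ)) × kˣ) ^ n).1).1 = 1 := by
  rw [Prod.pow_fst, Prod.pow_fst]
  exact one_pow n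

include hb hα0 hindM hr in
theorem balM [IsAlgClosed k] [FiniteDimensional k M] (c : ℤ) {X : Type} [Fintype X] [DecidableEq X]
    (φ : MultilinearMap k (fun _ : X => (∀ j, V j) × Module.Dual k (∀ j, V j)) M)
    (hφ : IsEqv (rp (totRep ρ)) (sig τ χ J c) φ)
    (I : X → (Σ j, Fin (r j)) ⊕ (Σ j, Fin (r j))) (hI : φ (fun l => eb (Pi.basis b) (I l)) ≠ 0)
    (y : (Σ j, Fin (r j)) ⊕ (Σ j, Fin (r j))) :
    (Finset.univ.filter (fun l => I l = y)).card =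
      (Finset.univ.filter (fun l => I l = Sum.swap y)).card := by
  classical
  obtain ⟨Δ, hΔ, hφ⟩ := hφ
  obtain ⟨n, hn, -, hnΔ⟩ := Subgroup.exists_pow_mem_of_index_ne_zero hΔ.index_ne_zero
    (((γ, 1), 1) : (Γ × (J → kˣ)) × kˣ)
  have hnz : (n : ℤ) ≠ 0 := by exact_mod_cast hn.ne'
  rw [pow_inc] at hnΔ
  obtain ⟨d, hd, -⟩ := wtM ρ b hb hα0 τ hindM hI hn (hφ _ hnΔ _)
  have hsum : ∀ j, ∑ p, wt I ⟨j, p⟩ = 0 := by
    intro j
    obtain ⟨n', hn', -, hnΔ'⟩ := Subgroup.exists_pow_mem_of_index_ne_zero hΔ.index_ne_zero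
      ((tau k Γ j, 1) : (Γ × (J → kˣ)) × kˣ)
    have hnz' : (n' : ℤ) ≠ 0 := by exact_mod_cast hn'.ne'
    have h1 := hφ _ hnΔ' (fun l => eb (Pi.basis b) (I l))
    rw [smul_eb ρ b (fun i : Σ j, Fin (r j) => by
      by_cases h : i.1 = j
      · rw [if_pos h]; exact two_ne_zero
      · rw [if_neg h]; exact one_ne_zero) (tau_pow ρ b n' j) φ I, sig_apply, tau_one, map_one,
      one_zpow, one_smul, map_one, Module.End.one_apply] at h1
    have h2 : ∏ i : Σ j, Fin (r j), (if i.1 = j then (2 : k) else 1) ^ ((n' : ℤ) * wt I i) = 1 := by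
      have h3 : ((∏ i : Σ j, Fin (r j), (if i.1 = j then (2 : k) else 1) ^ ((n' : ℤ) * wt I i)) - 1) •
          φ (fun l => eb (Pi.basis b) (I l)) = 0 := by
        rw [sub_smul, one_smul, h1, sub_self]
      exact sub_eq_zero.1 ((smul_eq_zero.1 h3).resolve_right hI)
    have h4 : ∀ i : Σ j, Fin (r j), (if i.1 = j then (2 : k) else 1) ^ ((n' : ℤ) * wt I i) =
        (((Units.mk0 (2 : k) two_ne_zero) ^ ((n' : ℤ) *
          (if i.1 = j then wt I i else 0)) : kˣ) : k) := by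
      intro i
      by_cases h : i.1 = j
      · rw [if_pos h, if_pos h, Units.val_zpow_eq_zpow_val, Units.val_mk0]
      · rw [if_neg h, if_neg h, mul_zero, zpow_zero, one_zpow, Units.val_one]
    rw [Finset.prod_congr rfl fun i _ => h4 i, ← Units.coe_prod, prod_zpow_sum,
      Units.val_zpow_eq_zpow_val, Units.val_mk0, ← Finset.mul_sum] at h2
    have h5 := (mul_eq_zero.1 (two_zpow_eq_one h2)).resolve_left hnz'
    rwa [sum_block (fun i => wt I i) j] at h5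
  have hz : ∀ j i, wt I ⟨j, i⟩ = 0 := by
    intro j i
    have h1 : ∀ i', wt I ⟨j, i'⟩ = wt I ⟨j, i⟩ := fun i' =>
      mul_left_cancel₀ hnz ((hd j i').trans (hd j i).symm)
    have h2 := hsum j
    rw [Finset.sum_congr rfl fun p _ => h1 p, Finset.sum_const, Finset.card_univ,
      Fintype.card_fin, nsmul_eq_mul] at h2
    exact (mul_eq_zero.1 h2).resolve_left (by exact_mod_cast (hr j).ne')
  have h5 : ∀ i, (Finset.univ.filter (fun l => I l = Sum.inl i)).card =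
      (Finset.univ.filter (fun l => I l = Sum.inr i)).card := by
    rintro ⟨j, i⟩
    exact_mod_cast sub_eq_zero.1 (hz j i)
  rcases y with i | i
  · exact h5 i
  · exact (h5 i).symm

include hBρ hb hα0 hr hindM in
theorem exists_dM [IsAlgClosed k] [FiniteDimensional k M] {N : ℕ} {κ : Fin N → J ⊕ J}
    {f : MultilinearMap k (fun _ : Fin N => (∀ j, V j × V' j)) M}
    (hf : IsTateMap (sumRep ρ ρ') τ f)
    (hne : f.compLinearMap (fun l => em B hB (κ l)) ≠ 0) :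
    ∃ d : J → ℤ, (∀ j, j ∉ T → d j = 0) ∧
      ∀ j, ∑ l, (if jk (κ l) = j then sk (κ l) else 0) = r j * d j := by
  classical
  obtain ⟨I, hI⟩ : ∃ I : Fin N → (Σ j, Fin (r j)) ⊕ (Σ j, Fin (r j)),
      f (fun l => em B hB (κ l) (eb (Pi.basis b) (I l))) ≠ 0 := by
    by_contra h
    push Not at h
    apply hne
    refine Basis.ext_multilinear (fun _ => eb (Pi.basis b)) fun I => ?_
    rw [MultilinearMap.compLinearMap_apply, zero_apply]
    exact h I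
  have hkd : ∀ l, kd (I l) = κ l := by
    intro l
    apply em_eb B hB b
    intro h0
    exact hI (f.map_coord_zero l h0)
  obtain ⟨Δ, hΔ, hf⟩ := hf
  obtain ⟨n, hn, -, hnΔ⟩ := Subgroup.exists_pow_mem_of_index_ne_zero hΔ.index_ne_zero γ
  have hnz : (n : ℤ) ≠ 0 := by exact_mod_cast hn.ne'
  have h2 : (f.compLinearMap (fun l => em B hB (κ l))) (fun l =>
      rp (totRep ρ) (((γ ^ n, 1), 1) : (Γ × (J → kˣ)) × kˣ) (eb (Pi.basis b) (I l))) =
      χ (γ ^ n) ^ (-∑ l, tw w (κ l)) •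
        τ (γ ^ n) ((f.compLinearMap (fun l => em B hB (κ l))) (fun l => eb (Pi.basis b) (I l))) := by
    rw [MultilinearMap.compLinearMap_apply, MultilinearMap.compLinearMap_apply, ← hf _ hnΔ,
      ← Finset.sum_neg_distrib, ← coe_prod_zpow (chi_ne χ _), ← MultilinearMap.map_smul_univ]
    congr 1
    funext l
    rw [em_rep ρ ρ' B hB hBρ]
    simp
  obtain ⟨d0, hd1, hd2⟩ := wtM ρ b hb hα0 τ hindM (φ := f.compLinearMap (fun l => em B hB (κ l)))
    hI hn h2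
  have hd : ∀ j i, wt I ⟨j, i⟩ = wt I ⟨j, ⟨0, hr j⟩⟩ := by
    intro j i
    have h4 := (hd1 j i).trans (hd1 j ⟨0, hr j⟩).symm
    exact mul_left_cancel₀ hnz h4
  refine ⟨fun j => wt I ⟨j, ⟨0, hr j⟩⟩, fun j hj => ?_, fun j => ?_⟩
  · have h4 := hd1 j ⟨0, hr j⟩
    rw [hd2 j hj] at h4
    exact (mul_eq_zero.1 h4).resolve_left hnz
  · have h6 : ∀ l, (if jk (κ l) = j then sk (κ l) else 0) =
        (if jk (kd (I l)) = j then sk (kd (I l)) else 0) := fun l => by rw [hkd]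
    rw [Finset.sum_congr rfl fun l _ => h6 l, sum_kd, Finset.sum_congr rfl fun p _ => hd j p,
      Finset.sum_const, Finset.card_univ, Fintype.card_fin, nsmul_eq_mul]

end

end Pool.Agent.V1141.WT
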